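import Pool.Agent.Lib.MP_8a52c3_lc.Mono25.Defs

/-! Closure and edge counting in sparse graphs. -/

namespace Pool.Agent.Lib.MP_8a52c3_lc.Mono25

open Finset

variable {V E : Type} [Fintype V] [Fintype E] [DecidableEq V] [DecidableEq E] {G : Gr V E}

omit [Fintype V] [DecidableEq E] in
theorem graph_ein_mono {I J : Finset V} (h : I ⊆ J) : G.ein I ⊆ G.ein J := by
  intro e he
  simp only [Gr.ein, mem_filter, mem_univ, true_and] at he ⊢
  exact ⟨h he.1, h he.2⟩

theorem good_card {r g : ℕ} {I : Finset V} (hs : G.Sparse r) (h : G.Good r g I) :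
    I.card ≤ 2 * g := by
  have h1 := hs I h.2.1
  have h2 := h.1
  omega

theorem good_empty {r : ℕ} (hs : G.Sparse r) (hr : 1 ≤ r) : G.Good r 0 ∅ := by
  refine ⟨by simp, by simp, fun v _ => ?_⟩
  have := hs (insert v ∅) (by simpa using hr)
  rw [card_insert_of_notMem (notMem_empty v), card_empty] at this
  omega

theorem closure {r g g' : ℕ} {I : Finset V} (hs : G.Sparse r) (h : G.Good r g I) (J : Finset V)
    (hJ : g + J.card ≤ g') (hg : 2 * g' + 1 ≤ r) : ∃ I', I ∪ J ⊆ I' ∧ G.Good r g' I' := by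
  classical
  have hI := good_card hs h
  have hc := card_union_le I J
  have hmono : (G.ein I).card ≤ (G.ein (I ∪ J)).card := card_le_card (graph_ein_mono subset_union_left)
  let T : Finset (Finset V) := univ.filter fun I' =>
    I ∪ J ⊆ I' ∧ I'.card ≤ r ∧ 4 * I'.card ≤ (G.ein I').card + 4 * g'
  have hT : T.Nonempty := ⟨I ∪ J, by
    have := h.1
    simp only [T, mem_filter, mem_univ, true_and]
    exact ⟨Subset.refl _, by omega, by omega⟩⟩
  obtain ⟨I', hI', hmax⟩ := exists_max_image T card hT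
  simp only [T, mem_filter, mem_univ, true_and] at hI'
  obtain ⟨a1, a2, a3⟩ := hI'
  refine ⟨I', a1, a3, a2, fun v hv => ?_⟩
  by_contra hcon
  have a4 := hs I' a2
  have a5 : (insert v I').card = I'.card + 1 := card_insert_of_notMem hv
  have := hmax (insert v I') (by
    simp only [T, mem_filter, mem_univ, true_and]
    exact ⟨a1.trans (subset_insert _ _), by omega, by omega⟩)
  omega

theorem edge_count {r : ℕ} {I : Finset V} (hs : G.Sparse r) (h : G.Closed I) (J : Finset V)
    (hJ : J.card ≤ r) : (G.ein (I ∪ J) \ G.ein I).card ≤ 5 * J.card := by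
  classical
  have hsub : G.ein (I ∪ J) \ G.ein I ⊆
      G.ein J ∪ (J \ I).biUnion fun v => G.ein (insert v I) \ G.ein I := by
    intro e he
    simp only [Gr.ein, mem_sdiff, mem_filter, mem_univ, true_and, mem_union, mem_biUnion,
      mem_insert] at he ⊢
    obtain ⟨⟨h1, h2⟩, h3⟩ := he
    by_cases a : G.src e ∈ I
    · have b : G.dst e ∉ I := fun b => h3 ⟨a, b⟩
      exact Or.inr ⟨G.dst e, ⟨h2.resolve_left b, b⟩, ⟨Or.inr a, Or.inl rfl⟩, h3⟩
    · by_cases b : G.dst e ∈ I
      · exact Or.inr ⟨G.src e, ⟨h1.resolve_left a, a⟩, ⟨Or.inl rfl, Or.inr b⟩, h3⟩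
      · exact Or.inl ⟨h1.resolve_left a, h2.resolve_left b⟩
  have h1 := card_le_card hsub
  have h2 := card_union_le (G.ein J) ((J \ I).biUnion fun v => G.ein (insert v I) \ G.ein I)
  have h3 := hs J hJ
  have h4 : ((J \ I).biUnion fun v => G.ein (insert v I) \ G.ein I).card ≤ (J \ I).card * 3 :=
    card_biUnion_le_card_mul _ _ _ fun v hv => by
      have a := h v (mem_sdiff.1 hv).2
      have b := card_sdiff_add_card_eq_card (graph_ein_mono (G := G) (subset_insert v I))
      omega
  have h5 : (J \ I).card ≤ J.card := card_le_card sdiff_subset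
  omega

end Pool.Agent.Lib.MP_8a52c3_lc.Mono25
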