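import Pool.Agent.Lib.MP_8a52c3_lc.Mono25.Prob
import Pool.Agent.Lib.MP_8a52c3_lc.Mono25.Graph

/-! Basic facts on nodes. -/

namespace Pool.Agent.Lib.MP_8a52c3_lc.Mono25

open Finset

variable {V E S : Type} [Fintype V] [Fintype E] [Fintype S] [DecidableEq V] [DecidableEq E]
  [DecidableEq S] {G : Gr V E} {P : Par}

theorem muX_nonneg (x : V → S) : 0 ≤ muX V S x := by
  unfold muX; positivity

theorem Hyp.Qpos (H : Hyp G S P) : 0 < P.Q := by linarith [H.Q4]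

theorem Hyp.Rpos (H : Hyp G S P) : 0 < P.R := by linarith [H.R4]

theorem Hyp.wpos (H : Hyp G S P) (ν : Node V E S) : 0 < P.w ν := by
  have := H.Qpos
  have := H.Rpos
  unfold Par.w; positivity

theorem Hyp.p0 (H : Hyp G S P) : 0 ≤ P.p := by
  have := H.Rpos
  unfold Par.p; positivity

theorem Hyp.pR (H : Hyp G S P) : P.p ≤ 1 / P.R := by
  have h := H.R4
  unfold Par.p
  exact one_div_le_one_div_of_le H.Rpos (le_self_pow₀ (by linarith) (by norm_num))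

theorem Hyp.p1 (H : Hyp G S P) : P.p ≤ 1 :=
  H.pR.trans ((div_le_one H.Rpos).2 (by linarith [H.R4]))

theorem Hyp.muY (H : Hyp G S P) (Z : Finset (E × S × S)) : 0 ≤ pw P.p Z := pw_nonneg H.p0 H.p1 Z

theorem Hyp.r0R (H : Hyp G S P) : (1 : ℝ) ≤ P.r0 := by exact_mod_cast H.r01

theorem Hyp.aS_pos (H : Hyp G S P) : 0 < P.aS := by
  have := H.r0R
  unfold Par.aS; positivity

theorem Hyp.aS_le (H : Hyp G S P) : P.aS ≤ 1 / 2 := by
  have := H.r0R
  unfold Par.aS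
  exact one_div_le_one_div_of_le (by norm_num) (by nlinarith)

theorem Hyp.aX_pos (H : Hyp G S P) : 0 < P.aX := pow_pos H.aS_pos 5

theorem Hyp.aX_le (H : Hyp G S P) : P.aX ≤ 1 / 2 :=
  (pow_le_of_le_one H.aS_pos.le (by linarith [H.aS_le]) (by norm_num)).trans H.aS_le

theorem Hyp.aY_pos (H : Hyp G S P) : 0 < P.aY := by
  have := H.r0R
  have := H.Qpos
  unfold Par.aY; positivity

theorem Hyp.aY_le (H : Hyp G S P) : P.aY ≤ 1 / 2 := by
  have h1 := H.r0R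
  have h2 : (1 : ℝ) ≤ P.Q ^ 4 := one_le_pow₀ (by linarith [H.Q4])
  have h3 : (1 : ℝ) ≤ (64 * (P.r0 : ℝ) ^ 4) ^ 4 :=
    one_le_pow₀ (by nlinarith [one_le_pow₀ (n := 4) h1])
  unfold Par.aY
  refine one_div_le_one_div_of_le (by norm_num) ?_
  have h4 : (2 : ℝ) ≤ 24 * (P.r0 : ℝ) * (5 * P.Q ^ 4) := by nlinarith
  nlinarith

theorem Hyp.hiX (H : Hyp G S P) : 1 / P.Q ≤ P.aX := by
  have h1 := H.r0R
  have h2 : 0 < 1 / P.Q := one_div_pos.2 H.Qpos
  have h3 := H.hQ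
  nlinarith [one_le_pow₀ (n := 2) h1]

theorem Hyp.hiY (H : Hyp G S P) : 1 / P.R ≤ P.aY := by
  have h1 := H.r0R
  have h2 : 0 < 1 / P.R := one_div_pos.2 H.Rpos
  have h3 := H.hR
  nlinarith [one_le_pow₀ (n := 2) h1]

theorem Hyp.tm_pos (P : Par) : 0 < P.tm := by unfold Par.tm; positivity

theorem mem_u {x : V → S} {c : E × S × S} :
    c ∈ G.u x ↔ c.2.1 = x (G.src c.1) ∧ c.2.2 = x (G.dst c.1) := by simp [Gr.u]

theorem mem_ein {I : Finset V} {e : E} : e ∈ G.ein I ↔ G.src e ∈ I ∧ G.dst e ∈ I := by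
  simp [Gr.ein]

theorem mem_ua {ν : Node V E S} {c : E × S × S} :
    c ∈ G.ua ν ↔ c ∈ G.u ν.x ∧ G.src c.1 ∈ ν.I ∧ G.dst c.1 ∈ ν.I := by
  simp [Gr.ua, mem_ein]

theorem mem_sX {I : Finset V} {x : V → S} {l : V × S} : l ∈ sX I x ↔ l.1 ∉ I ∧ l.2 = x l.1 := by
  simp [sX]

theorem mem_fl {I : Finset V} {c : E × S × S} {l : V × S} :
    l ∈ G.fl I c ↔ (l = (G.src c.1, c.2.1) ∨ l = (G.dst c.1, c.2.2)) ∧ l.1 ∉ I := by
  simp [Gr.fl]

/-- Fixed patterns belong to every assignment that agrees with the node. -/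
theorem ua_subset_u {ν : Node V E S} {x : V → S} (h : ∀ v ∈ ν.I, x v = ν.x v) :
    G.ua ν ⊆ G.u x := by
  intro c hc
  obtain ⟨h1, h2, h3⟩ := mem_ua.1 hc
  rw [mem_u] at h1 ⊢
  rw [h _ h2, h _ h3]
  exact h1

/-- The mass of a cylinder. -/
theorem ms_cyl (H : Hyp G S P) (I : Finset V) (y : V → S) :
    ms (muX V S) {x | ∀ v ∈ I, x v = y v} = 1 / P.Q ^ (2 * I.card) := by
  classical
  have hQ := H.Qpos
  have e1 : ∀ x : V → S, muX V S x * ind (x ∈ {x : V → S | ∀ v ∈ I, x v = y v}) =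
      ∏ v, (if v ∈ I then (if x v = y v then 1 / P.Q ^ 2 else 0) else 1 / P.Q ^ 2) := by
    intro x
    by_cases h : ∀ v ∈ I, x v = y v
    · rw [ind_true (show x ∈ {x : V → S | ∀ v ∈ I, x v = y v} from h), mul_one]
      rw [prod_congr rfl (g := fun _ => 1 / P.Q ^ 2) fun v _ => by
        by_cases hv : v ∈ I
        · rw [if_pos hv, if_pos (h v hv)]
        · rw [if_neg hv]]
      rw [prod_const, card_univ, one_div_pow]
      unfold muX
      rw [H.cardS]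
    · rw [ind_false (show x ∉ {x : V → S | ∀ v ∈ I, x v = y v} from h), mul_zero]
      push Not at h
      obtain ⟨v, h1, h2⟩ := h
      exact (prod_eq_zero (mem_univ v) (by rw [if_pos h1, if_neg h2])).symm
  unfold ms
  simp only [e1]
  rw [← Fintype.piFinset_univ, ← prod_univ_sum (fun _ => (univ : Finset S))
    fun v s => if v ∈ I then (if s = y v then 1 / P.Q ^ 2 else 0) else 1 / P.Q ^ 2]
  have e2 : ∀ v, ∑ s : S, (if v ∈ I then (if s = y v then 1 / P.Q ^ 2 else 0) else 1 / P.Q ^ 2) =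
      if v ∈ I then 1 / P.Q ^ 2 else 1 := by
    intro v
    by_cases hv : v ∈ I
    · simp only [if_pos hv]
      rw [sum_ite_eq' univ (y v), if_pos (mem_univ _)]
    · simp only [if_neg hv]
      rw [sum_const, card_univ, nsmul_eq_mul, H.cardS]
      field_simp
  simp only [e2]
  rw [prod_ite_mem, univ_inter, prod_const, one_div_pow, ← pow_mul]

theorem aliveX (H : Hyp G S P) {PX : Set (V → S)} {ν : Node V E S} {τ a : ℝ}
    (h : RX G P PX ν τ a) : P.Q ^ ν.g * τ < P.R ^ ν.A.card := by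
  have hQ := H.Qpos
  have hR := H.Rpos
  have h1 := Rich.lt_ms h
  have h2 : ms (muX V S) (PX ∩ G.XC ν) ≤ ms (muX V S) {x | ∀ v ∈ ν.I, x v = ν.x v} :=
    ms_mono muX_nonneg fun x hx => hx.2.1
  rw [ms_cyl H] at h2
  have h3 := h1.trans_le h2
  unfold Par.w at h3
  rw [div_mul_eq_mul_div, div_lt_div_iff₀ (by positivity) (by positivity), one_mul,
    mul_comm (P.Q ^ (2 * ν.I.card))] at h3
  exact lt_of_mul_lt_mul_right h3 (by positivity)

theorem aliveY (H : Hyp G S P) {QY : Set (Finset (E × S × S))} {ν : Node V E S} {τ a : ℝ}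
    (h : RY G P QY ν τ a) : P.w ν * τ < P.p ^ ν.A.card := by
  have h1 := Rich.lt_ms h
  have h2 : ms (pw P.p) (QY ∩ G.YC ν) ≤ ms (pw P.p) {Z | ν.A ⊆ Z} :=
    ms_mono H.muY fun x hx => hx.2.1
  rw [ms_supset] at h2
  exact h1.trans_le h2

/-- The bound on the number of revealed patterns. -/
theorem card_A_bound (H : Hyp G S P) {ν : Node V E S} (hv : G.Good P.r ν.g ν.I) {τ : ℝ}
    (hτ : 0 < τ) (h1 : P.Q ^ ν.g * τ < P.R ^ ν.A.card) (h2 : P.w ν * τ < P.p ^ ν.A.card) :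
    P.R ^ ν.A.card * τ < 1 := by
  have hQ := H.Qpos
  have hR := H.Rpos
  have hI := good_card H.sparse hv
  have h3 : P.Q ^ (2 * ν.I.card) ≤ (P.Q ^ ν.g) ^ 4 := by
    rw [← pow_mul]
    exact pow_le_pow_right₀ (by linarith [H.Q4]) (by omega)
  unfold Par.w Par.p at h2
  rw [one_div_pow, ← pow_mul, mul_comm 8, pow_mul P.R, div_mul_eq_mul_div,
    div_lt_div_iff₀ (by positivity) (by positivity), one_mul] at h2
  have ha : 0 < P.R ^ ν.A.card := by positivity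
  have hb : 0 < P.Q ^ ν.g := by positivity
  generalize P.R ^ ν.A.card = a at *
  generalize P.Q ^ ν.g = b at *
  generalize P.Q ^ (2 * ν.I.card) = c at *
  have h4 : b * τ * a ^ 8 < b ^ 4 * a := h2.trans_le (mul_le_mul_of_nonneg_right h3 ha.le)
  have h5 : τ * a ^ 7 < b ^ 3 :=
    lt_of_mul_lt_mul_right (a := b * a) (by nlinarith) (by positivity)
  have h6 : (b * τ) ^ 3 < a ^ 3 := pow_lt_pow_left₀ h1 (by positivity) (by norm_num)
  have h7 : τ * a ^ 7 * τ ^ 3 < b ^ 3 * τ ^ 3 := mul_lt_mul_of_pos_right h5 (by positivity)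
  have h8 : (a * τ) ^ 4 < 1 :=
    lt_of_mul_lt_mul_right (a := a ^ 3) (by nlinarith) (by positivity)
  exact lt_of_pow_lt_pow_left₀ 4 zero_le_one (by rwa [one_pow])

/-- The bound on the number of fixed literals. -/
theorem g_bound (H : Hyp G S P) {g : ℕ} {τ σ : ℝ} (hτ : P.tm ≤ τ) (hσ : P.tm ≤ σ)
    (h : P.Q ^ g * τ * σ < 1) : 2 * g + 1 ≤ P.r := by
  have ht := Hyp.tm_pos P
  have h1 : (4 : ℝ) ^ g ≤ P.Q ^ g := pow_le_pow_left₀ (by norm_num) H.Q4 g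
  have h2 : (4 : ℝ) ^ g * P.tm * P.tm ≤ P.Q ^ g * τ * σ := by
    have hQ := H.Qpos
    have : 0 ≤ τ := ht.le.trans hτ
    gcongr
  have h3 : (4 : ℝ) ^ (2 ^ P.r1) * P.tm * P.tm = 1 := by
    unfold Par.tm
    rw [← mul_pow, ← mul_pow]
    norm_num
  have h4 : (4 : ℝ) ^ g < 4 ^ (2 ^ P.r1) :=
    lt_of_mul_lt_mul_right (lt_of_mul_lt_mul_right (a := P.tm) (by linarith) ht.le) ht.le
  have h5 := (pow_lt_pow_iff_right₀ (by norm_num : (1 : ℝ) < 4)).1 h4
  unfold Par.r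
  omega

theorem A_bound (H : Hyp G S P) {m : ℕ} {τ : ℝ} (hτ : P.tm ≤ τ) (h : P.R ^ m * τ < 1) :
    m < 2 ^ P.r1 := by
  have ht := Hyp.tm_pos P
  have h1 : (2 : ℝ) ^ m ≤ P.R ^ m := pow_le_pow_left₀ (by norm_num) (by linarith [H.R4]) m
  have h2 : (2 : ℝ) ^ m * P.tm ≤ P.R ^ m * τ := by
    have hR := H.Rpos
    gcongr
  have h3 : (2 : ℝ) ^ (2 ^ P.r1) * P.tm = 1 := by
    unfold Par.tm
    rw [← mul_pow]
    norm_num
  have h4 : (2 : ℝ) ^ m < 2 ^ (2 ^ P.r1) := lt_of_mul_lt_mul_right (a := P.tm) (by linarith) ht.le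
  exact (pow_lt_pow_iff_right₀ (by norm_num : (1 : ℝ) < 2)).1 h4

end Pool.Agent.Lib.MP_8a52c3_lc.Mono25
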