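import Pool.Agent.Lib.MP_8a52c3_lc.Mono25.Reduce

/-! The lower bound for a fixed sparse graph. -/

namespace Pool.Agent.Lib.MP_8a52c3_lc.Mono25

open Finset

variable {V E S : Type} [Fintype V] [Fintype E] [Fintype S] [DecidableEq V] [DecidableEq E]
  [DecidableEq S] {G : Gr V E} {P : Par}

theorem core_wire {X C : Type} [Fintype C] [DecidableEq C] {u : X → Finset C} {s : ℕ}
    {g : Fin s → Finset C → Prop} {i : Fin s} {w : Finset C → Prop} (hw : Wire g i w)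
    {DX : Set X} {DY : Set (Finset C)} {K : ℝ}
    (h : ∀ j < i, Solv u ({x | g j (u x)} \ DX) ({Z | ¬ g j Zᶜ} \ DY) K) :
    Solv u ({x | w (u x)} \ DX) ({Z | ¬ w Zᶜ} \ DY) K := by
  rcases hw with ⟨c, hc⟩ | hw | hw | ⟨j, hj, hw⟩
  · refine Solv.alice _ _ _ Unit ∅ (fun _ => ∅) (fun _ => 0) (by simp) (by simp)
      (fun x hx => Or.inr ⟨c, (hc _).1 hx.1, fun Z hZ => ?_⟩) (by simp)
    by_contra hn
    exact hZ.1 ((hc _).2 (mem_compl.2 hn))
  · exact Solv.bob _ _ _ Unit ∅ (fun _ => ∅) (fun _ => 0) (by simp) (by simp)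
      (fun Z hZ => absurd (hw _) hZ.1) (by simp)
  · exact Solv.alice _ _ _ Unit ∅ (fun _ => ∅) (fun _ => 0) (by simp) (by simp)
      (fun x hx => absurd hx.1 (hw _)) (by simp)
  · exact (h j hj).mono _ _ _ (fun x hx => ⟨(hw _).1 hx.1, hx.2⟩)
      (fun Z hZ => ⟨fun e => hZ.1 ((hw _).2 e), hZ.2⟩) le_rfl

theorem core_gate {X C : Type} [Fintype C] [DecidableEq C] {u : X → Finset C} {s : ℕ}
    {g : Fin s → Finset C → Prop} (hc : Circ g) (i : Fin s)
    {DX : Set X} {DY : Set (Finset C)} {K : ℝ} (hK : 1 ≤ K)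
    (h : ∀ j < i, Solv u ({x | g j (u x)} \ DX) ({Z | ¬ g j Zᶜ} \ DY) K) :
    Solv u ({x | g i (u x)} \ DX) ({Z | ¬ g i Zᶜ} \ DY) (4 * K) := by
  obtain ⟨w1, w2, h1, h2, hg | hg⟩ := hc i
  · refine Solv.bob _ _ _ Bool univ (fun b => {Z | ¬ (if b then w1 else w2) Zᶜ} \ DY)
      (fun _ => 1 / 4) (by simp; norm_num) (fun _ _ => ⟨by norm_num, by linarith⟩)
      (fun Z hZ => Or.inl ?_) fun b _ => ?_
    · by_cases e : w1 Zᶜ
      · exact ⟨false, mem_univ _, fun e2 => hZ.1 ((hg _).2 ⟨e, e2⟩), hZ.2⟩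
      · exact ⟨true, mem_univ _, e, hZ.2⟩
    · cases b
      · exact (core_wire h2 h).mono _ _ _ (fun x hx => ⟨((hg _).1 hx.1).2, hx.2⟩) subset_rfl
          (by linarith)
      · exact (core_wire h1 h).mono _ _ _ (fun x hx => ⟨((hg _).1 hx.1).1, hx.2⟩) subset_rfl
          (by linarith)
  · refine Solv.alice _ _ _ Bool univ (fun b => {x | (if b then w1 else w2) (u x)} \ DX)
      (fun _ => 1 / 4) (by simp; norm_num) (fun _ _ => ⟨by norm_num, by linarith⟩)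
      (fun x hx => Or.inl ?_) fun b _ => ?_
    · rcases (hg _).1 hx.1 with e | e
      · exact ⟨true, mem_univ _, e, hx.2⟩
      · exact ⟨false, mem_univ _, e, hx.2⟩
    · cases b
      · exact (core_wire h2 h).mono _ _ _ subset_rfl
          (fun Z hZ => ⟨fun e => hZ.1 ((hg _).2 (Or.inr e)), hZ.2⟩) (by linarith)
      · exact (core_wire h1 h).mono _ _ _ subset_rfl
          (fun Z hZ => ⟨fun e => hZ.1 ((hg _).2 (Or.inl e)), hZ.2⟩) (by linarith)

theorem core_cov (H : Hyp G S P) (B : Finset (V × S)) :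
    ms (muX V S) {x | B ⊆ sX ∅ x} ≤ P.aX ^ B.card := by
  rcases Set.eq_empty_or_nonempty {x : V → S | B ⊆ sX ∅ x} with e | ⟨y, hy⟩
  · rw [e, ms_empty]
    exact pow_nonneg H.aX_pos.le _
  have h1 : (B.image Prod.fst).card = B.card := card_image_of_injOn fun l hl l' hl' e =>
    Prod.ext e (by rw [(mem_sX.1 (hy hl)).2, (mem_sX.1 (hy hl')).2, e])
  refine (ms_mono muX_nonneg (T := {x | ∀ v ∈ B.image Prod.fst, x v = y v})
    fun x hx v hv => ?_).trans ?_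
  · obtain ⟨l, hl, rfl⟩ := mem_image.1 hv
    rw [← (mem_sX.1 (hx hl)).2, (mem_sX.1 (hy hl)).2]
  · have hQ := H.Qpos
    rw [ms_cyl H, h1, pow_mul, ← one_div_pow]
    refine pow_le_pow_left₀ (by positivity) (le_trans ?_ H.hiX) _
    exact one_div_le_one_div_of_le hQ (by nlinarith [H.Q4])

theorem core_root (H : Hyp G S P) {τ : ℝ} (hτ : τ ≤ 1 / 16)
    (hun : ms (pw P.p) {Z : Finset (E × S × S) | ∃ x : V → S, Disjoint (G.u x) Z} ≤ 1 / 8)
    {DX : Set (V → S)} {DY : Set (Finset (E × S × S))}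
    (hD : ms (muX V S) DX + ms (pw P.p) DY ≤ 1 / 4) (y : V → S) :
    State G P (Set.univ \ DX) ({Z | ¬ ∃ x : V → S, Disjoint (G.u x) Z} \ DY) ⟨0, ∅, y, ∅⟩ τ P.aX
      (1 / P.R) := by
  have hw : P.w (⟨0, ∅, y, ∅⟩ : Node V E S) = 1 := by simp [Par.w]
  have a1 := ms_nonneg (muX_nonneg (V := V) (S := S)) DX
  have a2 := ms_nonneg H.muY DY
  refine ⟨good_empty H.sparse (by unfold Par.r; have := Nat.two_pow_pos P.r1; omega),
    fun 𝓑 hB => ?_, fun 𝓑 hB => ?_⟩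
  · have h1 := ms_cyl H ∅ y
    have h2 := (ms_biUnion_le muX_nonneg 𝓑 fun B => {x : V → S | B ⊆ sX ∅ x}).trans
      (sum_le_sum fun B _ => core_cov H B)
    have h3 := (ms_mono muX_nonneg (S := {x : V → S | ∀ v ∈ (∅ : Finset V), x v = y v})
      (T := {x | x ∈ (Set.univ \ DX) ∩ G.XC ⟨0, ∅, y, ∅⟩ ∧ ∀ B ∈ 𝓑, ¬ B ⊆ sX ∅ x} ∪
        (DX ∪ {x | ∃ B ∈ 𝓑, x ∈ {x : V → S | B ⊆ sX ∅ x}})) fun x _ => ?_).trans
      ((ms_union_le muX_nonneg _ _).trans (add_le_add le_rfl (ms_union_le muX_nonneg _ _)))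
    · rw [h1] at h3
      simp only [card_empty, mul_zero, pow_zero, div_one] at h3
      rw [hw]
      unfold wt at hB
      linarith
    · by_contra hn
      simp only [Set.mem_union, not_or] at hn
      exact hn.1 ⟨⟨⟨trivial, hn.2.1⟩, by simp [Gr.XC]⟩, fun B hB e => hn.2.2 ⟨B, hB, e⟩⟩
  · have h1 : ms (pw P.p) (Set.univ : Set (Finset (E × S × S))) = 1 := by rw [ms_univ, sum_pw]
    have h2 := (ms_cover_le H.p0 H.p1 𝓑).trans (wt_mono H.p0 H.pR 𝓑)
    have h3 := (ms_mono H.muY (S := Set.univ)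
      (T := {Z | Z ∈ ({Z | ¬ ∃ x : V → S, Disjoint (G.u x) Z} \ DY) ∩ G.YC ⟨0, ∅, y, ∅⟩ ∧
        ∀ B ∈ 𝓑, ¬ B ⊆ sY ∅ Z} ∪ (DY ∪ ({Z | ∃ x : V → S, Disjoint (G.u x) Z} ∪
          {Z | ∃ B ∈ 𝓑, B ⊆ Z}))) fun Z _ => ?_).trans
      ((ms_union_le H.muY _ _).trans (add_le_add le_rfl ((ms_union_le H.muY _ _).trans
        (add_le_add le_rfl (ms_union_le H.muY _ _)))))
    · rw [hw]
      linarith
    · by_contra hn
      simp only [Set.mem_union, not_or] at hn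
      refine hn.1 ⟨⟨⟨hn.2.2.1, hn.2.1⟩, empty_subset _, disjoint_right.2 fun c hc => ?_⟩,
        fun B hB e => hn.2.2.2 ⟨B, hB, e.trans sdiff_subset⟩⟩
      exact absurd (mem_ua.1 hc).2.1 (notMem_empty _)

theorem core (H : Hyp G S P) (L : ℕ) (hL : 21 * L + 5 ≤ 2 ^ P.r1) (hL4 : 4 ≤ L)
    (hun : ms (pw P.p) {Z : Finset (E × S × S) | ∃ x : V → S, Disjoint (G.u x) Z} ≤ 1 / 8)
    (s : ℕ) (g : Fin s → Finset (E × S × S) → Prop) (hc : Circ g) (o : Fin s)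
    (ho : ∀ Z, g o Z ↔ ∃ x : V → S, G.u x ⊆ Z) : 2 ^ L < 8 * s := by
  by_contra hs
  obtain ⟨τ, hτ⟩ : ∃ τ : ℝ, τ = (1 / 2) ^ L := ⟨_, rfl⟩
  have h0 : 0 < τ := by rw [hτ]; positivity
  have h16 : τ ≤ 1 / 16 := by
    rw [hτ]
    exact (pow_le_pow_of_le_one (by norm_num) (by norm_num) hL4).trans (by norm_num)
  have htm : P.tm ≤ τ := by
    rw [hτ]
    exact pow_le_pow_of_le_one (by norm_num) (by norm_num) (by omega)
  have hK : 1 ≤ 1 / τ ^ 10 := one_le_one_div (by positivity) (pow_le_one₀ h0.le (by linarith))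
  have h4 : 2 * P.tm * (4 * (1 / τ ^ 10)) ^ 2 ≤ τ := by
    have h1 : P.tm ≤ τ ^ 21 / 32 := by
      refine (pow_le_pow_of_le_one (by norm_num) (by norm_num) hL).trans (le_of_eq ?_)
      rw [hτ, pow_add, mul_comm 21, pow_mul]
      ring
    refine (mul_le_mul_of_nonneg_right (mul_le_mul_of_nonneg_left h1 zero_le_two)
      (sq_nonneg _)).trans (le_of_eq ?_)
    field_simp
    norm_num
  have key : ∀ i : ℕ, i ≤ s → ∃ (DX : Set (V → S)) (DY : Set (Finset (E × S × S))),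
      ms (muX V S) DX + ms (pw P.p) DY ≤ 2 * τ * i ∧ ∀ j : Fin s, (j : ℕ) < i →
        Solv G.u ({x | g j (G.u x)} \ DX) ({Z | ¬ g j Zᶜ} \ DY) (1 / τ ^ 10) := by
    intro i
    induction i with
    | zero => exact fun _ => ⟨∅, ∅, by simp [ms_empty], fun j hj => absurd hj (Nat.not_lt_zero _)⟩
    | succ i ih =>
      intro hi
      obtain ⟨DX, DY, hD, hS⟩ := ih (by omega)
      have h1 := core_gate hc ⟨i, hi⟩ hK hS
      obtain ⟨DX', DY', hD', hS'⟩ := reduce H _ _ τ htm (by linarith) fun ν hν =>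
        (no_state H h1 (by linarith) ν τ h4).1
          ⟨hν.1, Rich.mono hν.2.1 (one_div_pos.2 H.Qpos).le H.hiX, hν.2.2⟩
      refine ⟨DX ∪ DX', DY ∪ DY', ?_, fun j hj => ?_⟩
      · have a1 := ms_union_le (muX_nonneg (V := V) (S := S)) DX DX'
        have a2 := ms_union_le H.muY DY DY'
        push_cast
        linarith
      · rcases Nat.lt_succ_iff_lt_or_eq.1 hj with e | e
        · exact (hS j e).mono _ _ _ (Set.sdiff_subset_sdiff_right Set.subset_union_left)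
            (Set.sdiff_subset_sdiff_right Set.subset_union_left) le_rfl
        · obtain rfl : j = ⟨i, hi⟩ := Fin.ext e
          rwa [Set.sdiff_sdiff, Set.sdiff_sdiff] at hS'
  obtain ⟨DX, DY, hD, hS⟩ := key s le_rfl
  have hD' : ms (muX V S) DX + ms (pw P.p) DY ≤ 1 / 4 := by
    have h1 : (8 * s : ℝ) ≤ 2 ^ L := by exact_mod_cast not_lt.1 hs
    have h2 : τ * 2 ^ L = 1 := by
      rw [hτ, ← mul_pow]
      norm_num
    nlinarith [mul_le_mul_of_nonneg_left h1 h0.le]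
  have hne : Nonempty S := by
    have := H.Qpos
    exact Fintype.card_pos_iff.1 (by exact_mod_cast H.cardS ▸ pow_pos this 2)
  have h5 := (hS o o.2).mono (Set.univ \ DX) ({Z | ¬ ∃ x : V → S, Disjoint (G.u x) Z} \ DY)
    (4 * (1 / τ ^ 10)) (fun x hx => ⟨(ho _).2 ⟨x, subset_rfl⟩, hx.2⟩)
    (fun Z hZ => ⟨fun e => hZ.1 (((ho _).1 e).imp fun x hx => subset_compl_iff_disjoint_right.1 hx),
      hZ.2⟩) (by linarith)
  exact (no_state H h5 (by linarith) _ τ h4).1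
    (core_root H h16 hun hD' fun _ => Classical.arbitrary S)

end Pool.Agent.Lib.MP_8a52c3_lc.Mono25
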