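import Mathlib

/-! Definitions for the monotone circuit lower bound. -/

namespace Pool.Agent.Lib.MP_8a52c3_lc.Mono25

open Finset

noncomputable section

/-- Indicator of a proposition. -/
def ind (p : Prop) : ℝ := @ite ℝ p (Classical.propDecidable p) 1 0

/-- Mass of a set under a weight function. -/
def ms {Ω : Type} [Fintype Ω] (μ : Ω → ℝ) (S : Set Ω) : ℝ := ∑ ω, μ ω * ind (ω ∈ S)

/-- The `ρ`-biased product weight on subsets. -/
def pw {U : Type} [Fintype U] [DecidableEq U] (ρ : ℝ) (W : Finset U) : ℝ :=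
  ∏ u, if u ∈ W then ρ else 1 - ρ

/-- Expectation over a `ρ`-random subset. -/
def Ex {U : Type} [Fintype U] [DecidableEq U] (ρ : ℝ) (φ : Finset U → ℝ) : ℝ :=
  ∑ W, pw ρ W * φ W

/-- The `a`-weight of a family of sets. -/
def wt {U : Type} (a : ℝ) (𝓑 : Finset (Finset U)) : ℝ := ∑ B ∈ 𝓑, a ^ B.card

/-- Every member of `ℋ` contains a member of `𝓑`. -/
def Covers {U : Type} (𝓑 : Finset (Finset U)) (ℋ : Set (Finset U)) : Prop :=
  ∀ T ∈ ℋ, ∃ B ∈ 𝓑, B ⊆ T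

/-- No family of `a`-weight at most one half covers all of `S` but mass `t`. -/
def Rich {Ω U : Type} [Fintype Ω] (μ : Ω → ℝ) (st : Ω → Finset U) (S : Set Ω) (t a : ℝ) : Prop :=
  ∀ 𝓑 : Finset (Finset U), wt a 𝓑 ≤ 1 / 2 → t < ms μ {ω | ω ∈ S ∧ ∀ B ∈ 𝓑, ¬ B ⊆ st ω}

/-- A directed multigraph. -/
structure Gr (V E : Type) where
  src : E → V
  dst : E → V

section graph

variable {V E : Type} [Fintype E] [DecidableEq V]

/-- Edges inside `I`. -/
def Gr.ein (G : Gr V E) (I : Finset V) : Finset E :=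
  univ.filter fun e => G.src e ∈ I ∧ G.dst e ∈ I

/-- Small sets span few edges. -/
def Gr.Sparse (G : Gr V E) (r : ℕ) : Prop :=
  ∀ J : Finset V, J.card ≤ r → (G.ein J).card ≤ 2 * J.card

/-- Adding one vertex adds at most three edges. -/
def Gr.Closed (G : Gr V E) (I : Finset V) : Prop :=
  ∀ v, v ∉ I → (G.ein (insert v I)).card ≤ (G.ein I).card + 3

/-- The vertex set of a valid node. -/
def Gr.Good (G : Gr V E) (r g : ℕ) (I : Finset V) : Prop :=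
  4 * I.card ≤ (G.ein I).card + 4 * g ∧ I.card ≤ r ∧ G.Closed I

end graph

/-- Numerical parameters. -/
structure Par where
  Q : ℝ
  R : ℝ
  r0 : ℕ
  r1 : ℕ

def Par.aS (P : Par) : ℝ := 1 / (64 * (P.r0 : ℝ) ^ 2)
def Par.aX (P : Par) : ℝ := P.aS ^ 5
def Par.aY (P : Par) : ℝ := 1 / (24 * (P.r0 : ℝ) * (5 * P.Q ^ 4) * (64 * (P.r0 : ℝ) ^ 4) ^ 4)
def Par.tm (P : Par) : ℝ := (1 / 2) ^ (2 ^ P.r1)
def Par.r (P : Par) : ℕ := 2 * 2 ^ P.r1
def Par.p (P : Par) : ℝ := 1 / P.R ^ 8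

/-- A node of the cover trees. -/
structure Node (V E S : Type) where
  g : ℕ
  I : Finset V
  x : V → S
  A : Finset (E × S × S)

section node

variable {V E S : Type} [Fintype V] [Fintype E] [Fintype S] [DecidableEq V] [DecidableEq E]
  [DecidableEq S]

/-- The standing hypotheses. -/
structure Hyp (G : Gr V E) (S : Type) [Fintype S] (P : Par) : Prop where
  cardS : (Fintype.card S : ℝ) = P.Q ^ 2
  Q4 : 4 ≤ P.Q
  R4 : 4 ≤ P.R
  sparse : G.Sparse P.r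
  lit : Fintype.card (V × S) < 2 ^ P.r0
  con : Fintype.card (E × S × S) < 2 ^ P.r0
  r01 : 1 ≤ P.r0
  r10 : P.r1 ≤ P.r0
  hQ : 128 * (P.r0 : ℝ) ^ 2 * (1 / P.Q) ≤ P.aX
  hR : 128 * (P.r0 : ℝ) ^ 2 * (1 / P.R) ≤ P.aY

/-- The local patterns of an assignment. -/
def Gr.u (G : Gr V E) (x : V → S) : Finset (E × S × S) :=
  univ.filter fun c => c.2.1 = x (G.src c.1) ∧ c.2.2 = x (G.dst c.1)

/-- The local patterns fixed at a node. -/
def Gr.ua (G : Gr V E) (ν : Node V E S) : Finset (E × S × S) :=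
  (G.u ν.x).filter fun c => c.1 ∈ G.ein ν.I

/-- The cell of the first player. -/
def Gr.XC (G : Gr V E) (ν : Node V E S) : Set (V → S) :=
  {x | (∀ v ∈ ν.I, x v = ν.x v) ∧ Disjoint (G.u x) ν.A}

/-- The cell of the second player. -/
def Gr.YC (G : Gr V E) (ν : Node V E S) : Set (Finset (E × S × S)) :=
  {Z | ν.A ⊆ Z ∧ Disjoint Z (G.ua ν)}

/-- Free literals of an assignment. -/
def sX (I : Finset V) (x : V → S) : Finset (V × S) :=
  univ.filter fun l => l.1 ∉ I ∧ l.2 = x l.1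

/-- Free part of a set of patterns. -/
def sY (A Z : Finset (E × S × S)) : Finset (E × S × S) := Z \ A

/-- Free literals of a pattern. -/
def Gr.fl (G : Gr V E) (I : Finset V) (c : E × S × S) : Finset (V × S) :=
  ({(G.src c.1, c.2.1), (G.dst c.1, c.2.2)} : Finset (V × S)).filter fun l => l.1 ∉ I

/-- Uniform weight on assignments. -/
def muX (V S : Type) [Fintype V] [Fintype S] : (V → S) → ℝ :=
  fun _ => 1 / (Fintype.card S : ℝ) ^ Fintype.card V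

/-- The weight of a node. -/
def Par.w (P : Par) (ν : Node V E S) : ℝ :=
  P.Q ^ ν.g / (P.Q ^ (2 * ν.I.card) * P.R ^ ν.A.card)

/-- Richness of the first player at a node. -/
def RX (G : Gr V E) (P : Par) (PX : Set (V → S)) (ν : Node V E S) (τ a : ℝ) : Prop :=
  Rich (muX V S) (sX ν.I) (PX ∩ G.XC ν) (P.w ν * τ) a

/-- Richness of the second player at a node. -/
def RY (G : Gr V E) (P : Par) (QY : Set (Finset (E × S × S))) (ν : Node V E S) (τ a : ℝ) : Prop :=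
  Rich (pw P.p) (sY ν.A) (QY ∩ G.YC ν) (P.w ν * τ) a

/-- A valid node at which both players are rich. -/
def State (G : Gr V E) (P : Par) (PX : Set (V → S)) (QY : Set (Finset (E × S × S)))
    (ν : Node V E S) (τ aX aY : ℝ) : Prop :=
  G.Good P.r ν.g ν.I ∧ RX G P PX ν τ aX ∧ RY G P QY ν τ aY

/-- Extension on the side of the first player. -/
def ExtA (ν c : Node V E S) : Prop :=
  c.A = ν.A ∧ ν.I ⊆ c.I ∧ ∀ v ∈ ν.I, c.x v = ν.x v

/-- Extension on the side of the second player. -/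
def ExtB (ν c : Node V E S) : Prop :=
  c.g = ν.g ∧ c.I = ν.I ∧ c.x = ν.x ∧ ν.A ⊆ c.A

end node

/-- Rectangles solved by a protocol with budget `k`. -/
inductive Solv {X C : Type} (u : X → Finset C) : Set X → Set (Finset C) → ℝ → Prop
  | alice (PX : Set X) (QY : Set (Finset C)) (k : ℝ) (ι : Type) (s : Finset ι) (Ps : ι → Set X)
      (ω : ι → ℝ) (h1 : ∑ i ∈ s, ω i ≤ 1 / 2) (h2 : ∀ i ∈ s, 0 < ω i ∧ 1 ≤ k * ω i)
      (h3 : ∀ x ∈ PX, (∃ i ∈ s, x ∈ Ps i) ∨ ∃ c ∈ u x, ∀ Z ∈ QY, c ∈ Z)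
      (h4 : ∀ i ∈ s, Solv u (Ps i) QY (k * ω i)) : Solv u PX QY k
  | bob (PX : Set X) (QY : Set (Finset C)) (k : ℝ) (ι : Type) (s : Finset ι)
      (Qs : ι → Set (Finset C))
      (ω : ι → ℝ) (h1 : ∑ i ∈ s, ω i ≤ 1 / 2) (h2 : ∀ i ∈ s, 0 < ω i ∧ 1 ≤ k * ω i)
      (h3 : ∀ Z ∈ QY, (∃ i ∈ s, Z ∈ Qs i) ∨ ∃ c ∈ Z, ∀ x ∈ PX, c ∈ u x)
      (h4 : ∀ i ∈ s, Solv u PX (Qs i) (k * ω i)) : Solv u PX QY k

/-- An input of gate `i`: a variable, a constant or an earlier gate. -/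
def Wire {C : Type} {s : ℕ} (g : Fin s → Finset C → Prop) (i : Fin s) (w : Finset C → Prop) :
    Prop :=
  (∃ c, ∀ Z, w Z ↔ c ∈ Z) ∨ (∀ Z, w Z) ∨ (∀ Z, ¬ w Z) ∨ ∃ j < i, ∀ Z, w Z ↔ g j Z

/-- A monotone straight-line program on sets. -/
def Circ {C : Type} {s : ℕ} (g : Fin s → Finset C → Prop) : Prop :=
  ∀ i, ∃ w1 w2, Wire g i w1 ∧ Wire g i w2 ∧
    ((∀ Z, g i Z ↔ w1 Z ∧ w2 Z) ∨ (∀ Z, g i Z ↔ w1 Z ∨ w2 Z))

/-- Parameters of the language at length `N`. -/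
def kk (N : ℕ) : ℕ := Nat.log 2 N
def qq (N : ℕ) : ℕ := kk N ^ 40
def bl (N : ℕ) : ℕ := 4 * (kk N + 1) + qq N * qq N
def dd (N : ℕ) : ℕ := kk N ^ 921
def nn (N : ℕ) : ℕ := N / (bl N * dd N)

end

end Pool.Agent.Lib.MP_8a52c3_lc.Mono25
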