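import Pool.Agent.Lib.MP_8a52c3_lc.Mono25.Prob

/-! Existence of sparse graphs, and the mass of satisfiable instances. -/

namespace Pool.Agent.Lib.MP_8a52c3_lc.Mono25

open Finset

theorem gex_choose (n s : ℕ) (hs : 0 < s) : (n.choose s : ℝ) ≤ (3 * n / s) ^ s := by
  have h1 : (n.choose s : ℝ) ≤ n ^ s / s.factorial := Nat.choose_le_pow_div s n
  have h2 : (s : ℝ) ^ s / s.factorial ≤ 3 ^ s :=
    (Real.pow_div_factorial_le_exp (s : ℝ) (by positivity) s).trans (by
      rw [← Real.exp_one_pow]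
      exact pow_le_pow_left₀ (Real.exp_pos 1).le
        (Real.exp_one_lt_d9.le.trans (by norm_num)) s)
  have h3 : (0 : ℝ) < (s : ℝ) ^ s := by positivity
  refine h1.trans ?_
  rw [div_pow, mul_pow, le_div_iff₀ h3]
  calc (n : ℝ) ^ s / s.factorial * s ^ s = s ^ s / s.factorial * n ^ s := by ring
    _ ≤ _ := mul_le_mul_of_nonneg_right h2 (by positivity)

theorem gex_cyl {E Y : Type} [Fintype E] [DecidableEq E] [Fintype Y] [DecidableEq Y] {c : ℝ}
    (hc : Fintype.card Y * c = 1) (J : Finset Y) (F : Finset E) :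
    ms (fun _ : E → Y => c ^ Fintype.card E) {f | ∀ e ∈ F, f e ∈ J} = (J.card * c) ^ F.card := by
  have e1 : ∀ f : E → Y, c ^ Fintype.card E * ind (f ∈ {f : E → Y | ∀ e ∈ F, f e ∈ J}) =
      ∏ e, if e ∈ F then (if f e ∈ J then c else 0) else c := fun f => by
    by_cases h : ∀ e ∈ F, f e ∈ J
    · rw [ind_true (show f ∈ {f : E → Y | ∀ e ∈ F, f e ∈ J} from h), mul_one, ← card_univ,
        ← prod_const]
      refine prod_congr rfl fun e _ => ?_
      by_cases he : e ∈ F
      · rw [if_pos he, if_pos (h e he)]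
      · rw [if_neg he]
    · rw [ind_false (show f ∉ {f : E → Y | ∀ e ∈ F, f e ∈ J} from h), mul_zero]
      push Not at h
      obtain ⟨e, h1, h2⟩ := h
      exact (prod_eq_zero (mem_univ e) (by rw [if_pos h1, if_neg h2])).symm
  have e2 : ∀ e, (∑ y, if e ∈ F then (if y ∈ J then c else 0) else c) =
      if e ∈ F then J.card * c else 1 := fun e => by
    by_cases he : e ∈ F
    · simp [he]
    · simp [he, hc]
  unfold ms
  simp only [e1]
  rw [← Fintype.piFinset_univ, ← prod_univ_sum (fun _ => univ)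
    fun e y => if e ∈ F then (if y ∈ J then c else 0) else c]
  simp only [e2]
  rw [prod_ite_mem]
  simp

theorem gex_term (n d r s : ℕ) (hn : 1 ≤ n) (h : 16 * d ^ 2 * r ≤ n) (hs : 0 < s) (hr : s ≤ r) :
    (n.choose s : ℝ) * ((d * n).choose (2 * s)) * ((s * s : ℕ) * (1 / (n : ℝ) ^ 2)) ^ (2 * s) ≤
      (1 / 2) ^ s := by
  have hn' : (0 : ℝ) < n := by exact_mod_cast hn
  have hs' : (0 : ℝ) < s := by exact_mod_cast hs
  have h1 : (16 : ℝ) * d ^ 2 * s ≤ n := by
    exact_mod_cast (Nat.mul_le_mul_left _ hr).trans h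
  refine (mul_le_mul_of_nonneg_right (mul_le_mul (gex_choose n s hs)
    (gex_choose (d * n) (2 * s) (by omega)) (by positivity) (by positivity)) (by positivity)).trans ?_
  rw [pow_mul, pow_mul, ← mul_pow, ← mul_pow]
  refine pow_le_pow_left₀ (by positivity) ?_ s
  push_cast
  have e : 3 * (n : ℝ) / s * (3 * (d * n) / (2 * s)) ^ 2 * (s * s * (1 / n ^ 2)) ^ 2 =
      27 / 4 * (d ^ 2 * s) / n := by field_simp; ring
  rw [e, div_le_iff₀ hn']
  nlinarith

theorem exists_sparse (n d r : ℕ) (hn : 1 ≤ n) (h : 16 * d ^ 2 * r ≤ n) :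
    ∃ G : Gr (Fin n) (Fin (d * n)), G.Sparse r := by
  by_contra hc
  have hn' : (0 : ℝ) < n := by exact_mod_cast hn
  have h1 : (Fintype.card (Fin n × Fin n) : ℝ) * (1 / (n : ℝ) ^ 2) = 1 := by
    simp only [Fintype.card_prod, Fintype.card_fin]
    push_cast
    field_simp
  have h2 := ms_biUnion_le (μ := fun _ : Fin (d * n) → Fin n × Fin n =>
      (1 / (n : ℝ) ^ 2) ^ Fintype.card (Fin (d * n))) (fun _ => by positivity)
    ((range r).sigma fun s => powersetCard (s + 1) (univ : Finset (Fin n)) ×ˢ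
      powersetCard (2 * (s + 1)) (univ : Finset (Fin (d * n))))
    fun i => {f | ∀ e ∈ i.2.2, f e ∈ i.2.1 ×ˢ i.2.1}
  have h3 := gex_cyl (E := Fin (d * n)) h1 ∅ ∅
  rw [card_empty (α := Fin (d * n)), pow_zero] at h3
  refine absurd (h3.ge.trans ((ms_mono (fun _ => by positivity) fun f _ => ?_).trans h2))
    (not_le.2 ?_)
  · have h4 : ¬(Gr.mk (fun e => (f e).1) fun e => (f e).2).Sparse r := fun h => hc ⟨_, h⟩
    simp only [Gr.Sparse, not_forall, not_le] at h4
    obtain ⟨J, hJ, h5⟩ := h4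
    obtain ⟨F, hF, h6⟩ := exists_subset_card_eq h5.le
    have h7 : J.card ≠ 0 := fun h0 => by
      rw [card_eq_zero.1 h0] at h5
      simp [Gr.ein] at h5
    refine ⟨⟨J.card - 1, J, F⟩, ?_, fun e he => ?_⟩
    · simp only [mem_sigma, mem_range, mem_product, mem_powersetCard, subset_univ, true_and]
      omega
    · simpa [Gr.ein] using hF he
  · rw [sum_sigma]
    refine lt_of_le_of_lt (sum_le_sum (g := fun s => (1 / 2 : ℝ) ^ (s + 1)) fun s hs => ?_) ?_
    · refine le_of_eq_of_le ?_ (gex_term n d r (s + 1) hn h s.succ_pos (mem_range.1 hs))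
      rw [sum_congr rfl (g := fun _ => (((s + 1) * (s + 1) : ℕ) * (1 / (n : ℝ) ^ 2)) ^ (2 * (s + 1)))
        fun i hi => by
          simp only [mem_product, mem_powersetCard] at hi
          rw [gex_cyl h1, card_product, hi.1.2, hi.2.2]]
      simp
    · have : ∀ r, ∑ s ∈ range r, (1 / 2 : ℝ) ^ (s + 1) = 1 - (1 / 2) ^ r := fun r => by
        induction r with
        | zero => simp
        | succ r ih => rw [sum_range_succ, ih]; ring
      rw [this]
      exact sub_lt_self _ (by positivity)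

theorem unsat {V E S : Type} [Fintype V] [Fintype E] [Fintype S] [DecidableEq V] [DecidableEq E]
    [DecidableEq S] (G : Gr V E) (p : ℝ) (h0 : 0 ≤ p) (h1 : p ≤ 1) (d : ℕ)
    (hE : Fintype.card E = d * Fintype.card V) (hV : 1 ≤ Fintype.card V)
    (hd : 8 * (Fintype.card S : ℝ) ≤ p * d) :
    ms (pw p) {Z : Finset (E × S × S) | ∃ x : V → S, Disjoint (G.u x) Z} ≤ 1 / 8 := by
  have h2 := ms_biUnion_le (pw_nonneg h0 h1) (univ : Finset (V → S))
    fun x => {Z : Finset (E × S × S) | Disjoint (G.u x) Z}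
  have h3 : ∀ x : V → S, (G.u x).card = Fintype.card E := fun x => by
    rw [← card_univ]
    refine (card_bij (fun e _ => (e, x (G.src e), x (G.dst e))) (fun e _ => by simp [Gr.u])
      (fun a _ b _ h => congrArg Prod.fst h) fun c hc => ⟨c.1, mem_univ _, ?_⟩).symm
    obtain ⟨e, a, b⟩ := c
    simp only [Gr.u, mem_filter, mem_univ, true_and] at hc
    rw [← hc.1, ← hc.2]
  simp only [ms_disjoint, h3, sum_const, card_univ, Fintype.card_fun, nsmul_eq_mul, mem_univ,
    true_and, Set.mem_ofPred_eq] at h2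
  refine h2.trans ?_
  have h4 : (1 - p) ^ d * (1 + d * p) ≤ 1 := by
    refine (mul_le_mul_of_nonneg_left (one_add_mul_le_pow (by linarith) d)
      (pow_nonneg (by linarith) d)).trans ?_
    rw [← mul_pow]
    exact pow_le_one₀ (by nlinarith) (by nlinarith)
  have h5 : 0 ≤ (1 - p) ^ d := pow_nonneg (by linarith) d
  have h6 : (Fintype.card S : ℝ) * (1 - p) ^ d ≤ 1 / 8 := by nlinarith
  rw [hE, pow_mul, Nat.cast_pow, ← mul_pow]
  refine (pow_le_pow_left₀ (by positivity) h6 _).trans ?_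
  exact (pow_le_pow_of_le_one (by norm_num) (by norm_num) hV).trans (pow_one _).le

end Pool.Agent.Lib.MP_8a52c3_lc.Mono25
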