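import Pool.Agent.Lib.MP_8a52c3_lc.Mono25.PP

/-! The kill lemma. -/

namespace Pool.Agent.Lib.MP_8a52c3_lc.Mono25

open Finset

section

variable {U K : Type} [Fintype U] [DecidableEq U] [Fintype K] [DecidableEq K]

/-- Constraints all of whose free literals lie in `B`. -/
def kIn (fl : K → Finset U) (B : Finset U) : Finset K :=
  univ.filter fun c => (fl c).Nonempty ∧ fl c ⊆ B

/-- Members that touch all of `B` and have skeleton `C`. -/
def kFam (fl : K → Finset U) (ℋ : Set (Finset K)) (B : Finset U) (C : Finset K) :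
    Set (Finset K) :=
  {T | T ∈ ℋ ∧ B ⊆ T.biUnion fl ∧ T ∩ kIn fl B = C}

/-- The literals outside `B` touched by such members. -/
def kRep (fl : K → Finset U) (ℋ : Set (Finset K)) (B : Finset U) (C : Finset K) :
    Set (Finset U) :=
  {S | ∃ T ∈ kFam fl ℋ B C, S = T.biUnion fl \ B}

/-- Small skeletons of final nodes. -/
def kSk (fl : K → Finset U) (ℋ : Set (Finset K)) (a : ℝ) (h : ℕ) : Set (Finset K) :=
  {C | C.card < h ∧ ∃ B, (kFam fl ℋ B C).Nonempty ∧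
    ∀ 𝓑, Covers 𝓑 (kRep fl ℋ B C) → 1 / 2 ≤ wt a 𝓑}

theorem kIn_mono (fl : K → Finset U) {B B' : Finset U} (h : B ⊆ B') : kIn fl B ⊆ kIn fl B' := by
  intro c hc
  simp only [kIn, mem_filter, mem_univ, true_and] at hc ⊢
  exact ⟨hc.1, hc.2.trans h⟩

theorem kIn_empty (fl : K → Finset U) : kIn fl ∅ = ∅ := by
  ext c
  simp only [kIn, mem_filter, mem_univ, true_and, subset_empty, notMem_empty, iff_false, not_and]
  exact fun h => h.ne_empty

theorem kill_pow_sum (s : Finset K) (β : ℝ) :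
    ∑ Δ ∈ s.powerset, β ^ Δ.card = (1 + β) ^ s.card := by
  have := Finset.sum_pow_mul_eq_add_pow β 1 s
  simp only [one_pow, mul_one] at this
  rw [this, add_comm]

theorem kill_tree (fl : K → Finset U) (hfl : ∀ c, (fl c).card ≤ 2) (M h : ℕ)
    (hIn : ∀ B : Finset U, B.card ≤ 4 * h → (kIn fl B).card ≤ M * B.card)
    (a β a1 : ℝ) (ha : 0 < a) (ha' : a ≤ 1) (hβ : 0 < β) (ha1 : 0 ≤ a1) (hle : a1 ≤ β)
    (ℋ : Set (Finset K)) (hcard : ∀ T ∈ ℋ, T.card < 2 * h) (n : ℕ) :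
    ∀ (B : Finset U) (C : Finset K), Fintype.card U - B.card = n →
      ∃ 𝓒 : Finset (Finset K),
        wt a1 𝓒 ≤ (a1 / β) ^ h * (1 / a) ^ (4 * h) * (1 + β) ^ (M * (4 * h)) * a ^ B.card
          * β ^ C.card / (1 + β) ^ (kIn fl B).card ∧
        ∀ T ∈ kFam fl ℋ B C, (∃ C' ∈ 𝓒, C' ⊆ T) ∨ ∃ C' ∈ kSk fl ℋ a h, C' ⊆ T := by
  induction n using Nat.strong_induction_on with
  | _ n ih =>
  intro B C hn
  set Φ : ℝ := (a1 / β) ^ h * (1 / a) ^ (4 * h) * (1 + β) ^ (M * (4 * h)) with hΦ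
  have hΦ0 : 0 ≤ Φ := by positivity
  have hφ0 : 0 ≤ Φ * a ^ B.card * β ^ C.card / (1 + β) ^ (kIn fl B).card := by positivity
  by_cases hne : (kFam fl ℋ B C).Nonempty
  swap
  · refine ⟨∅, by rw [wt_empty]; exact hφ0, fun T hT => absurd ⟨T, hT⟩ hne⟩
  obtain ⟨T0, hT0, hB0, hC0⟩ := id hne
  have hsub : ∀ T ∈ kFam fl ℋ B C, C ⊆ T := fun T hT => by
    rw [← hT.2.2]; exact inter_subset_left
  by_cases hbig : h ≤ C.card
  · refine ⟨{C}, ?_, fun T hT => Or.inl ⟨C, mem_singleton_self _, hsub T hT⟩⟩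
    have hB : B.card ≤ 4 * h := by
      have h1 := card_le_card hB0
      have h2 : (T0.biUnion fl).card ≤ T0.card * 2 := card_biUnion_le_card_mul _ _ _ fun c _ => hfl c
      have h3 := hcard T0 hT0
      omega
    have hI : (kIn fl B).card ≤ M * (4 * h) := (hIn B hB).trans (Nat.mul_le_mul_left _ hB)
    have e1 : wt a1 ({C} : Finset (Finset K)) = (a1 / β) ^ C.card * β ^ C.card := by
      rw [wt, sum_singleton, ← mul_pow, div_mul_cancel₀ _ hβ.ne']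
    have i1 : (a1 / β) ^ C.card ≤ (a1 / β) ^ h :=
      pow_le_pow_of_le_one (by positivity) ((div_le_one hβ).2 hle) hbig
    have i2 : 1 ≤ (1 / a) ^ (4 * h) * a ^ B.card := by
      have : (1 / a) ^ B.card ≤ (1 / a) ^ (4 * h) :=
        pow_le_pow_right₀ ((one_le_div ha).2 ha') hB
      have e : (1 / a) ^ B.card * a ^ B.card = 1 := by
        rw [← mul_pow, one_div_mul_cancel ha.ne', one_pow]
      calc (1 : ℝ) = (1 / a) ^ B.card * a ^ B.card := e.symm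
        _ ≤ _ := mul_le_mul_of_nonneg_right this (by positivity)
    have i3 : (1 + β) ^ (kIn fl B).card ≤ (1 + β) ^ (M * (4 * h)) :=
      pow_le_pow_right₀ (by linarith) hI
    rw [e1, le_div_iff₀ (by positivity), hΦ]
    calc (a1 / β) ^ C.card * β ^ C.card * (1 + β) ^ (kIn fl B).card
        = (a1 / β) ^ C.card * 1 * (1 + β) ^ (kIn fl B).card * β ^ C.card := by ring
      _ ≤ (a1 / β) ^ h * ((1 / a) ^ (4 * h) * a ^ B.card) * (1 + β) ^ (M * (4 * h))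
          * β ^ C.card := by gcongr
      _ = _ := by ring
  by_cases hfin : ∀ 𝓑, Covers 𝓑 (kRep fl ℋ B C) → 1 / 2 ≤ wt a 𝓑
  · refine ⟨∅, by rw [wt_empty]; exact hφ0, fun T hT => Or.inr ⟨C, ⟨by omega, B, hne, hfin⟩,
      hsub T hT⟩⟩
  push Not at hfin
  obtain ⟨𝓑, hcov, hw⟩ := hfin
  have hch : ∀ (B' : Finset U) (Δ : Finset K), ∃ 𝓒 : Finset (Finset K),
      B' ∈ 𝓑.filter (fun B' => Disjoint B B') →
        wt a1 𝓒 ≤ Φ * a ^ (B ∪ B').card * β ^ (C ∪ Δ).card / (1 + β) ^ (kIn fl (B ∪ B')).card ∧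
        ∀ T ∈ kFam fl ℋ (B ∪ B') (C ∪ Δ),
          (∃ C' ∈ 𝓒, C' ⊆ T) ∨ ∃ C' ∈ kSk fl ℋ a h, C' ⊆ T := by
    intro B' Δ
    by_cases hm : B' ∈ 𝓑.filter (fun B' => Disjoint B B')
    swap
    · exact ⟨∅, fun h => absurd h hm⟩
    obtain ⟨m1, m2⟩ := mem_filter.1 hm
    have h1 := (nonempty_of_wt ha.le hw.le m1).card_pos
    have h2 := card_union_of_disjoint m2
    have h3 := card_le_univ (B ∪ B')
    obtain ⟨𝓒, h4⟩ := ih (Fintype.card U - (B ∪ B').card) (by omega) (B ∪ B') (C ∪ Δ) rfl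
    exact ⟨𝓒, fun _ => h4⟩
  choose F hF using hch
  refine ⟨(𝓑.filter fun B' => Disjoint B B').biUnion fun B' =>
    (kIn fl (B ∪ B') \ kIn fl B).powerset.biUnion fun Δ => F B' Δ, ?_, ?_⟩
  · have hnn : ∀ X : Finset K, 0 ≤ a1 ^ X.card := fun X => pow_nonneg ha1 _
    refine (sum_biUnion_le' _ _ _ hnn).trans ?_
    have step : ∀ B' ∈ 𝓑.filter (fun B' => Disjoint B B'),
        ∑ X ∈ (kIn fl (B ∪ B') \ kIn fl B).powerset.biUnion (fun Δ => F B' Δ), a1 ^ X.card ≤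
          a ^ B'.card * (Φ * a ^ B.card * β ^ C.card / (1 + β) ^ (kIn fl B).card) := by
      intro B' hm
      refine (sum_biUnion_le' _ _ _ hnn).trans ?_
      have hs : kIn fl B ⊆ kIn fl (B ∪ B') := kIn_mono fl subset_union_left
      have e1 : (kIn fl (B ∪ B')).card =
          (kIn fl (B ∪ B') \ kIn fl B).card + (kIn fl B).card := (card_sdiff_add_card_eq_card hs).symm
      have e2 : ∀ Δ ∈ (kIn fl (B ∪ B') \ kIn fl B).powerset, ∑ X ∈ F B' Δ, a1 ^ X.card ≤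
          Φ * a ^ (B ∪ B').card * β ^ C.card / (1 + β) ^ (kIn fl (B ∪ B')).card * β ^ Δ.card := by
        intro Δ hΔ
        have hd : Disjoint C Δ := by
          rw [disjoint_left]
          intro c h1 h2
          rw [← hC0] at h1
          exact (mem_sdiff.1 (mem_powerset.1 hΔ h2)).2 (mem_inter.1 h1).2
        refine (hF B' Δ hm).1.trans (le_of_eq ?_)
        rw [card_union_of_disjoint hd, pow_add]
        ring
      refine (sum_le_sum e2).trans (le_of_eq ?_)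
      rw [← mul_sum, kill_pow_sum, card_union_of_disjoint (mem_filter.1 hm).2, e1, pow_add, pow_add]
      have : (0 : ℝ) < 1 + β := by linarith
      field_simp
    refine (sum_le_sum step).trans ?_
    rw [← sum_mul]
    have : ∑ B' ∈ 𝓑.filter (fun B' => Disjoint B B'), a ^ B'.card ≤ 1 :=
      (wt_subset ha.le (filter_subset _ _)).trans (by linarith)
    exact mul_le_of_le_one_left hφ0 this
  · intro T hT
    obtain ⟨B', m1, m2⟩ := hcov _ ⟨T, hT, rfl⟩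
    have hd : Disjoint B B' := by
      rw [disjoint_left]
      exact fun l h1 h2 => (mem_sdiff.1 (m2 h2)).2 h1
    have hm : B' ∈ 𝓑.filter (fun B' => Disjoint B B') := mem_filter.2 ⟨m1, hd⟩
    have hs : kIn fl B ⊆ kIn fl (B ∪ B') := kIn_mono fl subset_union_left
    have hΔ : (T ∩ kIn fl (B ∪ B')) \ kIn fl B ∈ (kIn fl (B ∪ B') \ kIn fl B).powerset :=
      mem_powerset.2 (sdiff_subset_sdiff inter_subset_right Subset.rfl)
    have hT' : T ∈ kFam fl ℋ (B ∪ B') (C ∪ ((T ∩ kIn fl (B ∪ B')) \ kIn fl B)) := by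
      refine ⟨hT.1, union_subset hT.2.1 (m2.trans sdiff_subset), ?_⟩
      rw [← hT.2.2]
      ext c
      simp only [mem_inter, mem_union, mem_sdiff]
      constructor
      · rintro ⟨h1, h2⟩
        by_cases h3 : c ∈ kIn fl B
        · exact Or.inl ⟨h1, h3⟩
        · exact Or.inr ⟨⟨h1, h2⟩, h3⟩
      · rintro (⟨h1, h2⟩ | ⟨h1, _⟩)
        · exact ⟨h1, hs h2⟩
        · exact h1
    rcases (hF B' _ hm).2 T hT' with ⟨C', c1, c2⟩ | h
    · exact Or.inl ⟨C', mem_biUnion.2 ⟨B', hm, mem_biUnion.2 ⟨_, hΔ, c1⟩⟩, c2⟩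
    · exact Or.inr h

theorem kill_aux (fl : K → Finset U) (hfl : ∀ c, (fl c).card ≤ 2) (M r0 r1 : ℕ) (hr0 : 1 ≤ r0)
    (hU : Fintype.card U < 2 ^ r0)
    (hIn : ∀ B : Finset U, B.card ≤ 2 * 2 ^ r1 → (kIn fl B).card ≤ M * B.card)
    (a β a1 x ν : ℝ) (ha : 0 < a) (ha' : a ≤ 1) (hβ : 0 < β) (ha1 : 0 ≤ a1) (hle : a1 ≤ β)
    (hx : a1 / β * (1 / a) ^ 4 * (1 + β) ^ (M * 4) ≤ x) (hx1 : x ≤ 1) (hν : 0 < ν)
    (hν1 : r1 * ν ≤ 1) (r : ℕ) : r ≤ r1 → ∀ ℋ : Set (Finset K),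
      (∀ T ∈ ℋ, ∀ c ∈ T, (fl c).Nonempty) → (∀ T ∈ ℋ, T.card < 2 ^ r) →
      (∀ 𝓑, Covers 𝓑 ℋ → r * x < wt a1 𝓑) →
      ms (pw (r * ν)) {D | ∀ T ∈ ℋ, ¬ ∀ c ∈ T, ∃ l ∈ fl c, l ∈ D} ≤
        r * (8 * (r0 : ℝ) ^ 2 * a / ν) := by
  induction r with
  | zero =>
    intro _ ℋ _ hcard hcov
    have hne : ℋ.Nonempty := by
      by_contra hn
      have := hcov ∅ fun T hT => absurd ⟨T, hT⟩ hn
      simp [wt_empty] at this
    obtain ⟨T, hT⟩ := hne
    have hT0 : T = ∅ := card_eq_zero.1 (by have := hcard T hT; omega)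
    have : {D : Finset U | ∀ T ∈ ℋ, ¬ ∀ c ∈ T, ∃ l ∈ fl c, l ∈ D} = ∅ := by
      ext D
      simp only [Set.mem_ofPred_eq, Set.mem_empty_iff_false, iff_false]
      exact fun h => h T hT (by simp [hT0])
    rw [this, ms_empty]
    simp
  | succ r ih =>
    intro hr ℋ hne hcard hcov
    have hrr : ((r : ℝ) + 1) * ν ≤ 1 := by
      have : ((r + 1 : ℕ) : ℝ) ≤ r1 := by exact_mod_cast hr
      push_cast at this
      nlinarith
    have hr0' : (0 : ℝ) ≤ r * ν := by positivity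
    have hp : 2 ^ (r + 1) ≤ 2 ^ r1 := Nat.pow_le_pow_right (by norm_num) hr
    obtain ⟨𝓒, hw, hc⟩ := kill_tree fl hfl M (2 ^ r)
      (fun B hB => hIn B (by rw [pow_succ] at hp; omega)) a β a1 ha ha' hβ ha1 hle ℋ
      (fun T hT => by have := hcard T hT; rw [pow_succ] at this; omega) _ ∅ ∅ rfl
    have hwx : wt a1 𝓒 ≤ x := by
      refine hw.trans ?_
      rw [kIn_empty]
      simp only [card_empty, pow_zero, mul_one, div_one]
      have e : (a1 / β) ^ 2 ^ r * (1 / a) ^ (4 * 2 ^ r) * (1 + β) ^ (M * (4 * 2 ^ r)) =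
          (a1 / β * (1 / a) ^ 4 * (1 + β) ^ (M * 4)) ^ 2 ^ r := by
        rw [mul_pow, mul_pow, ← pow_mul, ← pow_mul, mul_assoc M]
      rw [e]
      exact (pow_le_of_le_one (by positivity) (hx.trans hx1) (by positivity)).trans hx
    have ih' := ih (by omega) (kSk fl ℋ a (2 ^ r)) (by
      rintro C ⟨-, B, ⟨T, hT⟩, -⟩ c hc'
      rw [← hT.2.2] at hc'
      exact hne T hT.1 c (mem_inter.1 hc').1) (fun C hC => hC.1) (by
      intro 𝓑 hB
      have := hcov (𝓑 ∪ 𝓒) (by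
        intro T hT
        rcases hc T ⟨hT, empty_subset _, by rw [kIn_empty, inter_empty]⟩ with
          ⟨C, c1, c2⟩ | ⟨C, c1, c2⟩
        · exact ⟨C, mem_union_right _ c1, c2⟩
        · obtain ⟨B, b1, b2⟩ := hB C c1
          exact ⟨B, mem_union_left _ b1, b2.trans c2⟩)
      have h2 := wt_union_le ha1 𝓑 𝓒
      push_cast at this
      linarith)
    have hanti : Antitone fun D : Finset U =>
        ind (D ∈ {D : Finset U | ∀ T ∈ ℋ, ¬ ∀ c ∈ T, ∃ l ∈ fl c, l ∈ D}) := by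
      intro D D' hD
      refine ind_mono fun h T hT hk => h T hT fun c hc' => ?_
      obtain ⟨l, l1, l2⟩ := hk c hc'
      exact ⟨l, l1, hD l2⟩
    have hε : 0 ≤ 8 * (r0 : ℝ) ^ 2 * a / ν := by positivity
    have hν2 : ν ≤ 1 := by nlinarith
    rw [ms_pw] at ih' ⊢
    push_cast
    rw [add_mul, one_mul, add_mul, one_mul]
    refine (Ex_add_le hr0' hν.le (by linarith) hanti).trans ?_
    refine (Ex_mono hr0' (by linarith) (ψ := fun D => ind (D ∈ {D : Finset U |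
      ∀ T ∈ kSk fl ℋ a (2 ^ r), ¬ ∀ c ∈ T, ∃ l ∈ fl c, l ∈ D}) + 8 * (r0 : ℝ) ^ 2 * a / ν)
      fun D => ?_).trans (by rw [Ex_add, Ex_const]; linarith)
    by_cases hD : D ∈ {D : Finset U |
      ∀ T ∈ kSk fl ℋ a (2 ^ r), ¬ ∀ c ∈ T, ∃ l ∈ fl c, l ∈ D}
    · rw [ind_true hD]
      refine (Ex_mono hν.le hν2 (ψ := fun _ => 1) fun _ => ind_le_one _).trans ?_
      rw [Ex_const]
      linarith
    · rw [ind_false hD, zero_add]
      obtain ⟨C, ⟨-, B, -, hfin⟩, hk⟩ : ∃ C ∈ kSk fl ℋ a (2 ^ r), ∀ c ∈ C, ∃ l ∈ fl c, l ∈ D := by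
        by_contra hcon
        exact hD fun C hC hk => hcon ⟨C, hC, hk⟩
      have hpp := pp r0 hr0 a ν ha.le hν hν2 (kRep fl ℋ B C)
        (fun S _ => (card_le_univ S).trans_lt hU) hfin
      refine le_trans ?_ hpp
      rw [ms_pw]
      refine Ex_mono hν.le hν2 fun D' => ind_mono ?_
      rintro h S ⟨T, hT, rfl⟩ hS
      refine h T hT.1 fun c hc' => ?_
      by_cases hc2 : c ∈ kIn fl B
      · obtain ⟨l, l1, l2⟩ := hk c (by rw [← hT.2.2]; exact mem_inter.2 ⟨hc', hc2⟩)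
        exact ⟨l, l1, mem_union_left _ l2⟩
      · have : ¬ fl c ⊆ B := fun hs => hc2 (by
          simp only [kIn, mem_filter, mem_univ, true_and]
          exact ⟨hne T hT.1 c hc', hs⟩)
        obtain ⟨l, l1, l2⟩ := not_subset.1 this
        exact ⟨l, l1, mem_union_right _ (hS (mem_sdiff.2 ⟨mem_biUnion.2 ⟨c, hc', l1⟩, l2⟩))⟩

end

theorem kill {U K : Type} [Fintype U] [DecidableEq U] [Fintype K] [DecidableEq K]
    (fl : K → Finset U) (hfl : ∀ c, (fl c).card ≤ 2) (M r0 r1 : ℕ) (hM : 1 ≤ M) (hr0 : 1 ≤ r0)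
    (hr : r1 ≤ r0) (hU : Fintype.card U < 2 ^ r0)
    (hIn : ∀ B : Finset U, B.card ≤ 2 * 2 ^ r1 →
      (univ.filter fun c => (fl c).Nonempty ∧ fl c ⊆ B).card ≤ M * B.card)
    (a1 : ℝ) (ha1 : 0 ≤ a1) (hsmall : 24 * (r0 : ℝ) * M * (64 * (r0 : ℝ) ^ 4) ^ 4 * a1 ≤ 1)
    (ℋ : Set (Finset K)) (hne : ∀ T ∈ ℋ, ∀ c ∈ T, (fl c).Nonempty)
    (hcard : ∀ T ∈ ℋ, T.card < 2 ^ r1) (hcov : ∀ 𝓑, Covers 𝓑 ℋ → 1 / 2 < wt a1 𝓑) :
    ms (pw (1 / 2)) {D | ∀ T ∈ ℋ, ¬ ∀ c ∈ T, ∃ l ∈ fl c, l ∉ D} ≤ 1 / 4 := by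
  have h0 : (1 : ℝ) ≤ r0 := by exact_mod_cast hr0
  have hM' : (1 : ℝ) ≤ M := by exact_mod_cast hM
  have hr' : (r1 : ℝ) ≤ r0 := by exact_mod_cast hr
  have hr1 : (0 : ℝ) ≤ r1 := by positivity
  obtain ⟨κ, hκ⟩ : ∃ κ : ℝ, κ = 64 * (r0 : ℝ) ^ 4 := ⟨_, rfl⟩
  have hκ1 : 1 ≤ κ := by rw [hκ]; nlinarith [one_le_pow₀ (n := 4) h0]
  have hκ4 : 1 ≤ κ ^ 4 := one_le_pow₀ hκ1
  rw [← hκ] at hsmall
  obtain ⟨y, hy⟩ : ∃ y : ℝ, y = M * κ ^ 4 * a1 := ⟨_, rfl⟩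
  have hy0 : 0 ≤ y := by rw [hy]; positivity
  have hy1 : 24 * r0 * y ≤ 1 := by rw [hy]; linarith
  have hy2 : 24 * y ≤ 1 := by nlinarith
  have hexp : (1 + 1 / (4 * (M : ℝ))) ^ (M * 4) ≤ 3 := by
    have h1 : 1 + 1 / (4 * (M : ℝ)) ≤ Real.exp (1 / (4 * (M : ℝ))) := by
      linarith [Real.add_one_le_exp (1 / (4 * (M : ℝ)))]
    calc (1 + 1 / (4 * (M : ℝ))) ^ (M * 4) ≤ Real.exp (1 / (4 * (M : ℝ))) ^ (M * 4) :=
          pow_le_pow_left₀ (by positivity) h1 _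
      _ = Real.exp 1 := by
          rw [← Real.exp_nat_mul]
          congr 1
          push_cast
          field_simp
      _ ≤ 3 := by linarith [Real.exp_one_lt_d9]
  have key := kill_aux fl hfl M r0 r1 hr0 hU hIn (1 / κ) (1 / (4 * M)) a1 (12 * y) (1 / (2 * r0))
    (by positivity) ((div_le_one (by linarith)).2 hκ1) (by positivity) ha1 (by
      rw [le_div_iff₀ (by positivity)]
      have : M * a1 * 1 ≤ M * a1 * κ ^ 4 := mul_le_mul_of_nonneg_left hκ4 (by positivity)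
      nlinarith) (by
      have e : a1 / (1 / (4 * (M : ℝ))) * (1 / (1 / κ)) ^ 4 = 4 * y := by
        rw [hy]; field_simp
      rw [e]
      nlinarith) (by linarith) (by positivity) (by
      rw [mul_one_div, div_le_one (by positivity)]; linarith) r1 le_rfl ℋ hne hcard (by
      intro 𝓑 hB
      refine lt_of_le_of_lt ?_ (hcov 𝓑 hB)
      nlinarith)
  have hanti : Antitone fun D : Finset U =>
      ind (D ∈ {D : Finset U | ∀ T ∈ ℋ, ¬ ∀ c ∈ T, ∃ l ∈ fl c, l ∈ D}) := by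
    intro D D' hD
    refine ind_mono fun h T hT hk => h T hT fun c hc' => ?_
    obtain ⟨l, l1, l2⟩ := hk c hc'
    exact ⟨l, l1, hD l2⟩
  have e1 : ms (pw (1 / 2)) {D : Finset U | ∀ T ∈ ℋ, ¬ ∀ c ∈ T, ∃ l ∈ fl c, l ∉ D} =
      Ex (1 - 1 / 2) fun D : Finset U =>
        ind (D ∈ {D : Finset U | ∀ T ∈ ℋ, ¬ ∀ c ∈ T, ∃ l ∈ fl c, l ∈ D}) := by
    rw [← Ex_compl, ms_pw]
    simp only [Set.mem_ofPred_eq, mem_compl]
  rw [e1]
  have hden : (r1 : ℝ) * (1 / (2 * r0)) ≤ 1 - 1 / 2 := by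
    rw [mul_one_div, div_le_iff₀ (by positivity)]; linarith
  refine (Ex_anti (by positivity) hden (by norm_num) hanti).trans (key.trans ?_)
  have e2 : 8 * (r0 : ℝ) ^ 2 * (1 / κ) / (1 / (2 * r0)) = 1 / (4 * r0) := by
    rw [hκ]; field_simp; norm_num
  rw [e2, mul_one_div, div_le_iff₀ (by positivity)]
  linarith

end Pool.Agent.Lib.MP_8a52c3_lc.Mono25
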