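import Pool.Agent.Lib.MP_8a52c3_lc.Mono25.Defs
import Pool.Agent.Shared.PolyTime.Extra

/-! The hard language. -/

namespace Pool.Agent.Lib.MP_8a52c3_lc.Mono25

open Finset Pool.Agent.Shared.PolyTime N487b59b3 N68a2faeb

/-- The conditions tested by the verifier, with the parameters as arguments. -/
def langVerP (k q b m n : ℕ) (w : List Bool) (x : List ℕ) : Prop :=
  ∀ e < w.length, e < m → ∃ v < w.length, ∃ v' < w.length, (v < n ∧ v' < n) ∧
    (∀ j < w.length + 1, j < k + 1 →
      w.getD (e * b + (2 * j + (v.testBit j).toNat)) false = true ∧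
      w.getD (e * b + (2 * (k + 1) + (2 * j + (v'.testBit j).toNat))) false = true) ∧
    (x.getD v 0 < q ∧ x.getD v' 0 < q) ∧
    w.getD (e * b + (4 * (k + 1) + (x.getD v 0 * q + x.getD v' 0))) false = true

/-- The conditions tested by the verifier. -/
def langVer (w : List Bool) (x : List ℕ) : Prop :=
  langVerP (kk w.length) (qq w.length) (bl w.length) (dd w.length * nn w.length) (nn w.length) w x

open Classical in
theorem lang_pt_verP : IsPolyTime (fun z : (ℕ × ℕ × ℕ × ℕ × ℕ) × List Bool × List ℕ =>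
    decide (langVerP z.1.1 z.1.2.1 z.1.2.2.1 z.1.2.2.2.1 z.1.2.2.2.2 z.2.1 z.2.2)) := by
  unfold langVerP
  fun_prop

theorem lang_pt_kk : IsPolyTime (fun N : ℕ => kk N) := by
  unfold kk
  exact IsPolyTime.log (by fun_prop) (by fun_prop)

theorem lang_pt_qq : IsPolyTime (fun N : ℕ => qq N) :=
  lang_pt_kk.pow (IsPolyTime.const 40) (PolyBdd.const 40)

theorem lang_pt_dd : IsPolyTime (fun N : ℕ => dd N) :=
  lang_pt_kk.pow (IsPolyTime.const 921) (PolyBdd.const 921)

theorem lang_pt_bl : IsPolyTime (fun N : ℕ => bl N) :=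
  ((IsPolyTime.const 4).mul lang_pt_kk.add_one).add (lang_pt_qq.mul lang_pt_qq)

theorem lang_pt_nn : IsPolyTime (fun N : ℕ => nn N) :=
  IsPolyTime.id'.div (lang_pt_bl.mul lang_pt_dd)

open Classical in
theorem lang_pt_ver : IsPolyTime (fun z : List Bool × List ℕ => decide (langVer z.1 z.2)) := by
  have hl : IsPolyTime (fun z : List Bool × List ℕ => z.1.length) := by fun_prop
  exact lang_pt_verP.comp (g := fun z : List Bool × List ℕ =>
    ((kk z.1.length, qq z.1.length, bl z.1.length, dd z.1.length * nn z.1.length, nn z.1.length),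
      z.1, z.2))
    (((lang_pt_kk.comp hl).pair ((lang_pt_qq.comp hl).pair ((lang_pt_bl.comp hl).pair
      (((lang_pt_dd.comp hl).mul (lang_pt_nn.comp hl)).pair (lang_pt_nn.comp hl))))).pair
      IsPolyTime.id')

open Classical in
/-- The verifier on binary witnesses. -/
noncomputable def langR (z : List Bool × List Bool) : Bool :=
  (bitDecode z.2 : Option (List ℕ)).any fun x => decide (langVer z.1 x)

theorem lang_pt_R : IsPolyTime langR := by
  classical
  unfold langR
  refine IsPolyTime.optionAny (by fun_prop) ?_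
  exact lang_pt_ver.comp (g := fun z : (List Bool × List Bool) × List ℕ => (z.1.1, z.2))
    (by fun_prop)

open Classical in
/-- The hard language. -/
noncomputable def langL (w : List Bool) : Bool :=
  decide (∃ y : List Bool, y.length ≤ 3 * w.length ∧ langR (w, y) = true)

theorem langL_mem_NP : langL ∈ NP :=
  ⟨3 * Polynomial.X, langR, lang_pt_R, fun w => by simp [langL]⟩

theorem langL_iff (w : List Bool) :
    langL w = true ↔ ∃ y : List Bool, y.length ≤ 3 * w.length ∧
      ∃ x : List ℕ, bitDecode y = some x ∧ langVer w x := by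
  simp [langL, langR, Option.any_eq_true]

theorem lang_getD_ofFn {N : ℕ} (f : Fin N → Bool) (s : ℕ) :
    (List.ofFn f).getD s false = true ↔ ∃ h : s < N, f ⟨s, h⟩ = true := by
  by_cases h : s < N
  · rw [List.getD_eq_getElem _ _ (by simpa using h)]
    simp [h]
  · rw [List.getD_eq_default _ _ (by simpa using h)]
    simp [h]

theorem langVerP_mono {k q b m n : ℕ} {w w' : List Bool} {x : List ℕ} (hl : w'.length = w.length)
    (hw : ∀ s, w.getD s false = true → w'.getD s false = true) (h : langVerP k q b m n w x) :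
    langVerP k q b m n w' x := by
  unfold langVerP at h ⊢
  rw [hl]
  intro e he hm
  obtain ⟨v, hv, v', hv', h1, h2, h3, h4⟩ := h e he hm
  exact ⟨v, hv, v', hv', h1, fun j hj hk => ⟨hw _ (h2 j hj hk).1, hw _ (h2 j hj hk).2⟩, h3, hw _ h4⟩

theorem lang_pos_inj {b e e' r r' : ℕ} (hr : r < b) (hr' : r' < b)
    (h : e * b + r = e' * b + r') : e = e' ∧ r = r' := by
  have h1 : (e * b + r) / b = e := by
    rw [add_comm, Nat.add_mul_div_right _ _ (by omega), Nat.div_eq_of_lt hr, zero_add]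
  have h2 : (e' * b + r') / b = e' := by
    rw [add_comm, Nat.add_mul_div_right _ _ (by omega), Nat.div_eq_of_lt hr', zero_add]
  have he : e = e' := by rw [← h1, h, h2]
  subst he
  exact ⟨rfl, by omega⟩

theorem lang_pair_lt {q a c : ℕ} (ha : a < q) (hc : c < q) : a * q + c < q * q := by
  have : (a + 1) * q ≤ q * q := Nat.mul_le_mul_right q ha
  rw [add_mul, one_mul] at this
  omega

theorem lang_pos_lt {b e m r N : ℕ} (he : e < m) (hr : r < b) (hN : m * b ≤ N) :
    e * b + r < N := by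
  have : (e + 1) * b ≤ m * b := Nat.mul_le_mul_right b he
  rw [add_mul, one_mul] at this
  omega

theorem lang_eq_of_bits {k v u : ℕ} (hv : v < 2 ^ (k + 1)) (hu : u < 2 ^ (k + 1))
    (h : ∀ j < k + 1, (v.testBit j).toNat = (u.testBit j).toNat) : v = u := by
  refine Nat.eq_of_testBit_eq fun j => ?_
  by_cases hj : j < k + 1
  · have := h j hj
    revert this
    cases v.testBit j <;> cases u.testBit j <;> simp
  · have h2 : 2 ^ (k + 1) ≤ 2 ^ j := Nat.pow_le_pow_right (by norm_num) (by omega)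
    rw [Nat.testBit_lt_two_pow (hv.trans_le h2), Nat.testBit_lt_two_pow (hu.trans_le h2)]

section

variable {k q m n : ℕ} (G : Gr (Fin n) (Fin m))

/-- The positions that describe the graph. -/
def langA (k b : ℕ) (s : ℕ) : Prop :=
  ∃ (e : Fin m) (j : ℕ), j < k + 1 ∧ (s = e * b + (2 * j + ((G.src e : ℕ).testBit j).toNat) ∨
    s = e * b + (2 * (k + 1) + (2 * j + ((G.dst e : ℕ).testBit j).toNat)))

/-- The position of a pattern. -/
def langZ (k b : ℕ) (c : Fin m × Fin q × Fin q) : ℕ :=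
  c.1 * b + (4 * (k + 1) + (c.2.1 * q + c.2.2))

theorem langZ_inj {c c' : Fin m × Fin q × Fin q}
    (h : langZ k (4 * (k + 1) + q * q) c = langZ k (4 * (k + 1) + q * q) c') : c = c' := by
  have h1 := lang_pair_lt c.2.1.2 c.2.2.2
  have h2 := lang_pair_lt c'.2.1.2 c'.2.2.2
  obtain ⟨a1, a2⟩ := lang_pos_inj (by omega) (by omega) h
  obtain ⟨a3, a4⟩ := lang_pos_inj c.2.2.2 c'.2.2.2 (Nat.add_left_cancel a2)
  exact Prod.ext (Fin.ext a1) (Prod.ext (Fin.ext a3) (Fin.ext a4))

theorem lang_core {N : ℕ} (hq : 0 < q) (hN : m * (4 * (k + 1) + q * q) ≤ N) (hn : n ≤ N)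
    (hk : N < 2 ^ (k + 1)) (hkN : k ≤ N) (Z : Finset (Fin m × Fin q × Fin q)) (w : List Bool)
    (hl : w.length = N)
    (hw : ∀ s, w.getD s false = true ↔ s < N ∧ (langA G k (4 * (k + 1) + q * q) s ∨
      ∃ c ∈ Z, s = langZ k (4 * (k + 1) + q * q) c)) :
    (∀ x : List ℕ, langVerP k q (4 * (k + 1) + q * q) m n w x →
      ∃ x : Fin n → Fin q, G.u x ⊆ Z) ∧
    ∀ x : Fin n → Fin q, G.u x ⊆ Z →
      langVerP k q (4 * (k + 1) + q * q) m n w (List.ofFn fun v => (x v : ℕ)) := by
  set b := 4 * (k + 1) + q * q with hb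
  have hmN : m ≤ N := le_trans (Nat.le_mul_of_pos_right m (by omega)) hN
  have tb : ∀ v j : ℕ, (v.testBit j).toNat ≤ 1 := fun v j => Bool.toNat_le _
  constructor
  · intro x h
    refine ⟨fun v => if h : x.getD v 0 < q then ⟨x.getD v 0, h⟩ else ⟨0, hq⟩, fun c hc => ?_⟩
    obtain ⟨e, c1, c2⟩ := c
    obtain ⟨hc1, hc2⟩ := (Finset.mem_filter.1 hc).2
    obtain ⟨v, -, v', -, ⟨hv, hv'⟩, h2, ⟨h3, h3'⟩, h4⟩ := h e (by rw [hl]; omega) e.2
    have e1 : v = G.src e := by
      refine lang_eq_of_bits (k := k) (by omega) (by have := (G.src e).2; omega) fun j hj => ?_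
      have t1 := tb v j
      obtain ⟨-, ⟨e', j', hj', h5 | h5⟩ | ⟨c', -, h5⟩⟩ :=
        (hw _).1 (h2 j (by rw [hl]; omega) hj).1
      · have t2 := tb (G.src e') j'
        obtain ⟨a1, a2⟩ := lang_pos_inj (by omega) (by omega) h5
        obtain rfl : e = e' := Fin.ext a1
        obtain rfl : j = j' := by omega
        omega
      · have t2 := tb (G.dst e') j'
        obtain ⟨-, a2⟩ := lang_pos_inj (by omega) (by omega) h5
        omega
      · have t2 := lang_pair_lt c'.2.1.2 c'.2.2.2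
        obtain ⟨-, a2⟩ := lang_pos_inj (by omega) (by omega) h5
        omega
    have e2 : v' = G.dst e := by
      refine lang_eq_of_bits (k := k) (by omega) (by have := (G.dst e).2; omega) fun j hj => ?_
      have t1 := tb v' j
      obtain ⟨-, ⟨e', j', hj', h5 | h5⟩ | ⟨c', -, h5⟩⟩ :=
        (hw _).1 (h2 j (by rw [hl]; omega) hj).2
      · have t2 := tb (G.src e') j'
        obtain ⟨-, a2⟩ := lang_pos_inj (by omega) (by omega) h5
        omega
      · have t2 := tb (G.dst e') j'
        obtain ⟨a1, a2⟩ := lang_pos_inj (by omega) (by omega) h5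
        obtain rfl : e = e' := Fin.ext a1
        obtain rfl : j = j' := by omega
        omega
      · have t2 := lang_pair_lt c'.2.1.2 c'.2.2.2
        obtain ⟨-, a2⟩ := lang_pos_inj (by omega) (by omega) h5
        omega
    subst e1 e2
    have t1 := lang_pair_lt h3 h3'
    obtain ⟨-, ⟨e', j', hj', h5 | h5⟩ | ⟨c', hc', h5⟩⟩ := (hw _).1 h4
    · have t2 := tb (G.src e') j'
      obtain ⟨-, a2⟩ := lang_pos_inj (by omega) (by omega) h5
      omega
    · have t2 := tb (G.dst e') j'
      obtain ⟨-, a2⟩ := lang_pos_inj (by omega) (by omega) h5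
      omega
    · have : (e, c1, c2) = c' := by
        refine langZ_inj (k := k) (Eq.trans ?_ h5)
        simp only at hc1 hc2
        rw [dif_pos h3] at hc1
        rw [dif_pos h3'] at hc2
        rw [hc1, hc2]
        rfl
      exact this ▸ hc'
  · intro x hx e he hm
    have g : ∀ v : Fin n, (List.ofFn fun v => (x v : ℕ)).getD v 0 = x v := by
      intro v
      rw [List.getD_eq_getElem _ _ (by simp)]
      simp
    have s1 := (G.src ⟨e, hm⟩).2
    have s2 := (G.dst ⟨e, hm⟩).2
    refine ⟨G.src ⟨e, hm⟩, by omega, G.dst ⟨e, hm⟩, by omega, ⟨s1, s2⟩, fun j _ hj => ⟨?_, ?_⟩,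
      ⟨by rw [g]; exact (x _).2, by rw [g]; exact (x _).2⟩, ?_⟩
    · have t2 := tb (G.src ⟨e, hm⟩) j
      exact (hw _).2 ⟨lang_pos_lt hm (by omega) hN, Or.inl ⟨⟨e, hm⟩, j, hj, Or.inl rfl⟩⟩
    · have t2 := tb (G.dst ⟨e, hm⟩) j
      exact (hw _).2 ⟨lang_pos_lt hm (by omega) hN, Or.inl ⟨⟨e, hm⟩, j, hj, Or.inr rfl⟩⟩
    · rw [g, g]
      have t2 := lang_pair_lt (x (G.src ⟨e, hm⟩)).2 (x (G.dst ⟨e, hm⟩)).2
      exact (hw _).2 ⟨lang_pos_lt hm (by omega) hN, Or.inr
        ⟨(⟨e, hm⟩, x (G.src ⟨e, hm⟩), x (G.dst ⟨e, hm⟩)),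
          hx (Finset.mem_filter.2 ⟨Finset.mem_univ _, rfl, rfl⟩), rfl⟩⟩

end

theorem lang_size (N : ℕ) : dd N * nn N * bl N ≤ N ∧ nn N * (2 * qq N + 1) ≤ 3 * N := by
  have h1 : nn N * (bl N * dd N) ≤ N := Nat.div_mul_le_self _ _
  refine ⟨by rw [mul_comm (dd N), mul_assoc, mul_comm (dd N)]; exact h1, ?_⟩
  rcases Nat.eq_zero_or_pos (dd N) with h | h
  · have : nn N = 0 := by rw [nn, h, mul_zero, Nat.div_zero]
    rw [this, zero_mul]
    exact Nat.zero_le _
  · have h2 : bl N ≤ bl N * dd N := Nat.le_mul_of_pos_right _ h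
    have h3 : qq N ≤ qq N * qq N := Nat.le_mul_self _
    have h4 : 2 * qq N + 1 ≤ 3 * (bl N * dd N) := by
      have : bl N = 4 * (kk N + 1) + qq N * qq N := rfl
      omega
    calc nn N * (2 * qq N + 1) ≤ nn N * (3 * (bl N * dd N)) := Nat.mul_le_mul_left _ h4
      _ = 3 * (nn N * (bl N * dd N)) := by ring
      _ ≤ 3 * N := Nat.mul_le_mul_left _ h1

theorem lang_exists : ∃ L ∈ N68a2faeb.NP,
    (∀ (N : ℕ) (x y : Fin N → Bool), (∀ i, x i = true → y i = true) →
      L (List.ofFn x) = true → L (List.ofFn y) = true) ∧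
    ∀ N : ℕ, 0 < qq N → ∀ G : Gr (Fin (nn N)) (Fin (dd N * nn N)),
      ∃ inp : Finset (Fin (dd N * nn N) × Fin (qq N) × Fin (qq N)) → Fin N → Bool,
        (∀ t, (∃ c, ∀ Z, inp Z t = true ↔ c ∈ Z) ∨ (∀ Z, inp Z t = true) ∨
          (∀ Z, ¬ inp Z t = true)) ∧
        ∀ Z, L (List.ofFn (inp Z)) = true ↔ ∃ x : Fin (nn N) → Fin (qq N), G.u x ⊆ Z := by
  classical
  refine ⟨langL, langL_mem_NP, fun N x y hxy h => ?_, fun N hq G => ?_⟩
  · rw [langL_iff] at h ⊢
    obtain ⟨u, h1, z, h2, h3⟩ := h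
    have hl : (List.ofFn y).length = (List.ofFn x).length := by simp
    refine ⟨u, by rw [hl]; exact h1, z, h2, ?_⟩
    unfold langVer at h3 ⊢
    rw [hl]
    refine langVerP_mono hl (fun s hs => ?_) h3
    obtain ⟨a, b⟩ := (lang_getD_ofFn x s).1 hs
    exact (lang_getD_ofFn y s).2 ⟨a, hxy _ b⟩
  · refine ⟨fun Z t => decide (langA G (kk N) (bl N) t ∨ ∃ c ∈ Z, (t : ℕ) = langZ (kk N) (bl N) c),
      fun t => ?_, fun Z => ?_⟩
    · by_cases h1 : langA G (kk N) (bl N) t
      · exact Or.inr (Or.inl fun Z => decide_eq_true (Or.inl h1))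
      · by_cases h2 : ∃ c : Fin (dd N * nn N) × Fin (qq N) × Fin (qq N),
            (t : ℕ) = langZ (kk N) (bl N) c
        · obtain ⟨c, hc⟩ := h2
          refine Or.inl ⟨c, fun Z => ?_⟩
          rw [decide_eq_true_eq]
          refine ⟨?_, fun h => Or.inr ⟨c, h, hc⟩⟩
          rintro (h | ⟨c', h, hc'⟩)
          · exact absurd h h1
          · exact langZ_inj (k := kk N) (hc'.symm.trans hc) ▸ h
        · refine Or.inr (Or.inr fun Z => ?_)
          rw [decide_eq_true_eq]
          rintro (h | ⟨c', -, hc'⟩)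
          · exact h1 h
          · exact h2 ⟨c', hc'⟩
    · obtain ⟨s1, s2⟩ := lang_size N
      set w := List.ofFn fun t : Fin N =>
        decide (langA G (kk N) (bl N) t ∨ ∃ c ∈ Z, (t : ℕ) = langZ (kk N) (bl N) c) with hw
      have hl : w.length = N := by rw [hw, List.length_ofFn]
      obtain ⟨c1, c2⟩ := lang_core (k := kk N) G hq s1 (Nat.div_le_self _ _)
        (Nat.lt_pow_succ_log_self (by norm_num) N) (Nat.log_le_self 2 N) Z w hl fun s => by
          rw [hw, lang_getD_ofFn]
          simp only [decide_eq_true_eq, exists_prop]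
          rfl
      rw [langL_iff]
      constructor
      · rintro ⟨-, -, x, -, hx⟩
        unfold langVer at hx
        rw [hl] at hx
        exact c1 x hx
      · rintro ⟨x, hx⟩
        refine ⟨bitEncode (List.ofFn fun v => (x v : ℕ)), ?_, List.ofFn fun v => (x v : ℕ),
          by simp, ?_⟩
        · rw [hl]
          refine le_trans (bsize_list_le _ (qq N) fun a ha => ?_) ?_
          · obtain ⟨i, rfl⟩ := List.mem_ofFn.1 ha
            exact (bsize_nat_le_self _).trans (x i).2.le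
          · rw [List.length_ofFn]
            exact s2
        · unfold langVer
          rw [hl]
          exact c2 x hx

end Pool.Agent.Lib.MP_8a52c3_lc.Mono25
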