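import Pool.Agent.Lib.MP_8a52c3_lc.Mono25.Prob

/-! The Park-Pham theorem in the form used below. -/

namespace Pool.Agent.Lib.MP_8a52c3_lc.Mono25

open Finset

variable {U : Type} [Fintype U] [DecidableEq U]

/-- `F` is a minimal fragment of a member of `ℋ` with respect to `W`. -/
def ppMin (ℋ : Set (Finset U)) (W F : Finset U) : Prop :=
  ∃ T ∈ ℋ, ∃ T' ∈ ℋ, T' ⊆ T ∪ W ∧ F = T' \ W ∧
    ∀ S ∈ ℋ, S ⊆ T ∪ W → F.card ≤ (S \ W).card

omit [Fintype U] in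
theorem pp_exists (ℋ : Set (Finset U)) (W : Finset U) {T : Finset U} (hT : T ∈ ℋ) :
    ∃ F, ppMin ℋ W F ∧ F ⊆ T := by
  classical
  obtain ⟨T', h1, h2⟩ := exists_min_image ((T ∪ W).powerset.filter fun S => S ∈ ℋ)
    (fun S => (S \ W).card) ⟨T, mem_filter.2 ⟨mem_powerset.2 subset_union_left, hT⟩⟩
  rw [mem_filter, mem_powerset] at h1
  refine ⟨T' \ W, ⟨T, hT, T', h1.2, h1.1, rfl,
    fun S hS hS' => h2 S (mem_filter.2 ⟨mem_powerset.2 hS', hS⟩)⟩, ?_⟩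
  intro u hu
  rw [mem_sdiff] at hu
  exact (mem_union.1 (h1.1 hu.1)).resolve_right hu.2

omit [Fintype U] in
theorem ppMin.disj {ℋ : Set (Finset U)} {W F : Finset U} (h : ppMin ℋ W F) : Disjoint W F := by
  obtain ⟨T, -, T', -, -, rfl, -⟩ := h
  exact disjoint_sdiff

omit [Fintype U] in
theorem ppMin.mem {ℋ : Set (Finset U)} {W F : Finset U} (h : ppMin ℋ W F) :
    ∃ S ∈ ℋ, S ⊆ W ∪ F := by
  obtain ⟨T, -, T', h1, -, rfl, -⟩ := h
  exact ⟨T', h1, by rw [union_sdiff_self_eq_union]; exact subset_union_right⟩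

omit [Fintype U] in
theorem ppMin.sub {ℋ : Set (Finset U)} {W F S : Finset U} (h : ppMin ℋ W F) (hS : S ∈ ℋ)
    (hSZ : S ⊆ W ∪ F) : F ⊆ S := by
  obtain ⟨T, -, T', -, h1, h2, h3⟩ := h
  have h4 : S ⊆ T ∪ W := by
    intro u hu
    rcases mem_union.1 (hSZ hu) with h | h
    · exact mem_union_right _ h
    · rw [h2] at h
      exact h1 (mem_sdiff.1 h).1
  have h5 : S \ W ⊆ F := by
    intro u hu
    rw [mem_sdiff] at hu
    exact (mem_union.1 (hSZ hu.1)).resolve_left hu.2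
  rw [← eq_of_subset_of_card_le h5 (h3 S hS h4)]
  exact sdiff_subset

/-- The large minimal fragments. -/
noncomputable def ppBig (ℋ : Set (Finset U)) (h : ℕ) (W : Finset U) : Finset (Finset U) :=
  @Finset.filter _ (fun F => ppMin ℋ W F ∧ h ≤ F.card) (fun _ => Classical.propDecidable _) univ

theorem pp_mem_big {ℋ : Set (Finset U)} {h : ℕ} {W F : Finset U} :
    F ∈ ppBig ℋ h W ↔ ppMin ℋ W F ∧ h ≤ F.card := by
  simp [ppBig]

theorem pp_cost (a δ : ℝ) (ha : 0 ≤ a) (hδ : 0 < δ) (hδ1 : δ ≤ 1) (hx : 4 * a / δ ≤ 1)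
    (ℋ : Set (Finset U)) (h : ℕ) (h1 : 1 ≤ h) (hc : ∀ T ∈ ℋ, T.card < 2 * h) :
    Ex δ (fun W => wt a (ppBig ℋ h W)) ≤ 4 * a / δ := by
  classical
  have hq0 : 0 ≤ a / δ := div_nonneg ha hδ.le
  have e0 : 4 * a / δ = 4 * (a / δ) := mul_div_assoc _ _ _
  have hq1 : a / δ ≤ 1 := by linarith
  set P : Finset (Finset U × Finset U) := univ.filter fun p => p.2 ∈ ppBig ℋ h p.1 with hP
  have e1 : Ex δ (fun W => wt a (ppBig ℋ h W)) = ∑ p ∈ P, pw δ p.1 * a ^ p.2.card := by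
    rw [hP, sum_filter, Fintype.sum_prod_type]
    unfold Ex wt
    refine sum_congr rfl fun W _ => ?_
    rw [mul_sum, ← sum_filter]
    refine sum_congr ?_ fun _ _ => rfl
    ext F
    simp
  have e2 : ∑ p ∈ P, pw δ p.1 * a ^ p.2.card ≤ ∑ p ∈ P, pw δ (p.1 ∪ p.2) * (a / δ) ^ h := by
    refine sum_le_sum fun p hp => ?_
    have hp' := pp_mem_big.1 (mem_filter.1 hp).2
    have h2 := pw_union hδ.le hδ1 hp'.1.disj
    have h3 : (a / δ) ^ p.2.card ≤ (a / δ) ^ h := pow_le_pow_of_le_one hq0 hq1 hp'.2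
    have h4 : a ^ p.2.card = δ ^ p.2.card * (a / δ) ^ p.2.card := by
      rw [← mul_pow, mul_div_cancel₀ _ hδ.ne']
    rw [h4, ← mul_assoc]
    exact mul_le_mul h2 h3 (pow_nonneg hq0 _) (pw_nonneg hδ.le hδ1 _)
  have e3 : ∀ Z : Finset U, ((P.filter fun p => p.1 ∪ p.2 = Z).card : ℝ) ≤ 4 ^ h := by
    intro Z
    rcases (P.filter fun p => p.1 ∪ p.2 = Z).eq_empty_or_nonempty with he | ⟨p0, hp0⟩
    · rw [he]
      simp
    · have hm : ∀ p ∈ P.filter fun p => p.1 ∪ p.2 = Z, ppMin ℋ p.1 p.2 ∧ p.1 ∪ p.2 = Z :=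
        fun p hp => ⟨(pp_mem_big.1 (mem_filter.1 (mem_filter.1 hp).1).2).1, (mem_filter.1 hp).2⟩
      obtain ⟨S, hS, hSZ⟩ := (hm p0 hp0).1.mem
      rw [(hm p0 hp0).2] at hSZ
      have h5 : (P.filter fun p => p.1 ∪ p.2 = Z).card ≤ S.powerset.card := by
        refine card_le_card_of_injOn (fun p => p.2) (fun p hp => ?_) fun p hp p' hp' hpp => ?_
        · have := hm p (mem_coe.1 hp)
          exact mem_coe.2 (mem_powerset.2 (this.1.sub hS (by rw [this.2]; exact hSZ)))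
        · have h6 := hm p (mem_coe.1 hp)
          have h7 := hm p' (mem_coe.1 hp')
          have hpp' : p.2 = p'.2 := hpp
          refine Prod.ext ?_ hpp'
          rw [← union_sdiff_cancel_right h6.1.disj, ← union_sdiff_cancel_right h7.1.disj, h6.2,
            h7.2, hpp']
      rw [card_powerset] at h5
      have h8 : 2 ^ S.card ≤ 4 ^ h := by
        rw [show 4 = 2 ^ 2 by norm_num, ← pow_mul]
        exact Nat.pow_le_pow_right (by norm_num) (hc S hS).le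
      exact_mod_cast h5.trans h8
  have e4 : ∑ p ∈ P, pw δ (p.1 ∪ p.2) * (a / δ) ^ h ≤
      ∑ Z : Finset U, pw δ Z * (4 * (a / δ)) ^ h := by
    rw [← sum_fiberwise P fun p => p.1 ∪ p.2]
    refine sum_le_sum fun Z _ => ?_
    rw [sum_congr rfl (g := fun _ => pw δ Z * (a / δ) ^ h)
      (fun p hp => by rw [(mem_filter.1 hp).2]), sum_const, nsmul_eq_mul, mul_pow]
    have := mul_le_mul_of_nonneg_right (e3 Z)
      (mul_nonneg (pw_nonneg hδ.le hδ1 Z) (pow_nonneg hq0 h))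
    linarith
  rw [← sum_mul univ, sum_pw, one_mul] at e4
  rw [e1, e0]
  refine e2.trans (e4.trans ?_)
  exact pow_le_of_le_one (by linarith) (by linarith) (by omega)

theorem park_pham (a δ : ℝ) (ha : 0 ≤ a) (hδ : 0 < δ) (hx : 4 * a / δ ≤ 1) (r : ℕ) :
    ∀ (ℋ : Set (Finset U)) (Λ : ℝ), r * δ ≤ 1 → (∀ T ∈ ℋ, T.card < 2 ^ r) →
      (∀ 𝓑, Covers 𝓑 ℋ → Λ ≤ wt a 𝓑) →
      Λ * ms (pw (r * δ)) {W | ∀ T ∈ ℋ, ¬ T ⊆ W} ≤ r * (4 * a / δ) := by
  have hx0 : 0 ≤ 4 * a / δ := by positivity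
  induction r with
  | zero =>
    intro ℋ Λ _ hc hcov
    rcases ℋ.eq_empty_or_nonempty with he | ⟨T, hT⟩
    · have h1 := hcov ∅ (by rw [he]; intro T hT; exact hT.elim)
      rw [wt_empty] at h1
      have h2 := ms_nonneg (μ := pw (U := U) (((0 : ℕ) : ℝ) * δ))
        (pw_nonneg (by simp) (by simp)) {W | ∀ T ∈ ℋ, ¬ T ⊆ W}
      have h3 := mul_nonpos_of_nonpos_of_nonneg h1 h2
      simpa using h3
    · have h1 : T = ∅ := card_eq_zero.1 (by have := hc T hT; omega)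
      have h2 : {W : Finset U | ∀ T ∈ ℋ, ¬ T ⊆ W} = ∅ := by
        ext W
        simp only [Set.mem_ofPred_eq, Set.mem_empty_iff_false, iff_false]
        intro h
        exact h T hT (by rw [h1]; exact empty_subset _)
      rw [h2, ms_empty]
      simp
  | succ r ih =>
    intro ℋ Λ hr hc hcov
    have hr0 : (0 : ℝ) ≤ r * δ := by positivity
    have e0 : ((r + 1 : ℕ) : ℝ) * δ = δ + r * δ := by push_cast; ring
    rw [e0] at hr ⊢
    have hδ1 : δ ≤ 1 := by linarith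
    have hr1 : r * δ ≤ 1 := by linarith
    rcases le_or_gt Λ 0 with hΛ | hΛ
    · exact (mul_nonpos_of_nonpos_of_nonneg hΛ
        (ms_nonneg (pw_nonneg (by linarith) hr) _)).trans (by positivity)
    have hanti : Antitone fun W : Finset U => ind (W ∈ {W : Finset U | ∀ T ∈ ℋ, ¬ T ⊆ W}) :=
      fun A B hAB => ind_mono fun h T hT hs => h T hT (hs.trans hAB)
    have h1 := Ex_add_le hδ.le hr0 hr hanti
    have h2 : ∀ W : Finset U,
        Λ * Ex (r * δ) (fun B => ind (W ∪ B ∈ {W : Finset U | ∀ T ∈ ℋ, ¬ T ⊆ W})) ≤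
          r * (4 * a / δ) + wt a (ppBig ℋ (2 ^ r) W) := by
      intro W
      have h3 := ih {F | ppMin ℋ W F ∧ F.card < 2 ^ r} (Λ - wt a (ppBig ℋ (2 ^ r) W)) hr1
        (fun F hF => hF.2) (by
          intro 𝓑 hB
          have h4 : Covers (𝓑 ∪ ppBig ℋ (2 ^ r) W) ℋ := by
            intro T hT
            obtain ⟨F, hF, hFT⟩ := pp_exists ℋ W hT
            rcases lt_or_ge F.card (2 ^ r) with hlt | hge
            · obtain ⟨B, hB1, hB2⟩ := hB F ⟨hF, hlt⟩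
              exact ⟨B, mem_union_left _ hB1, hB2.trans hFT⟩
            · exact ⟨F, mem_union_right _ (pp_mem_big.2 ⟨hF, hge⟩), hFT⟩
          have h5 := hcov _ h4
          have h6 := wt_union_le ha 𝓑 (ppBig ℋ (2 ^ r) W)
          linarith)
      have h7 : Ex (r * δ) (fun B => ind (W ∪ B ∈ {W : Finset U | ∀ T ∈ ℋ, ¬ T ⊆ W})) ≤
          ms (pw (r * δ)) {B | ∀ F ∈ {F | ppMin ℋ W F ∧ F.card < 2 ^ r}, ¬ F ⊆ B} := by
        rw [ms_pw]
        refine Ex_mono hr0 hr1 fun B => ind_mono fun h F hF hs => ?_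
        obtain ⟨S, hS, hSZ⟩ := hF.1.mem
        exact h S hS (hSZ.trans (union_subset_union_right hs))
      have h8 := ms_pw_le_one hr0 hr1
        {B : Finset U | ∀ F ∈ {F | ppMin ℋ W F ∧ F.card < 2 ^ r}, ¬ F ⊆ B}
      have h9 := mul_le_mul_of_nonneg_left h7 hΛ.le
      have h10 := mul_le_mul_of_nonneg_left h8 (wt_nonneg ha (ppBig ℋ (2 ^ r) W))
      linarith
    have h11 := Ex_mono hδ.le hδ1 h2
    rw [Ex_mul, Ex_add, Ex_const] at h11
    have h12 := pp_cost a δ ha hδ hδ1 hx ℋ (2 ^ r) Nat.one_le_two_pow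
      fun T hT => by have := hc T hT; rwa [pow_succ, mul_comm] at this
    have h13 := mul_le_mul_of_nonneg_left h1 hΛ.le
    rw [ms_pw]
    push_cast
    linarith

theorem pp (r0 : ℕ) (hr : 1 ≤ r0) (a ρ : ℝ) (ha : 0 ≤ a) (hρ : 0 < ρ) (hρ1 : ρ ≤ 1)
    (ℋ : Set (Finset U)) (hcard : ∀ T ∈ ℋ, T.card < 2 ^ r0)
    (hcov : ∀ 𝓑, Covers 𝓑 ℋ → 1 / 2 ≤ wt a 𝓑) :
    ms (pw ρ) {W | ∀ T ∈ ℋ, ¬ T ⊆ W} ≤ 8 * (r0 : ℝ) ^ 2 * a / ρ := by
  have h1 : (1 : ℝ) ≤ r0 := by exact_mod_cast hr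
  have h0 : (0 : ℝ) < r0 := by linarith
  have e1 : (r0 : ℝ) * (ρ / r0) = ρ := mul_div_cancel₀ _ h0.ne'
  have e2 : 8 * (r0 : ℝ) ^ 2 * a / ρ = 2 * (r0 * (4 * a / (ρ / r0))) := by
    field_simp
    ring
  rw [e2]
  rcases le_or_gt (4 * a / (ρ / r0)) 1 with hx | hx
  · have h2 := park_pham a (ρ / r0) ha (div_pos hρ h0) hx r0 ℋ (1 / 2) (by rw [e1]; exact hρ1)
      hcard hcov
    rw [e1] at h2
    linarith
  · have h2 := ms_pw_le_one hρ.le hρ1 {W : Finset U | ∀ T ∈ ℋ, ¬ T ⊆ W}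
    nlinarith

end Pool.Agent.Lib.MP_8a52c3_lc.Mono25
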