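import Pool.Agent.Lib.MP_8a52c3_lc.Mono25.Defs

/-! The choice of the parameters. -/

namespace Pool.Agent.Lib.MP_8a52c3_lc.Mono25

open Finset

/-- The parameters at length `N`. -/
noncomputable def par (N r1 : ℕ) : Par :=
  ⟨(kk N : ℝ) ^ 20, (kk N : ℝ) ^ 110, kk N + 1, r1⟩

theorem params_pow (m : ℕ) : ∃ K : ℕ, 128 ≤ K ∧ ∀ k ≥ K, k ^ m ≤ 2 ^ k := by
  have h := tendsto_pow_const_div_const_pow_of_one_lt m (r := (2 : ℝ)) one_lt_two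
  have h2 := h.eventually (gt_mem_nhds (zero_lt_one : (0 : ℝ) < 1))
  obtain ⟨K, hK⟩ := Filter.eventually_atTop.1 h2
  refine ⟨max K 128, le_max_right _ _, fun k hk => ?_⟩
  have h3 := hK k (le_trans (le_max_left _ _) hk)
  rw [div_lt_one (by positivity)] at h3
  exact_mod_cast h3.le

theorem params_big {k : ℕ} (hk : 128 ≤ k) (c a b : ℕ) (hc : c ≤ 128 ^ b) :
    c * k ^ a ≤ k ^ (a + b) := by
  rw [pow_add, mul_comm (k ^ a)]
  exact Nat.mul_le_mul_right _ (hc.trans (Nat.pow_le_pow_left hk b))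

theorem params_bl {k : ℕ} (hk : 128 ≤ k) : 4 * (k + 1) + k ^ 40 * k ^ 40 ≤ k ^ 81 := by
  have h1 : 8 * k ^ 1 ≤ k ^ (1 + 79) :=
    params_big hk 8 1 79 (le_trans (by norm_num) (Nat.le_self_pow (by norm_num) 128))
  have h2 : 2 * k ^ 80 ≤ k ^ (80 + 1) := params_big hk 2 80 1 (by norm_num)
  rw [← pow_add]
  rw [pow_one] at h1
  change 8 * k ≤ k ^ 80 at h1
  change 2 * k ^ 80 ≤ k ^ 81 at h2
  change 4 * (k + 1) + k ^ 80 ≤ k ^ 81
  omega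

theorem params_hQ {k : ℕ} (hk : 128 ≤ k) : 128 * 64 ^ 5 * (k + 1) ^ 12 ≤ k ^ 20 := by
  have h1 : (k + 1) ^ 12 ≤ (2 * k) ^ 12 := Nat.pow_le_pow_left (by omega) 12
  have h2 : (128 * 64 ^ 5 * 2 ^ 12) * k ^ 12 ≤ k ^ (12 + 8) :=
    params_big hk _ 12 8 (by norm_num)
  calc 128 * 64 ^ 5 * (k + 1) ^ 12 ≤ 128 * 64 ^ 5 * (2 * k) ^ 12 := Nat.mul_le_mul_left _ h1
    _ = (128 * 64 ^ 5 * 2 ^ 12) * k ^ 12 := by rw [mul_pow, mul_assoc (128 * 64 ^ 5)]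
    _ ≤ k ^ 20 := h2

theorem params_hR {k : ℕ} (hk : 128 ≤ k) :
    128 * 24 * 5 * 64 ^ 4 * (k + 1) ^ 19 * k ^ 80 ≤ k ^ 110 := by
  have h1 : (k + 1) ^ 19 ≤ (2 * k) ^ 19 := Nat.pow_le_pow_left (by omega) 19
  have h2 : (128 * 24 * 5 * 64 ^ 4 * 2 ^ 19) * k ^ 99 ≤ k ^ (99 + 11) :=
    params_big hk _ 99 11 (by norm_num)
  calc 128 * 24 * 5 * 64 ^ 4 * (k + 1) ^ 19 * k ^ 80
      ≤ 128 * 24 * 5 * 64 ^ 4 * (2 * k) ^ 19 * k ^ 80 :=
        Nat.mul_le_mul_right _ (Nat.mul_le_mul_left _ h1)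
    _ = (128 * 24 * 5 * 64 ^ 4 * 2 ^ 19) * k ^ 99 := by
        rw [mul_pow, show k ^ 99 = k ^ 19 * k ^ 80 from pow_add k 19 80]
        simp only [mul_assoc]
    _ ≤ k ^ 110 := h2

theorem params_main {k b : ℕ} (hk : 128 ≤ k) (hb : b ≤ k ^ 81) :
    178 * (32 * (k ^ 921) ^ 2) * (b * k ^ 921) ≤ k ^ 3000 := by
  have h2 : 5696 * k ^ 2844 ≤ k ^ (2844 + 156) :=
    params_big hk _ 2844 156
      (le_trans (by norm_num : 5696 ≤ 128 ^ 2) (Nat.pow_le_pow_right (by norm_num) (by norm_num)))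
  have h3 : k ^ 2844 = (k ^ 921) ^ 2 * (k ^ 81 * k ^ 921) := by
    rw [← pow_mul, ← pow_add, ← pow_add]
  have h4 : k ^ (2844 + 156) = k ^ 3000 := congrArg (fun e => k ^ e) (by norm_num)
  rw [h4, h3] at h2
  refine le_trans ?_ h2
  generalize k ^ 921 = d at *
  generalize k ^ 81 = e at *
  calc 178 * (32 * d ^ 2) * (b * d) ≤ 178 * (32 * d ^ 2) * (e * d) :=
        Nat.mul_le_mul_left _ (Nat.mul_le_mul_right _ hb)
    _ = 5696 * (d ^ 2 * (e * d)) := by ring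

theorem params_hQ_real {r Q : ℝ} (hr : 0 < r) (hQ : 0 < Q) (h : 128 * 64 ^ 5 * r ^ 12 ≤ Q) :
    128 * r ^ 2 * (1 / Q) ≤ (1 / (64 * r ^ 2)) ^ 5 := by
  rw [mul_one_div, one_div_pow, div_le_div_iff₀ hQ (by positivity), one_mul]
  refine le_trans (le_of_eq ?_) h
  ring

theorem params_hR_real {r Q R : ℝ} (hr : 0 < r) (hQ : 0 < Q) (hR : 0 < R)
    (h : 128 * 24 * 5 * 64 ^ 4 * r ^ 19 * Q ^ 4 ≤ R) :
    128 * r ^ 2 * (1 / R) ≤ 1 / (24 * r * (5 * Q ^ 4) * (64 * r ^ 4) ^ 4) := by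
  rw [mul_one_div, div_le_div_iff₀ hR (by positivity), one_mul]
  refine le_trans (le_of_eq ?_) h
  ring

theorem params_p {x : ℝ} (hx : 8 ≤ x) : 8 * x ^ 40 ≤ 1 / (x ^ 110) ^ 8 * x ^ 921 := by
  have hx0 : 0 < x := by linarith
  have h1 : x ^ 921 = (x ^ 110) ^ 8 * (x * x ^ 40) := by
    rw [← pow_mul, ← pow_succ', ← pow_add]
  have h2 : (x ^ 110) ^ 8 ≠ 0 := pow_ne_zero _ (pow_ne_zero _ hx0.ne')
  rw [h1, one_div, inv_mul_cancel_left₀ h2]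
  exact mul_le_mul_of_nonneg_right hx (pow_nonneg hx0.le _)

theorem params : ∃ N0 : ℕ, ∀ N ≥ N0, 0 < qq N ∧ 1 ≤ nn N ∧ ∃ r1 : ℕ,
    16 * dd N ^ 2 * (par N r1).r ≤ nn N ∧
    21 * (N / kk N ^ 3000 + 3) + 5 ≤ 2 ^ r1 ∧ 4 ≤ N / kk N ^ 3000 + 3 ∧
    8 * (qq N : ℝ) ≤ (par N r1).p * dd N ∧
    ∀ G : Gr (Fin (nn N)) (Fin (dd N * nn N)), G.Sparse (par N r1).r →
      Hyp G (Fin (qq N)) (par N r1) := by
  obtain ⟨K, hK, hKp⟩ := params_pow 3000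
  refine ⟨2 ^ K, fun N hN => ?_⟩
  have hN0 : N ≠ 0 := by
    have : 0 < 2 ^ K := by positivity
    omega
  have hkK : K ≤ kk N := Nat.le_log_of_pow_le one_lt_two hN
  have hk : 128 ≤ kk N := hK.trans hkK
  have hk0 : 0 < kk N := by omega
  have hlo : 2 ^ kk N ≤ N := Nat.pow_log_le_self 2 hN0
  have hhi : N < 2 ^ (kk N + 1) := Nat.lt_pow_succ_log_self one_lt_two N
  have hP : kk N ^ 3000 ≤ N := (hKp _ hkK).trans hlo
  have hP0 : 0 < kk N ^ 3000 := pow_pos hk0 _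
  have hq : 0 < qq N := pow_pos hk0 _
  have hd : 0 < dd N := pow_pos hk0 _
  have hb : bl N ≤ kk N ^ 81 := params_bl hk
  have hb1 : qq N * qq N ≤ bl N := Nat.le_add_left _ _
  have hqq : qq N ≤ qq N * qq N := Nat.le_mul_of_pos_right _ hq
  have hb0 : 0 < bl N := lt_of_lt_of_le (Nat.mul_pos hq hq) hb1
  have hmain : 178 * (32 * dd N ^ 2) * (bl N * dd N) ≤ kk N ^ 3000 := params_main hk hb
  have hT1 : 1 ≤ N / kk N ^ 3000 := (Nat.le_div_iff_mul_le hP0).2 (by rw [one_mul]; exact hP)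
  have hT2 : N / kk N ^ 3000 * kk N ^ 3000 ≤ N := Nat.div_mul_le_self _ _
  have hn : nn N * (bl N * dd N) ≤ N := Nat.div_mul_le_self _ _
  have hc0 : 0 < 32 * dd N ^ 2 := Nat.mul_pos (by norm_num) (pow_pos hd 2)
  have hD0 : 0 < bl N * dd N := Nat.mul_pos hb0 hd
  generalize N / kk N ^ 3000 = T at hT1 hT2 ⊢
  generalize kk N ^ 3000 = W at hmain hT2
  have hTn : 178 * T * (32 * dd N ^ 2) ≤ nn N := by
    refine (Nat.le_div_iff_mul_le hD0).2 (le_trans ?_ hT2)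
    calc 178 * T * (32 * dd N ^ 2) * (bl N * dd N)
        = T * (178 * (32 * dd N ^ 2) * (bl N * dd N)) := by ring
      _ ≤ T * W := Nat.mul_le_mul_left _ hmain
  have hM : 178 * T ≤ nn N / (32 * dd N ^ 2) := (Nat.le_div_iff_mul_le hc0).2 hTn
  have hM2 : nn N / (32 * dd N ^ 2) * (32 * dd N ^ 2) ≤ nn N := Nat.div_mul_le_self _ _
  have hM3 : nn N / (32 * dd N ^ 2) ≤ nn N := Nat.div_le_self _ _
  generalize nn N / (32 * dd N ^ 2) = M at hM hM2 hM3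
  have hM0 : M ≠ 0 := by omega
  have hr1 : 2 ^ Nat.log 2 M ≤ M := Nat.pow_log_le_self 2 hM0
  have hr2 : M < 2 ^ (Nat.log 2 M + 1) := Nat.lt_pow_succ_log_self one_lt_two M
  generalize Nat.log 2 M = r1 at hr1 hr2
  have hnN : nn N ≤ N := Nat.div_le_self _ _
  have hkR : (128 : ℝ) ≤ (kk N : ℝ) := by exact_mod_cast hk
  have hkR1 : (1 : ℝ) ≤ (kk N : ℝ) := by linarith
  have hkR0 : (0 : ℝ) < (kk N : ℝ) := by linarith
  refine ⟨hq, by omega, r1, ?_, ?_, by omega, ?_, fun G hG => ?_⟩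
  · change 16 * dd N ^ 2 * (2 * 2 ^ r1) ≤ nn N
    calc 16 * dd N ^ 2 * (2 * 2 ^ r1) = 2 ^ r1 * (32 * dd N ^ 2) := by ring
      _ ≤ M * (32 * dd N ^ 2) := Nat.mul_le_mul_right _ hr1
      _ ≤ nn N := hM2
  · rw [pow_succ] at hr2
    omega
  · change 8 * ((kk N ^ 40 : ℕ) : ℝ) ≤ 1 / ((kk N : ℝ) ^ 110) ^ 8 * ((kk N ^ 921 : ℕ) : ℝ)
    rw [Nat.cast_pow, Nat.cast_pow]
    exact params_p (by linarith)
  · refine ⟨?_, ?_, ?_, hG, ?_, ?_, ?_, ?_, ?_, ?_⟩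
    · change ((Fintype.card (Fin (qq N)) : ℕ) : ℝ) = ((kk N : ℝ) ^ 20) ^ 2
      rw [Fintype.card_fin, ← pow_mul]
      exact Nat.cast_pow _ _
    · change (4 : ℝ) ≤ (kk N : ℝ) ^ 20
      exact le_trans (by linarith) (le_self_pow₀ hkR1 (by norm_num))
    · change (4 : ℝ) ≤ (kk N : ℝ) ^ 110
      exact le_trans (by linarith) (le_self_pow₀ hkR1 (by norm_num))
    · change Fintype.card (Fin (nn N) × Fin (qq N)) < 2 ^ (kk N + 1)
      rw [Fintype.card_prod, Fintype.card_fin, Fintype.card_fin]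
      refine lt_of_le_of_lt (le_trans (Nat.mul_le_mul_left _ ?_) hn) hhi
      exact (hqq.trans hb1).trans (Nat.le_mul_of_pos_right _ hd)
    · change Fintype.card (Fin (dd N * nn N) × Fin (qq N) × Fin (qq N)) < 2 ^ (kk N + 1)
      rw [Fintype.card_prod, Fintype.card_prod, Fintype.card_fin, Fintype.card_fin]
      refine lt_of_le_of_lt (le_trans ?_ hn) hhi
      calc dd N * nn N * (qq N * qq N) ≤ dd N * nn N * bl N := Nat.mul_le_mul_left _ hb1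
        _ = nn N * (bl N * dd N) := by ring
    · change 1 ≤ kk N + 1
      omega
    · change r1 ≤ kk N + 1
      have h1 : 2 ^ r1 < 2 ^ (kk N + 1) := lt_of_le_of_lt ((hr1.trans hM3).trans hnN) hhi
      exact ((Nat.pow_lt_pow_iff_right one_lt_two).1 h1).le
    · change 128 * ((kk N + 1 : ℕ) : ℝ) ^ 2 * (1 / (kk N : ℝ) ^ 20) ≤
        (1 / (64 * ((kk N + 1 : ℕ) : ℝ) ^ 2)) ^ 5
      refine params_hQ_real (by positivity) (pow_pos hkR0 _) ?_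
      exact_mod_cast params_hQ hk
    · change 128 * ((kk N + 1 : ℕ) : ℝ) ^ 2 * (1 / (kk N : ℝ) ^ 110) ≤
        1 / (24 * ((kk N + 1 : ℕ) : ℝ) * (5 * ((kk N : ℝ) ^ 20) ^ 4) *
          (64 * ((kk N + 1 : ℕ) : ℝ) ^ 4) ^ 4)
      refine params_hR_real (by positivity) (pow_pos hkR0 _) (pow_pos hkR0 _) ?_
      rw [← pow_mul]
      exact_mod_cast params_hR hk

end Pool.Agent.Lib.MP_8a52c3_lc.Mono25
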