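import Pool.Agent.Lib.MP_8a52c3_lc.Mono25.Defs

/-! Elementary facts on masses and on biased random subsets. -/

namespace Pool.Agent.Lib.MP_8a52c3_lc.Mono25

open Finset

theorem ind_true {p : Prop} (h : p) : ind p = 1 := by simp [ind, h]

theorem ind_false {p : Prop} (h : ¬ p) : ind p = 0 := by simp [ind, h]

theorem ind_nonneg (p : Prop) : 0 ≤ ind p := by
  by_cases h : p
  · rw [ind_true h]; norm_num
  · rw [ind_false h]

theorem ind_le_one (p : Prop) : ind p ≤ 1 := by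
  by_cases h : p
  · rw [ind_true h]
  · rw [ind_false h]; norm_num

theorem ind_mono {p q : Prop} (h : p → q) : ind p ≤ ind q := by
  by_cases hp : p
  · rw [ind_true hp, ind_true (h hp)]
  · rw [ind_false hp]; exact ind_nonneg q

section ms

variable {Ω : Type} [Fintype Ω] {μ : Ω → ℝ}

theorem ms_nonneg (hμ : ∀ ω, 0 ≤ μ ω) (S : Set Ω) : 0 ≤ ms μ S :=
  sum_nonneg fun ω _ => mul_nonneg (hμ ω) (ind_nonneg _)

theorem ms_mono (hμ : ∀ ω, 0 ≤ μ ω) {S T : Set Ω} (h : S ⊆ T) : ms μ S ≤ ms μ T :=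
  sum_le_sum fun ω _ => mul_le_mul_of_nonneg_left (ind_mono fun a => h a) (hμ ω)

theorem ms_empty : ms μ (∅ : Set Ω) = 0 := by
  simp [ms, ind]

theorem ms_univ : ms μ (Set.univ : Set Ω) = ∑ ω, μ ω := by
  simp [ms, ind]

theorem ms_union_le (hμ : ∀ ω, 0 ≤ μ ω) (S T : Set Ω) : ms μ (S ∪ T) ≤ ms μ S + ms μ T := by
  unfold ms
  rw [← sum_add_distrib]
  refine sum_le_sum fun ω _ => ?_
  rw [← mul_add]
  refine mul_le_mul_of_nonneg_left ?_ (hμ ω)
  by_cases h : ω ∈ S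
  · rw [ind_true h]
    linarith [ind_le_one (ω ∈ S ∪ T), ind_nonneg (ω ∈ T)]
  · rw [ind_false h, zero_add]
    exact ind_mono fun a => a.resolve_left h

theorem ms_biUnion_le (hμ : ∀ ω, 0 ≤ μ ω) {ι : Type} (s : Finset ι) (D : ι → Set Ω) :
    ms μ {ω | ∃ i ∈ s, ω ∈ D i} ≤ ∑ i ∈ s, ms μ (D i) := by
  classical
  induction s using Finset.induction_on with
  | empty => simp [ms_empty]
  | insert a s ha ih =>
    rw [sum_insert ha]
    refine le_trans (ms_mono hμ (T := D a ∪ {ω | ∃ i ∈ s, ω ∈ D i}) ?_)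
      ((ms_union_le hμ _ _).trans (by linarith))
    rintro ω ⟨i, hi, h⟩
    rcases mem_insert.1 hi with rfl | hi
    · exact Or.inl h
    · exact Or.inr ⟨i, hi, h⟩

theorem nonempty_of_ms_pos {S : Set Ω} (h : 0 < ms μ S) : S.Nonempty := by
  by_contra hn
  rw [Set.not_nonempty_iff_eq_empty.1 hn, ms_empty] at h
  exact lt_irrefl _ h

end ms

section wt

variable {U : Type}

theorem wt_nonneg {a : ℝ} (ha : 0 ≤ a) (𝓑 : Finset (Finset U)) : 0 ≤ wt a 𝓑 :=
  sum_nonneg fun _ _ => pow_nonneg ha _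

theorem wt_empty (a : ℝ) : wt a (∅ : Finset (Finset U)) = 0 := by simp [wt]

theorem wt_mono {a b : ℝ} (ha : 0 ≤ a) (hab : a ≤ b) (𝓑 : Finset (Finset U)) :
    wt a 𝓑 ≤ wt b 𝓑 :=
  sum_le_sum fun _ _ => pow_le_pow_left₀ ha hab _

theorem wt_subset {a : ℝ} (ha : 0 ≤ a) {𝓑 𝓒 : Finset (Finset U)} (h : 𝓑 ⊆ 𝓒) :
    wt a 𝓑 ≤ wt a 𝓒 :=
  sum_le_sum_of_subset_of_nonneg h fun _ _ _ => pow_nonneg ha _

theorem wt_union_le [DecidableEq U] {a : ℝ} (ha : 0 ≤ a) (𝓑 𝓒 : Finset (Finset U)) :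
    wt a (𝓑 ∪ 𝓒) ≤ wt a 𝓑 + wt a 𝓒 := by
  unfold wt
  rw [← sum_union_inter]
  linarith [sum_nonneg (s := 𝓑 ∩ 𝓒) (f := fun B : Finset U => a ^ B.card)
    fun _ _ => pow_nonneg ha _]

theorem nonempty_of_wt {a : ℝ} (ha : 0 ≤ a) {𝓑 : Finset (Finset U)} (h : wt a 𝓑 ≤ 1 / 2)
    {B : Finset U} (hB : B ∈ 𝓑) : B.Nonempty := by
  rw [nonempty_iff_ne_empty]
  rintro rfl
  have : a ^ (∅ : Finset U).card ≤ wt a 𝓑 :=
    single_le_sum (f := fun B : Finset U => a ^ B.card) (fun _ _ => pow_nonneg ha _) hB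
  simp at this
  linarith

theorem Rich.mono {Ω : Type} [Fintype Ω] {μ : Ω → ℝ} {st : Ω → Finset U} {S : Set Ω}
    {t a b : ℝ} (h : Rich μ st S t a) (ha : 0 ≤ a) (hab : a ≤ b) : Rich μ st S t b :=
  fun 𝓑 hB => h 𝓑 ((wt_mono ha hab 𝓑).trans hB)

theorem Rich.lt_ms {Ω : Type} [Fintype Ω] {μ : Ω → ℝ} {st : Ω → Finset U} {S : Set Ω}
    {t a : ℝ} (h : Rich μ st S t a) : t < ms μ S := by
  have := h ∅ (by rw [wt_empty]; norm_num)
  simpa using this

end wt

/-- The sum over a union of finite sets is at most the sum of the sums. -/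
theorem sum_biUnion_le' {ι κ : Type} [DecidableEq κ] (s : Finset ι) (t : ι → Finset κ)
    (f : κ → ℝ) (hf : ∀ k, 0 ≤ f k) : ∑ k ∈ s.biUnion t, f k ≤ ∑ i ∈ s, ∑ k ∈ t i, f k := by
  classical
  induction s using Finset.induction_on with
  | empty => simp
  | insert a s ha ih =>
    rw [sum_insert ha, biUnion_insert]
    have := sum_union_inter (s₁ := t a) (s₂ := s.biUnion t) (f := f)
    linarith [sum_nonneg (s := t a ∩ s.biUnion t) (f := f) fun k _ => hf k]

/-- The sum over an image is at most the sum over the index set. -/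
theorem sum_image_le' {ι κ : Type} [DecidableEq κ] (s : Finset ι) (t : ι → κ)
    (f : κ → ℝ) (hf : ∀ k, 0 ≤ f k) : ∑ k ∈ s.image t, f k ≤ ∑ i ∈ s, f (t i) :=
  sum_image_le_of_nonneg fun k _ => hf k

section ex

variable {U : Type} [Fintype U] [DecidableEq U]

theorem pw_nonneg {ρ : ℝ} (h0 : 0 ≤ ρ) (h1 : ρ ≤ 1) (W : Finset U) : 0 ≤ pw ρ W :=
  prod_nonneg fun u _ => by split_ifs <;> linarith

/-- Expansion of a product of two-term sums over subsets. -/
theorem sum_prod_ite (f g : U → ℝ) :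
    ∑ W : Finset U, ∏ u, (if u ∈ W then f u else g u) = ∏ u, (f u + g u) := by
  rw [prod_add, powerset_univ]
  refine sum_congr rfl fun W _ => ?_
  rw [prod_ite]
  congr 1
  · refine prod_congr ?_ fun _ _ => rfl
    ext u; simp
  · refine prod_congr ?_ fun _ _ => rfl
    ext u; simp

theorem sum_pw (ρ : ℝ) : ∑ W : Finset U, pw ρ W = 1 := by
  unfold pw
  rw [sum_prod_ite (fun _ => ρ) (fun _ => 1 - ρ)]
  simp

theorem ms_pw (ρ : ℝ) (S : Set (Finset U)) : ms (pw ρ) S = Ex ρ fun W => ind (W ∈ S) := rfl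

theorem Ex_const (ρ c : ℝ) : Ex ρ (fun _ : Finset U => c) = c := by
  unfold Ex
  rw [← sum_mul, sum_pw, one_mul]

theorem Ex_add (ρ : ℝ) (φ ψ : Finset U → ℝ) :
    Ex ρ (fun W => φ W + ψ W) = Ex ρ φ + Ex ρ ψ := by
  unfold Ex
  rw [← sum_add_distrib]
  exact sum_congr rfl fun _ _ => mul_add _ _ _

theorem Ex_mul (ρ c : ℝ) (φ : Finset U → ℝ) : Ex ρ (fun W => c * φ W) = c * Ex ρ φ := by
  unfold Ex
  rw [mul_sum]
  exact sum_congr rfl fun _ _ => by ring

theorem Ex_mono {ρ : ℝ} (h0 : 0 ≤ ρ) (h1 : ρ ≤ 1) {φ ψ : Finset U → ℝ} (h : ∀ W, φ W ≤ ψ W) :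
    Ex ρ φ ≤ Ex ρ ψ :=
  sum_le_sum fun W _ => mul_le_mul_of_nonneg_left (h W) (pw_nonneg h0 h1 W)

theorem Ex_comm (ρ σ : ℝ) (φ : Finset U → Finset U → ℝ) :
    Ex ρ (fun A => Ex σ fun B => φ A B) = Ex σ fun B => Ex ρ fun A => φ A B := by
  unfold Ex
  simp only [mul_sum]
  rw [sum_comm]
  exact sum_congr rfl fun _ _ => sum_congr rfl fun _ _ => by ring

theorem ms_pw_le_one {ρ : ℝ} (h0 : 0 ≤ ρ) (h1 : ρ ≤ 1) (S : Set (Finset U)) :
    ms (pw ρ) S ≤ 1 := by
  rw [ms_pw]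
  exact (Ex_mono h0 h1 fun W => ind_le_one _).trans (Ex_const ρ 1).le

/-- Mixing two independent random sets by a pointwise operation. -/
theorem Ex_mix (ρ σ θ : ℝ) (op : Finset U → Finset U → Finset U) (o : Prop → Prop → Prop)
    (hop : ∀ A B u, u ∈ op A B ↔ o (u ∈ A) (u ∈ B))
    (hθ : θ = ρ * σ * ind (o True True) + ρ * (1 - σ) * ind (o True False)
      + (1 - ρ) * σ * ind (o False True) + (1 - ρ) * (1 - σ) * ind (o False False))
    (φ : Finset U → ℝ) : Ex ρ (fun A => Ex σ fun B => φ (op A B)) = Ex θ φ := by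
  have key : ∀ W : Finset U, ∑ A : Finset U, ∑ B : Finset U,
      pw ρ A * pw σ B * ind (op A B = W) = pw θ W := by
    intro W
    have e1 : ∀ A B : Finset U, pw ρ A * pw σ B * ind (op A B = W) =
        ∏ u, (if u ∈ B then (if u ∈ A then ρ else 1 - ρ) * σ * ind (o (u ∈ A) True ↔ u ∈ W)
          else (if u ∈ A then ρ else 1 - ρ) * (1 - σ) * ind (o (u ∈ A) False ↔ u ∈ W)) := by
      intro A B
      have e2 : ind (op A B = W) = ∏ u, ind (o (u ∈ A) (u ∈ B) ↔ u ∈ W) := by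
        by_cases h : op A B = W
        · rw [ind_true h]
          exact (prod_eq_one fun u _ => ind_true (by rw [← hop, h])).symm
        · rw [ind_false h]
          obtain ⟨u, hu⟩ : ∃ u, ¬ (u ∈ op A B ↔ u ∈ W) := by
            by_contra hc
            push Not at hc
            exact h (Finset.ext hc)
          exact (prod_eq_zero (mem_univ u) (ind_false (by rwa [← hop]))).symm
      rw [e2]
      unfold pw
      rw [← prod_mul_distrib, ← prod_mul_distrib]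
      refine prod_congr rfl fun u _ => ?_
      by_cases hB : u ∈ B
      · simp only [hB, if_true]
      · simp only [hB, if_false]
    simp only [e1, sum_prod_ite]
    have e3 : ∀ A : Finset U, ∏ u, ((if u ∈ A then ρ else 1 - ρ) * σ * ind (o (u ∈ A) True ↔ u ∈ W)
        + (if u ∈ A then ρ else 1 - ρ) * (1 - σ) * ind (o (u ∈ A) False ↔ u ∈ W)) =
        ∏ u, (if u ∈ A then ρ * σ * ind (o True True ↔ u ∈ W)
            + ρ * (1 - σ) * ind (o True False ↔ u ∈ W)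
          else (1 - ρ) * σ * ind (o False True ↔ u ∈ W)
            + (1 - ρ) * (1 - σ) * ind (o False False ↔ u ∈ W)) := by
      intro A
      refine prod_congr rfl fun u _ => ?_
      by_cases hA : u ∈ A
      · simp only [hA, if_true]
      · simp only [hA, if_false]
    simp only [e3, sum_prod_ite]
    unfold pw
    refine prod_congr rfl fun u _ => ?_
    have hn : ∀ p : Prop, ind (¬ p) = 1 - ind p := by
      intro p
      by_cases h : p
      · rw [ind_true h, ind_false (not_not.2 h)]; norm_num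
      · rw [ind_false h, ind_true h]; norm_num
    by_cases hW : u ∈ W
    · simp only [hW, if_true, iff_true]
      rw [hθ]; ring
    · simp only [hW, if_false, iff_false, hn]
      rw [hθ]; ring
  unfold Ex
  have e4 : ∀ A B : Finset U, φ (op A B) = ∑ W : Finset U, ind (op A B = W) * φ W := by
    intro A B
    rw [sum_eq_single (op A B)]
    · rw [ind_true rfl, one_mul]
    · intro W _ hW
      rw [ind_false (Ne.symm hW), zero_mul]
    · simp
  simp only [← key, sum_mul]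
  conv_rhs => rw [sum_comm]
  refine sum_congr rfl fun A _ => ?_
  conv_rhs => rw [sum_comm]
  rw [mul_sum]
  refine sum_congr rfl fun B _ => ?_
  rw [e4, mul_sum, mul_sum]
  exact sum_congr rfl fun W _ => by ring

theorem Ex_union (ρ σ : ℝ) (φ : Finset U → ℝ) :
    Ex ρ (fun A => Ex σ fun B => φ (A ∪ B)) = Ex (ρ + σ - ρ * σ) φ :=
  Ex_mix ρ σ _ (fun A B => A ∪ B) Or (fun _ _ _ => mem_union) (by simp [ind]; ring) φ

theorem Ex_inter (ρ σ : ℝ) (φ : Finset U → ℝ) :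
    Ex ρ (fun A => Ex σ fun B => φ (A ∩ B)) = Ex (ρ * σ) φ :=
  Ex_mix ρ σ _ (fun A B => A ∩ B) And (fun _ _ _ => mem_inter) (by simp [ind]) φ

theorem Ex_compl (ρ : ℝ) (φ : Finset U → ℝ) : Ex ρ (fun A => φ Aᶜ) = Ex (1 - ρ) φ := by
  rw [← Ex_mix ρ 0 (1 - ρ) (fun A _ => Aᶜ) (fun p _ => ¬ p) (fun _ _ _ => mem_compl)
    (by simp [ind]) φ]
  simp only [Ex_const]

theorem Ex_anti {ρ σ : ℝ} (h0 : 0 ≤ ρ) (h : ρ ≤ σ) (h1 : σ ≤ 1) {φ : Finset U → ℝ}
    (hφ : Antitone φ) : Ex σ φ ≤ Ex ρ φ := by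
  rcases eq_or_lt_of_le (h.trans h1) with e | e
  · have : σ = ρ := le_antisymm (by rw [e]; exact h1) h
    rw [this]
  · have hp : 0 < 1 - ρ := by linarith
    have e2 : σ = ρ + (σ - ρ) / (1 - ρ) - ρ * ((σ - ρ) / (1 - ρ)) := by
      field_simp; ring
    rw [e2, ← Ex_union]
    refine Ex_mono h0 e.le fun A => ?_
    refine (Ex_mono (div_nonneg (by linarith) hp.le) ((div_le_one hp).2 (by linarith))
      (ψ := fun _ => φ A) fun B => hφ subset_union_left).trans (Ex_const _ _).le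

theorem Ex_add_le {ρ σ : ℝ} (h0 : 0 ≤ ρ) (h0' : 0 ≤ σ) (h1 : ρ + σ ≤ 1) {φ : Finset U → ℝ}
    (hφ : Antitone φ) : Ex (ρ + σ) φ ≤ Ex ρ fun A => Ex σ fun B => φ (A ∪ B) := by
  rw [Ex_union]
  exact Ex_anti (by nlinarith) (by nlinarith [mul_nonneg h0 h0']) h1 hφ

theorem ms_supset (ρ : ℝ) (B : Finset U) : ms (pw ρ) {W | B ⊆ W} = ρ ^ B.card := by
  have e1 : ∀ W : Finset U, pw ρ W * ind (W ∈ {W : Finset U | B ⊆ W}) =
      ∏ u, (if u ∈ W then ρ else if u ∈ B then 0 else 1 - ρ) := by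
    intro W
    by_cases h : B ⊆ W
    · rw [ind_true (show W ∈ {W : Finset U | B ⊆ W} from h), mul_one]
      refine prod_congr rfl fun u _ => ?_
      by_cases hW : u ∈ W
      · simp [hW]
      · have : u ∉ B := fun a => hW (h a)
        simp [hW, this]
    · rw [ind_false (show W ∉ {W : Finset U | B ⊆ W} from h), mul_zero]
      obtain ⟨u, h1, h2⟩ := not_subset.1 h
      exact (prod_eq_zero (mem_univ u) (by simp [h1, h2])).symm
  unfold ms
  simp only [e1, sum_prod_ite]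
  have e2 : ∀ u, (ρ + if u ∈ B then 0 else 1 - ρ) = if u ∈ B then ρ else 1 := by
    intro u; split_ifs <;> ring
  simp only [e2]
  rw [prod_ite_mem]
  simp

theorem ms_disjoint (ρ : ℝ) (B : Finset U) :
    ms (pw ρ) {W | Disjoint B W} = (1 - ρ) ^ B.card := by
  rw [← ms_supset, ms_pw, ms_pw, ← Ex_compl]
  congr 1
  funext W
  congr 1
  simp only [Set.mem_ofPred_eq, eq_iff_iff]
  exact Finset.subset_compl_iff_disjoint_right.symm

theorem ms_cover_le {ρ : ℝ} (h0 : 0 ≤ ρ) (h1 : ρ ≤ 1) (𝓑 : Finset (Finset U)) :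
    ms (pw ρ) {W | ∃ B ∈ 𝓑, B ⊆ W} ≤ wt ρ 𝓑 := by
  have := ms_biUnion_le (pw_nonneg h0 h1) 𝓑 fun B => {W | B ⊆ W}
  simp only [ms_supset] at this
  exact this

theorem pw_union {ρ : ℝ} (h0 : 0 ≤ ρ) (h1 : ρ ≤ 1) {W T : Finset U} (h : Disjoint W T) :
    pw ρ W * ρ ^ T.card ≤ pw ρ (W ∪ T) := by
  have e : ρ ^ T.card = ∏ u, if u ∈ T then ρ else 1 := by
    rw [prod_ite_mem]; simp
  rw [e]
  unfold pw
  rw [← prod_mul_distrib]
  refine prod_le_prod (fun u _ => ?_) fun u _ => ?_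
  · split_ifs <;> nlinarith
  · by_cases hT : u ∈ T
    · have : u ∉ W := fun a => disjoint_left.1 h a hT
      simp only [hT, this, if_true, if_false, mem_union, or_true]
      nlinarith
    · simp [hT]

end ex

end Pool.Agent.Lib.MP_8a52c3_lc.Mono25
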