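import Pool.Agent.Lib.MP_8a52c3_lc.Mono25.PP

/-! The two-sided lemma. -/

namespace Pool.Agent.Lib.MP_8a52c3_lc.Mono25

open Finset

theorem two_sided {Ω U J : Type} [Fintype Ω] [Fintype U] [DecidableEq U] (μ : Ω → ℝ)
    (hμ : ∀ ω, 0 ≤ μ ω) (st : Ω → Finset U) (S : Set Ω) (t ahi alo : ℝ) (r0 : ℕ) (hr : 1 ≤ r0)
    (hst : ∀ ω, (st ω).card < 2 ^ r0) (hhi : 0 ≤ ahi) (hlo : 0 < alo) (hlo1 : alo ≤ 1)
    (hrel : 128 * (r0 : ℝ) ^ 2 * ahi ≤ alo) (hR : Rich μ st S t ahi) (s : Finset J)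
    (Sj : J → Set Ω) (tj : J → ℝ) (hsum : ∑ j ∈ s, tj j ≤ t) (good : J → Finset U → Prop)
    (hgood : ∀ j ∈ s, ∀ D, good j D → ∀ ω ∈ S, st ω ⊆ D → ω ∈ Sj j)
    (hP : ms (pw (1 / 2)) {D | ∀ j ∈ s, ¬ good j D} ≤ 1 / 4) :
    ∃ j ∈ s, Rich μ st (Sj j) (tj j) alo := by
  classical
  by_contra hc
  have hB : ∀ j, ∃ 𝓑 : Finset (Finset U), wt alo 𝓑 ≤ 1 / 2 ∧
      (j ∈ s → ms μ {ω | ω ∈ Sj j ∧ ∀ B ∈ 𝓑, ¬ B ⊆ st ω} ≤ tj j) := by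
    intro j
    by_cases hj : j ∈ s
    · by_contra hn
      refine hc ⟨j, hj, fun 𝓑 h1 => ?_⟩
      by_contra h2
      exact hn ⟨𝓑, h1, fun _ => not_lt.1 h2⟩
    · exact ⟨∅, by rw [wt_empty]; norm_num, fun h => absurd h hj⟩
  choose 𝓑 hB1 hB2 using hB
  obtain ⟨Exc, hExc⟩ : ∃ Exc : J → Set Ω,
      ∀ j, Exc j = {ω | ω ∈ Sj j ∧ ∀ B ∈ 𝓑 j, ¬ B ⊆ st ω} := ⟨_, fun _ => rfl⟩
  obtain ⟨ℋ, hℋ⟩ : ∃ ℋ : Set (Finset U),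
      ∀ T, T ∈ ℋ ↔ ∃ ω ∈ S, (∀ j ∈ s, ω ∉ Exc j) ∧ T = st ω :=
    ⟨{T | ∃ ω ∈ S, (∀ j ∈ s, ω ∉ Exc j) ∧ T = st ω}, fun _ => Iff.rfl⟩
  have hcard : ∀ T ∈ ℋ, T.card < 2 ^ r0 := by
    intro T hT
    obtain ⟨ω, -, -, rfl⟩ := (hℋ T).1 hT
    exact hst ω
  have hcov : ∀ 𝓒, Covers 𝓒 ℋ → 1 / 2 ≤ wt ahi 𝓒 := by
    intro 𝓒 h𝓒
    by_contra hlt
    have h1 := hR 𝓒 (not_le.1 hlt).le
    have h2 : ms μ {ω | ω ∈ S ∧ ∀ B ∈ 𝓒, ¬ B ⊆ st ω} ≤ ms μ {ω | ∃ j ∈ s, ω ∈ Exc j} := by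
      refine ms_mono hμ ?_
      rintro ω ⟨hω, hn⟩
      by_contra hx
      obtain ⟨B, hB, hsub⟩ := h𝓒 (st ω) ((hℋ _).2 ⟨ω, hω, fun j hj he => hx ⟨j, hj, he⟩, rfl⟩)
      exact hn B hB hsub
    have h3 := ms_biUnion_le hμ s Exc
    have h4 : ∑ j ∈ s, ms μ (Exc j) ≤ ∑ j ∈ s, tj j :=
      sum_le_sum fun j hj => by rw [hExc]; exact hB2 j hj
    linarith
  have hρ : 0 < 1 / 2 * alo := by linarith
  have hpp := pp r0 hr ahi (1 / 2 * alo) hhi hρ (by linarith) ℋ hcard hcov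
  have hpp2 : 8 * (r0 : ℝ) ^ 2 * ahi / (1 / 2 * alo) ≤ 1 / 8 := by
    rw [div_le_iff₀ hρ]
    linarith
  obtain ⟨N, hN⟩ : ∃ N : Set (Finset U), N = {W | ∀ T ∈ ℋ, ¬ T ⊆ W} := ⟨_, rfl⟩
  obtain ⟨M, hM⟩ : ∃ M : Set (Finset U), M = {D | ∀ j ∈ s, ¬ good j D} := ⟨_, rfl⟩
  rw [← hN, ms_pw, ← Ex_inter] at hpp
  rw [← hM, ms_pw] at hP
  have key : ∀ W1 : Finset U,
      (1 / 2 : ℝ) ≤ ind (W1 ∈ M) + Ex alo fun W2 => ind (W1 ∩ W2 ∈ N) := by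
    intro W1
    by_cases hW : W1 ∈ M
    · rw [ind_true hW]
      have := Ex_mono hlo.le hlo1 (φ := fun _ : Finset U => (0 : ℝ))
        (ψ := fun W2 => ind (W1 ∩ W2 ∈ N)) fun _ => ind_nonneg _
      rw [Ex_const] at this
      linarith
    · rw [ind_false hW]
      obtain ⟨j, hj, hg⟩ : ∃ j ∈ s, good j W1 := by
        by_contra hn
        exact hW (hM ▸ fun j hj hg => hn ⟨j, hj, hg⟩)
      have h1 := Ex_mono hlo.le hlo1 (φ := fun _ : Finset U => (1 : ℝ))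
        (ψ := fun W2 => ind (W1 ∩ W2 ∈ N) + ind (W2 ∈ {W : Finset U | ∃ B ∈ 𝓑 j, B ⊆ W})) ?_
      · rw [Ex_const, Ex_add, ← ms_pw alo {W : Finset U | ∃ B ∈ 𝓑 j, B ⊆ W}] at h1
        linarith [ms_cover_le hlo.le hlo1 (𝓑 j), hB1 j]
      · intro W2
        by_cases hn : W1 ∩ W2 ∈ N
        · rw [ind_true hn]
          linarith [ind_nonneg (W2 ∈ {W : Finset U | ∃ B ∈ 𝓑 j, B ⊆ W})]
        · have hx : W2 ∈ {W : Finset U | ∃ B ∈ 𝓑 j, B ⊆ W} := by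
            by_contra hx
            refine hn (hN ▸ fun T hT hsub => ?_)
            obtain ⟨ω, hω, he, rfl⟩ := (hℋ T).1 hT
            refine he j hj ?_
            rw [hExc]
            exact ⟨hgood j hj W1 hg ω hω (hsub.trans inter_subset_left),
              fun B hB hBs => hx ⟨B, hB, hBs.trans (hsub.trans inter_subset_right)⟩⟩
          rw [ind_true hx]
          linarith [ind_nonneg (W1 ∩ W2 ∈ N)]
  have h2 := Ex_mono (ρ := 1 / 2) (by norm_num) (by norm_num)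
    (φ := fun _ : Finset U => (1 / 2 : ℝ)) key
  rw [Ex_const, Ex_add] at h2
  linarith

end Pool.Agent.Lib.MP_8a52c3_lc.Mono25
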