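import Pool.Agent.Lib.MP_8a52c3_lc.Mono25.Step
import Pool.Agent.Lib.MP_8a52c3_lc.Mono25.TS

/-! Restoration after a message of the first player. -/

namespace Pool.Agent.Lib.MP_8a52c3_lc.Mono25

open Finset

variable {V E S : Type} [Fintype V] [Fintype E] [Fintype S] [DecidableEq V] [DecidableEq E]
  [DecidableEq S] {G : Gr V E} {P : Par}

theorem raA_card (H : Hyp G S P) {ν c : Node V E S} (hν : G.Closed ν.I) (hc : c.I.card ≤ P.r)
    (he : ExtA ν c) {C : Finset (E × S × S)} (hC : C ⊆ G.ua c \ G.ua ν) :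
    C.card ≤ 5 * (C.biUnion (G.fl ν.I)).card := by
  have hJ : (C.biUnion (G.fl ν.I)).image Prod.fst ⊆ c.I := by
    intro v hv
    obtain ⟨l, hl, rfl⟩ := mem_image.1 hv
    obtain ⟨k, hk, hl⟩ := mem_biUnion.1 hl
    obtain ⟨-, h2, h3⟩ := mem_ua.1 (mem_sdiff.1 (hC hk)).1
    rcases (mem_fl.1 hl).1 with rfl | rfl
    · exact h2
    · exact h3
  refine le_trans ?_ ((edge_count H.sparse hν _ ((card_le_card hJ).trans hc)).trans
    (Nat.mul_le_mul_left 5 card_image_le))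
  refine card_le_card_of_injOn Prod.fst (fun k hk => ?_) fun k hk k' hk' e => ?_
  · obtain ⟨h1, h2⟩ := mem_sdiff.1 (hC hk)
    refine mem_coe.2 (mem_sdiff.2 ⟨mem_ein.2 ⟨?_, ?_⟩, fun h => h2 ?_⟩)
    · by_cases h : G.src k.1 ∈ ν.I
      · exact mem_union_left _ h
      · exact mem_union_right _ (mem_image.2 ⟨(G.src k.1, k.2.1),
          mem_biUnion.2 ⟨k, hk, mem_fl.2 ⟨Or.inl rfl, h⟩⟩, rfl⟩)
    · by_cases h : G.dst k.1 ∈ ν.I
      · exact mem_union_left _ h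
      · exact mem_union_right _ (mem_image.2 ⟨(G.dst k.1, k.2.2),
          mem_biUnion.2 ⟨k, hk, mem_fl.2 ⟨Or.inr rfl, h⟩⟩, rfl⟩)
    · obtain ⟨a, b⟩ := mem_ein.1 h
      obtain ⟨a', b'⟩ := mem_u.1 (mem_ua.1 h1).1
      exact mem_ua.2 ⟨mem_u.2 ⟨a'.trans (he.2.2 _ a), b'.trans (he.2.2 _ b)⟩, a, b⟩
  · obtain ⟨a, b⟩ := mem_u.1 (mem_ua.1 (mem_sdiff.1 (hC hk)).1).1
    obtain ⟨a', b'⟩ := mem_u.1 (mem_ua.1 (mem_sdiff.1 (hC hk')).1).1
    exact Prod.ext e (Prod.ext (by rw [a, a', e]) (by rw [b, b', e]))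

theorem raA_pat {I : Finset V} {x : V → S} {C : Finset (E × S × S)} (hC : C ⊆ G.u x) :
    C.biUnion (G.fl I) ⊆ sX I x := by
  intro l hl
  obtain ⟨k, hk, hl⟩ := mem_biUnion.1 hl
  obtain ⟨a, b⟩ := mem_u.1 (hC hk)
  obtain ⟨h1, h2⟩ := mem_fl.1 hl
  refine mem_sX.2 ⟨h2, ?_⟩
  rcases h1 with rfl | rfl
  · exact a
  · exact b

theorem restoreA (H : Hyp G S P) {PX : Set (V → S)} {QY : Set (Finset (E × S × S))}
    {ν : Node V E S} {τ : ℝ} (hst : State G P PX QY ν τ P.aX (1 / P.R)) (hτ : P.tm ≤ τ)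
    {ι : Type} (s : Finset ι) (Ps : ι → Set (V → S)) (ω : ι → ℝ)
    (hω : ∀ i ∈ s, P.tm ≤ τ * ω i) (hsum : ∑ i ∈ s, ω i ≤ 1 / 2)
    (hcov : ∀ x ∈ PX ∩ G.XC ν, ∃ i ∈ s, x ∈ Ps i) :
    ∃ i ∈ s, ∃ c, State G P (Ps i) QY c (τ * ω i) (1 / P.Q) P.aY := by
  classical
  have hτ0 : 0 < τ := (Hyp.tm_pos P).trans_le hτ
  have hω0 : ∀ i ∈ s, 0 < τ * ω i := fun i hi => (Hyp.tm_pos P).trans_le (hω i hi)
  have hA := card_A_bound H hst.1 hτ0 (aliveX H hst.2.1) (aliveY H hst.2.2)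
  have hw := H.wpos ν
  choose! ps D hps hwps hD hcv using fun i (hi : i ∈ s) =>
    piecesA H ν hst.1 (τ * ω i) (hω0 i hi) (fun g hg => g_bound H (hω i hi) hτ
      ((mul_lt_mul_of_pos_right hg hτ0).trans hA)) (Ps i)
  have hs2 : ∑ i ∈ s, P.w ν * (τ * ω i) ≤ P.w ν * τ / 2 := by
    rw [← mul_sum, ← mul_sum, ← mul_assoc]
    have := mul_le_mul_of_nonneg_left hsum (mul_pos hw hτ0).le
    linarith
  have hcover : ∀ 𝓒, Covers 𝓒 {T | ∃ j ∈ s.sigma ps, T = G.ua j.2 \ G.ua ν} →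
      1 / 2 ≤ wt P.aS 𝓒 := by
    intro 𝓒 h𝓒
    by_contra hn
    have h1 : wt P.aX ((𝓒.filter fun C => ∃ j ∈ s.sigma ps, C ⊆ G.ua j.2 \ G.ua ν).image
        fun C => C.biUnion (G.fl ν.I)) ≤ 1 / 2 := by
      refine (sum_image_le' _ _ (fun B : Finset (V × S) => P.aX ^ B.card)
        fun B => pow_nonneg H.aX_pos.le _).trans ?_
      refine le_trans (sum_le_sum fun C hC => ?_)
        ((wt_subset H.aS_pos.le (filter_subset _ 𝓒)).trans (not_le.1 hn).le)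
      obtain ⟨j, hj, hC⟩ := (mem_filter.1 hC).2
      obtain ⟨h2, h3, -⟩ := hps j.1 (mem_sigma.1 hj).1 j.2 (mem_sigma.1 hj).2
      rw [Par.aX, ← pow_mul]
      exact pow_le_pow_of_le_one H.aS_pos.le (by linarith [H.aS_le])
        (raA_card H hst.1.2.2 h2.2.1 h3 hC)
    have h2 := (hst.2.1 _ h1).trans_le (ms_mono (T := {x | ∃ i ∈ s, x ∈ D i}) muX_nonneg ?_)
    · have h3 := (ms_biUnion_le muX_nonneg s D).trans (sum_le_sum hD)
      rw [← mul_sum] at h3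
      linarith
    · rintro x ⟨hx, hB⟩
      obtain ⟨i, hi, hxi⟩ := hcov x hx
      rcases hcv i hi x ⟨hxi, hx.2⟩ with h | ⟨c, hc, hxc⟩
      · exact ⟨i, hi, h⟩
      · have hj : (⟨i, c⟩ : Σ _ : ι, Node V E S) ∈ s.sigma ps := mem_sigma.2 ⟨hi, hc⟩
        obtain ⟨C, hC, hCs⟩ := h𝓒 _ ⟨_, hj, rfl⟩
        exact absurd (raA_pat (hCs.trans (sdiff_subset.trans (ua_subset_u hxc.1))))
          (hB _ (mem_image_of_mem _ (mem_filter.2 ⟨hC, _, hj, hCs⟩)))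
  obtain ⟨j, hj, hR⟩ := two_sided (pw P.p) H.muY (sY ν.A) (QY ∩ G.YC ν) (P.w ν * τ) (1 / P.R)
    P.aY P.r0 H.r01 (fun Z => (card_le_univ _).trans_lt H.con) (one_div_pos.2 H.Rpos).le H.aY_pos
    (by linarith [H.aY_le]) H.hR hst.2.2 (s.sigma ps) (fun j => QY ∩ G.YC j.2)
    (fun j => P.w j.2 * (τ * ω j.1)) (by
      rw [sum_sigma]
      refine le_trans (sum_le_sum fun i hi => ?_) (hs2.trans (half_le_self (mul_pos hw hτ0).le))
      exact (sum_mul (ps i) P.w (τ * ω i)).symm.trans_le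
        (mul_le_mul_of_nonneg_right (hwps i hi) (hω0 i hi).le))
    (fun j D => Disjoint (G.ua j.2 \ G.ua ν) D) (by
      intro j hj W hW Z hZ hZW
      obtain ⟨-, h3, h4⟩ := hps j.1 (mem_sigma.1 hj).1 j.2 (mem_sigma.1 hj).2
      obtain ⟨x, -, hx⟩ := nonempty_of_ms_pos
        ((mul_pos (H.wpos j.2) (hω0 _ (mem_sigma.1 hj).1)).trans h4.lt_ms)
      refine ⟨hZ.1, h3.1 ▸ hZ.2.1, disjoint_left.2 fun k hk hk' => ?_⟩
      refine disjoint_left.1 hW (mem_sdiff.2 ⟨hk', disjoint_left.1 hZ.2.2 hk⟩)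
        (hZW (mem_sdiff.2 ⟨hk, ?_⟩))
      rw [← h3.1]
      exact disjoint_left.1 hx.2 (ua_subset_u hx.1 hk')) (by
      have h1 := pp P.r0 H.r01 P.aS (1 / 2) H.aS_pos.le (by norm_num) (by norm_num) _
        (fun T _ => (card_le_univ _).trans_lt H.con) hcover
      have h2 : 8 * (P.r0 : ℝ) ^ 2 * P.aS / (1 / 2) = 1 / 4 := by
        have := H.r0R
        unfold Par.aS
        field_simp
        norm_num
      rw [h2, ms_pw, show (1 / 2 : ℝ) = 1 - 1 / 2 by norm_num, ← Ex_compl] at h1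
      refine le_trans (Ex_mono (by norm_num) (by norm_num) fun W => ind_mono fun hW => ?_) h1
      rintro T ⟨j, hj, rfl⟩ hT
      exact hW j hj (le_compl_iff_disjoint_right.1 hT))
  obtain ⟨h2, h3, h4⟩ := hps j.1 (mem_sigma.1 hj).1 j.2 (mem_sigma.1 hj).2
  refine ⟨j.1, (mem_sigma.1 hj).1, j.2, h2, h4, ?_⟩
  rw [RY, h3.1]
  exact hR

end Pool.Agent.Lib.MP_8a52c3_lc.Mono25
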