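import Pool.Agent.Lib.MP_8a52c3_lc.Mono25.Step
import Pool.Agent.Lib.MP_8a52c3_lc.Mono25.TS
import Pool.Agent.Lib.MP_8a52c3_lc.Mono25.Kill

/-! Restoration after a message of the second player. -/

namespace Pool.Agent.Lib.MP_8a52c3_lc.Mono25

open Finset

variable {V E S : Type} [Fintype V] [Fintype E] [Fintype S] [DecidableEq V] [DecidableEq E]
  [DecidableEq S] {G : Gr V E} {P : Par}

/-- Few patterns have all their free literals inside a small set. -/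
theorem rb_in (H : Hyp G S P) {I : Finset V} (hI : G.Closed I) (B : Finset (V × S))
    (hB : B.card ≤ 2 * 2 ^ P.r1) :
    (univ.filter fun c : E × S × S => (G.fl I c).Nonempty ∧ G.fl I c ⊆ B).card ≤
      5 * Fintype.card S ^ 2 * B.card := by
  have hJ : (B.image Prod.fst).card ≤ B.card := card_image_le
  have h1 := edge_count H.sparse hI (B.image Prod.fst) (hJ.trans hB)
  have h2 : (univ.filter fun c : E × S × S => (G.fl I c).Nonempty ∧ G.fl I c ⊆ B) ⊆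
      (G.ein (I ∪ B.image Prod.fst) \ G.ein I) ×ˢ (univ : Finset (S × S)) := by
    intro c hc
    obtain ⟨⟨l, hl⟩, hsub⟩ := (mem_filter.1 hc).2
    refine mem_product.2 ⟨mem_sdiff.2 ⟨mem_ein.2 ⟨?_, ?_⟩, fun h => ?_⟩, mem_univ _⟩
    · by_cases h : G.src c.1 ∈ I
      · exact mem_union_left _ h
      · exact mem_union_right _
          (mem_image.2 ⟨(G.src c.1, c.2.1), hsub (mem_fl.2 ⟨Or.inl rfl, h⟩), rfl⟩)
    · by_cases h : G.dst c.1 ∈ I
      · exact mem_union_left _ h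
      · exact mem_union_right _
          (mem_image.2 ⟨(G.dst c.1, c.2.2), hsub (mem_fl.2 ⟨Or.inr rfl, h⟩), rfl⟩)
    · obtain ⟨h3, h4⟩ := mem_ein.1 h
      obtain ⟨h5 | h5, h6⟩ := mem_fl.1 hl
      · rw [h5] at h6
        exact h6 h3
      · rw [h5] at h6
        exact h6 h4
  refine (card_le_card h2).trans ?_
  rw [card_product, card_univ, Fintype.card_prod]
  calc (G.ein (I ∪ B.image Prod.fst) \ G.ein I).card * (Fintype.card S * Fintype.card S)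
      ≤ 5 * B.card * (Fintype.card S * Fintype.card S) :=
        Nat.mul_le_mul_right _ (h1.trans (Nat.mul_le_mul_left 5 hJ))
    _ = _ := by ring

/-- An assignment whose free literals miss every new pattern lies in the cell of the piece. -/
theorem rb_good {ν c : Node V E S} (hc : ExtB ν c) {Z : Finset (E × S × S)} (hZ : Z ∈ G.YC c)
    {D : Finset (V × S)}
    (hD : ∀ k ∈ (c.A \ ν.A).filter (fun k => (G.fl ν.I k).Nonempty), ∃ l ∈ G.fl ν.I k, l ∉ D)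
    {x : V → S} (hx : x ∈ G.XC ν) (hs : sX ν.I x ⊆ D) : x ∈ G.XC c := by
  obtain ⟨-, hI, hxx, -⟩ := hc
  refine ⟨by rw [hI, hxx]; exact hx.1, disjoint_left.2 fun k hk hkA => ?_⟩
  have hk0 : k ∉ ν.A := disjoint_left.1 hx.2 hk
  obtain ⟨e1, e2⟩ := mem_u.1 hk
  by_cases hne : (G.fl ν.I k).Nonempty
  · obtain ⟨l, hl, hlD⟩ := hD k (mem_filter.2 ⟨mem_sdiff.2 ⟨hkA, hk0⟩, hne⟩)
    obtain ⟨h5, h6⟩ := mem_fl.1 hl
    refine hlD (hs (mem_sX.2 ⟨h6, ?_⟩))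
    rcases h5 with h5 | h5
    · rw [h5]
      exact e1
    · rw [h5]
      exact e2
  · have h1 : G.src k.1 ∈ ν.I := by
      by_contra h
      exact hne ⟨(G.src k.1, k.2.1), mem_fl.2 ⟨Or.inl rfl, h⟩⟩
    have h2 : G.dst k.1 ∈ ν.I := by
      by_contra h
      exact hne ⟨(G.dst k.1, k.2.2), mem_fl.2 ⟨Or.inr rfl, h⟩⟩
    refine disjoint_left.1 hZ.2 (hZ.1 hkA) (mem_ua.2 ?_)
    rw [hI, hxx, mem_u, ← hx.1 _ h1, ← hx.1 _ h2]
    exact ⟨⟨e1, e2⟩, h1, h2⟩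

theorem restoreB (H : Hyp G S P) {PX : Set (V → S)} {QY : Set (Finset (E × S × S))}
    {ν : Node V E S} {τ : ℝ} (hst : State G P PX QY ν τ (1 / P.Q) P.aY) (hτ : P.tm ≤ τ)
    {ι : Type} (s : Finset ι) (Qs : ι → Set (Finset (E × S × S))) (ω : ι → ℝ)
    (hω : ∀ i ∈ s, P.tm ≤ τ * ω i) (hsum : ∑ i ∈ s, ω i ≤ 1 / 2)
    (hcov : ∀ Z ∈ QY ∩ G.YC ν, ∃ i ∈ s, Z ∈ Qs i) :
    ∃ i ∈ s, ∃ c, State G P PX (Qs i) c (τ * ω i) P.aX (1 / P.R) := by
  obtain ⟨hv, hX, hY⟩ := hst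
  have htm := Hyp.tm_pos P
  have hτ0 : 0 < τ := htm.trans_le hτ
  have hτω : ∀ i ∈ s, 0 < τ * ω i := fun i hi => htm.trans_le (hω i hi)
  have hω0 : ∀ i ∈ s, 0 < ω i := fun i hi => (mul_pos_iff_of_pos_left hτ0).1 (hτω i hi)
  have hω1 : ∀ i ∈ s, ω i ≤ 1 / 2 := fun i hi =>
    (single_le_sum (fun j hj => (hω0 j hj).le) hi).trans hsum
  have hwν := H.wpos ν
  have hex : ∀ i, ∃ (ps : Finset (Node V E S)) (D : Set (Finset (E × S × S))), i ∈ s →
      (∀ c ∈ ps, ExtB ν c ∧ RY G P (Qs i) c (τ * ω i) (1 / P.R)) ∧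
      ∑ c ∈ ps, P.w c ≤ P.w ν ∧ ms (pw P.p) D ≤ 2 * (P.w ν * (τ * ω i)) ∧
      ∀ Z ∈ Qs i ∩ G.YC ν, Z ∈ D ∨ ∃ c ∈ ps, Z ∈ G.YC c := by
    intro i
    by_cases hi : i ∈ s
    · obtain ⟨ps, D, h⟩ := piecesB H ν (τ * ω i) (hτω i hi) (Qs i)
      exact ⟨ps, D, fun _ => h⟩
    · exact ⟨∅, ∅, fun h => absurd h hi⟩
  choose ps D hps using hex
  have hgd : ∀ c : Node V E S, ExtB ν c → G.Good P.r c.g c.I := fun c hc => by
    rw [hc.1, hc.2.1]
    exact hv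
  let T : Node V E S → Finset (E × S × S) := fun c =>
    (c.A \ ν.A).filter fun k => (G.fl ν.I k).Nonempty
  have hS1 : 1 ≤ Fintype.card S := by
    have h1 : (0 : ℝ) < Fintype.card S := by
      rw [H.cardS]
      exact pow_pos H.Qpos 2
    exact_mod_cast h1
  have hkill := kill (G.fl ν.I) (fun c => (card_filter_le _ _).trans card_le_two)
    (5 * Fintype.card S ^ 2) P.r0 P.r1 (by nlinarith) H.r01 H.r10 H.lit
    (rb_in H hv.2.2) P.aY H.aY_pos.le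
    (by
      have h1 := H.r0R
      have h2 := H.Qpos
      push_cast
      rw [H.cardS]
      unfold Par.aY
      apply le_of_eq
      field_simp)
    {U | ∃ i ∈ s, ∃ c ∈ ps i, U = T c}
    (by
      rintro U ⟨i, -, c, -, rfl⟩ k hk
      exact (mem_filter.1 hk).2)
    (by
      rintro U ⟨i, hi, c, hc, rfl⟩
      obtain ⟨hE, hR⟩ := (hps i hi).1 c hc
      have h1 : P.Q ^ c.g * (τ * ω i) < P.R ^ c.A.card := by
        have h2 := aliveX H hX
        have h3 : P.R ^ ν.A.card ≤ P.R ^ c.A.card :=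
          pow_le_pow_right₀ (by linarith [H.R4]) (card_le_card hE.2.2.2)
        have h4 : τ * ω i ≤ τ := by nlinarith [hω1 i hi]
        have h5 := mul_le_mul_of_nonneg_left h4 (pow_pos H.Qpos ν.g).le
        rw [hE.1]
        linarith
      have h2 := A_bound H (hω i hi) (card_A_bound H (hgd c hE) (hτω i hi) h1 (aliveY H hR))
      exact lt_of_le_of_lt ((card_filter_le _ _).trans (card_le_card sdiff_subset)) h2)
    (by
      intro 𝓑 hB
      by_contra hn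
      have h1 := hY 𝓑 (not_lt.1 hn)
      have h2 : {Z | Z ∈ QY ∩ G.YC ν ∧ ∀ B ∈ 𝓑, ¬ B ⊆ sY ν.A Z} ⊆ {Z | ∃ i ∈ s, Z ∈ D i} := by
        rintro Z ⟨hZ, hZB⟩
        obtain ⟨i, hi, hZi⟩ := hcov Z hZ
        rcases (hps i hi).2.2.2 Z ⟨hZi, hZ.2⟩ with h | ⟨c, hc, h⟩
        · exact ⟨i, hi, h⟩
        · obtain ⟨B, hB1, hB2⟩ := hB (T c) ⟨i, hi, c, hc, rfl⟩
          exact absurd (hB2.trans ((filter_subset _ _).trans
            (sdiff_subset_sdiff h.1 Subset.rfl))) (hZB B hB1)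
      have h3 := (ms_mono H.muY h2).trans (ms_biUnion_le H.muY s D)
      have h4 : ∑ i ∈ s, ms (pw P.p) (D i) ≤ ∑ i ∈ s, 2 * (P.w ν * τ) * ω i :=
        sum_le_sum fun i hi => ((hps i hi).2.2.1).trans (le_of_eq (by ring))
      rw [← mul_sum] at h4
      nlinarith [mul_pos hwν hτ0])
  obtain ⟨⟨i, c⟩, hj, hR⟩ := two_sided (J := Σ _ : ι, Node V E S) (muX V S) muX_nonneg (sX ν.I)
    (PX ∩ G.XC ν) (P.w ν * τ) (1 / P.Q) P.aX P.r0 H.r01
    (fun x => lt_of_le_of_lt (card_le_univ _) H.lit) (one_div_pos.2 H.Qpos).le H.aX_pos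
    (by linarith [H.aX_le]) H.hQ hX (s.sigma ps) (fun j => PX ∩ G.XC j.2)
    (fun j => P.w j.2 * (τ * ω j.1))
    (by
      rw [sum_sigma]
      have h4 : ∑ i ∈ s, ∑ c ∈ ps i, P.w c * (τ * ω i) ≤ ∑ i ∈ s, P.w ν * τ * ω i := by
        refine sum_le_sum fun i hi => ?_
        rw [← sum_mul, mul_assoc]
        exact mul_le_mul_of_nonneg_right (hps i hi).2.1 (hτω i hi).le
      rw [← mul_sum] at h4
      refine h4.trans ?_
      nlinarith [mul_pos hwν hτ0])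
    (fun j U => ∀ k ∈ T j.2, ∃ l ∈ G.fl ν.I k, l ∉ U)
    (by
      rintro ⟨i, c⟩ hj U hU x hx hs
      obtain ⟨hi, hc⟩ := mem_sigma.1 hj
      obtain ⟨hE, hR⟩ := (hps i hi).1 c hc
      obtain ⟨Z, hZ⟩ := nonempty_of_ms_pos ((mul_pos (H.wpos c) (hτω i hi)).trans hR.lt_ms)
      exact ⟨hx.1, rb_good hE hZ.2 hU hx.2 hs⟩)
    (by
      refine le_trans (ms_mono (pw_nonneg (by norm_num) (by norm_num)) ?_) hkill
      rintro U hU _ ⟨i, hi, c, hc, rfl⟩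
      exact hU ⟨i, c⟩ (mem_sigma.2 ⟨hi, hc⟩))
  obtain ⟨hi, hc⟩ := mem_sigma.1 hj
  obtain ⟨hE, hRY⟩ := (hps i hi).1 c hc
  refine ⟨i, hi, c, hgd c hE, ?_, hRY⟩
  unfold RX
  rw [hE.2.1]
  exact hR

end Pool.Agent.Lib.MP_8a52c3_lc.Mono25
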