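import Pool.Agent.Lib.MP_8a52c3_lc.Mono25.Solv

/-! Rectangles without a state are solved after a small deletion. -/

namespace Pool.Agent.Lib.MP_8a52c3_lc.Mono25

open Finset

variable {V E S : Type} [Fintype V] [Fintype E] [Fintype S] [DecidableEq V] [DecidableEq E]
  [DecidableEq S] {G : Gr V E} {P : Par}

/-- The budget of a node. -/
noncomputable def redBud (P : Par) (τ : ℝ) (ν : Node V E S) : ℝ :=
  P.w ν / (τ ^ 10 * 4 ^ (ν.g + ν.A.card))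

/-- The invariant of the recursion. -/
def RedInv (G : Gr V E) (P : Par) (τ : ℝ) (ν : Node V E S) : Prop :=
  G.Good P.r ν.g ν.I ∧ P.R ^ ν.A.card * τ < 1 ∧ P.Q ^ ν.g * τ * τ < 1

theorem red_bud_ge (H : Hyp G S P) {τ : ℝ} (τ0 : 0 < τ) {ν : Node V E S} (h : RedInv G P τ ν) :
    1 ≤ redBud P τ ν := by
  obtain ⟨h1, h2, h3⟩ := h
  have hQ := H.Qpos
  have hR := H.Rpos
  have k1 : P.Q ^ (2 * ν.I.card) ≤ (P.Q ^ ν.g) ^ 4 := by
    rw [← pow_mul]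
    exact pow_le_pow_right₀ (by linarith [H.Q4]) (by have := good_card H.sparse h1; omega)
  have k2 : (4 : ℝ) ^ (ν.g + ν.A.card) ≤ P.Q ^ ν.g * P.R ^ ν.A.card := by
    rw [pow_add]
    exact mul_le_mul (pow_le_pow_left₀ (by norm_num) H.Q4 _)
      (pow_le_pow_left₀ (by norm_num) H.R4 _) (by positivity) (by positivity)
  have k3 : (P.Q ^ ν.g * τ * τ) ^ 4 ≤ 1 := pow_le_one₀ (by positivity) h3.le
  have k4 : (P.R ^ ν.A.card * τ) ^ 2 ≤ 1 := pow_le_one₀ (by positivity) h2.le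
  unfold redBud Par.w
  rw [div_div, one_le_div (by positivity)]
  calc P.Q ^ (2 * ν.I.card) * P.R ^ ν.A.card * (τ ^ 10 * 4 ^ (ν.g + ν.A.card))
      ≤ (P.Q ^ ν.g) ^ 4 * P.R ^ ν.A.card * (τ ^ 10 * (P.Q ^ ν.g * P.R ^ ν.A.card)) := by gcongr
    _ = P.Q ^ ν.g * ((P.Q ^ ν.g * τ * τ) ^ 4 * (P.R ^ ν.A.card * τ) ^ 2) := by ring
    _ ≤ P.Q ^ ν.g := mul_le_of_le_one_right (by positivity) (mul_le_one₀ k3 (by positivity) k4)

theorem red_bud_step (H : Hyp G S P) {τ : ℝ} (τ0 : 0 < τ) {ν c : Node V E S}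
    (h : ν.g + ν.A.card < c.g + c.A.card) :
    4 * redBud P τ c ≤ redBud P τ ν * (P.w c / P.w ν) := by
  have h1 := H.wpos ν
  have h2 := H.wpos c
  have e : redBud P τ ν * (P.w c / P.w ν) =
      4 * (P.w c / (τ ^ 10 * 4 ^ (ν.g + ν.A.card + 1))) := by
    unfold redBud
    rw [pow_succ (4 : ℝ)]
    field_simp
  have k : (4 : ℝ) ^ (ν.g + ν.A.card + 1) ≤ 4 ^ (c.g + c.A.card) :=
    pow_le_pow_right₀ (by norm_num) h
  rw [e]
  unfold redBud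
  gcongr

theorem red_mass (H : Hyp G S P) {τ : ℝ} (ch : Finset (Node V E S))
    (DX : Node V E S → Set (V → S)) (DY : Node V E S → Set (Finset (E × S × S)))
    (h : ∀ c ∈ ch, ms (muX V S) (DX c) + ms (pw P.p) (DY c) ≤ 2 * (P.w c * τ)) :
    ms (muX V S) {x | ∃ c ∈ ch, x ∈ DX c} + ms (pw P.p) {Z | ∃ c ∈ ch, Z ∈ DY c} ≤
      2 * τ * ∑ c ∈ ch, P.w c := by
  have h1 := ms_biUnion_le (μ := muX V S) muX_nonneg ch DX
  have h2 := ms_biUnion_le H.muY ch DY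
  have h3 := sum_le_sum h
  rw [sum_add_distrib] at h3
  have h4 : ∑ c ∈ ch, 2 * (P.w c * τ) = 2 * τ * ∑ c ∈ ch, P.w c := by
    rw [mul_sum]
    exact sum_congr rfl fun c _ => by ring
  linarith

theorem red_omega (H : Hyp G S P) {ν : Node V E S} {ch : Finset (Node V E S)}
    (h : ∑ c ∈ ch, P.w c ≤ P.w ν / 2) : ∑ c ∈ ch, P.w c / P.w ν ≤ 1 / 2 := by
  rw [← sum_div, div_le_iff₀ (H.wpos ν)]
  linarith

theorem red_main (H : Hyp G S P) (PX : Set (V → S)) (QY : Set (Finset (E × S × S))) (τ : ℝ)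
    (hτ : P.tm ≤ τ) (hn : ∀ ν : Node V E S, ¬ State G P PX QY ν τ (1 / P.Q) (1 / P.R)) (m : ℕ) :
    ∀ ν : Node V E S,
      Fintype.card V - ν.I.card + (Fintype.card (E × S × S) - ν.A.card) = m → RedInv G P τ ν →
      ∃ (DX : Set (V → S)) (DY : Set (Finset (E × S × S))),
        ms (muX V S) DX + ms (pw P.p) DY ≤ 2 * (P.w ν * τ) ∧
        Solv G.u ((PX ∩ G.XC ν) \ DX) ((QY ∩ G.YC ν) \ DY) (redBud P τ ν) := by
  have τ0 : 0 < τ := (Hyp.tm_pos P).trans_le hτ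
  induction m using Nat.strong_induction_on with
  | _ m ih =>
  rintro ν rfl ⟨hv, hR, hQ⟩
  by_cases hX : RX G P PX ν τ (1 / P.Q)
  · obtain ⟨ch, D, h1, h2, h3, h4⟩ := stepB H ν τ τ0 QY fun k => hn ν ⟨hv, hX, k⟩
    have inv : ∀ c ∈ ch, RedInv G P τ c := by
      intro c hc
      obtain ⟨⟨e1, e2, -, -⟩, k1, k2⟩ := h1 c hc
      have hv' : G.Good P.r c.g c.I := by rw [e1, e2]; exact hv
      refine ⟨hv', card_A_bound H hv' τ0 ?_ k2, by rw [e1]; exact hQ⟩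
      rw [e1]
      exact (aliveX H hX).trans_le (pow_le_pow_right₀ (by linarith [H.R4]) k1.le)
    have key := fun c (hc : c ∈ ch) => ih _ (by
      obtain ⟨⟨-, e2, -, -⟩, k1, -⟩ := h1 c hc
      have := card_le_univ c.A
      rw [e2]
      omega) c rfl (inv c hc)
    choose! DX DY k1 k2 using key
    have bud : ∀ c ∈ ch, 4 * redBud P τ c ≤ redBud P τ ν * (P.w c / P.w ν) := fun c hc =>
      red_bud_step H τ0 (by have := (h1 c hc).1.1; have := (h1 c hc).2.1; omega)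
    refine ⟨{x | ∃ c ∈ ch, x ∈ DX c}, D ∪ {Z | ∃ c ∈ ch, Z ∈ DY c}, ?_, ?_⟩
    · have := red_mass H ch DX DY k1
      have := ms_union_le H.muY D {Z | ∃ c ∈ ch, Z ∈ DY c}
      linarith
    refine Solv.bob _ _ _ _ ch (fun c => (QY ∩ G.YC c) \ DY c) (fun c => P.w c / P.w ν)
      (red_omega H h2) (fun c hc => ⟨div_pos (H.wpos c) (H.wpos ν), ?_⟩) (fun Z hZ => ?_)
      fun c hc => ?_
    · linarith [bud c hc, red_bud_ge H τ0 (inv c hc)]
    · obtain k | ⟨c, hc, k⟩ := h4 Z hZ.1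
      · exact absurd (Or.inl k) hZ.2
      · exact Or.inl ⟨c, hc, ⟨hZ.1.1, k⟩, fun j => hZ.2 (Or.inr ⟨c, hc, j⟩)⟩
    · have b1 := bud c hc
      have b2 := red_bud_ge H τ0 (inv c hc)
      refine Solv.alice _ _ _ Unit {()} (fun _ => (PX ∩ G.XC c) \ DX c) (fun _ => 1 / 2)
        (by simp) (fun _ _ => ⟨by norm_num, by linarith⟩) (fun x hx => ?_)
        fun _ _ => (k2 c hc).mono _ _ _ subset_rfl subset_rfl (by linarith)
      obtain ⟨⟨-, e2, e3, -⟩, -⟩ := h1 c hc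
      by_cases k : Disjoint (G.u x) c.A
      · refine Or.inl ⟨(), mem_singleton_self _, ⟨hx.1.1, ?_, k⟩, fun j => hx.2 ⟨c, hc, j⟩⟩
        rw [e2, e3]
        exact hx.1.2.1
      · obtain ⟨a, a1, a2⟩ := not_disjoint_iff.1 k
        exact Or.inr ⟨a, a1, fun Z hZ => hZ.1.2.1 a2⟩
  · have lt : ∀ g : ℕ, P.Q ^ g * τ < P.R ^ ν.A.card → P.Q ^ g * τ * τ < 1 := fun g k =>
      (mul_lt_mul_of_pos_right k τ0).trans hR
    obtain ⟨ch, D, h1, h2, h3, h4⟩ :=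
      stepA H ν hv τ τ0 (fun g k => g_bound H hτ hτ (lt g k)) PX hX
    have inv : ∀ c ∈ ch, RedInv G P τ c := by
      intro c hc
      obtain ⟨k0, ⟨e1, -, -⟩, -, -, k1⟩ := h1 c hc
      exact ⟨k0, by rw [e1]; exact hR, lt _ k1⟩
    have key := fun c (hc : c ∈ ch) => ih _ (by
      obtain ⟨-, ⟨e1, -, -⟩, -, k1, -⟩ := h1 c hc
      have := card_le_univ c.I
      rw [e1]
      omega) c rfl (inv c hc)
    choose! DX DY k1 k2 using key
    have bud : ∀ c ∈ ch, 4 * redBud P τ c ≤ redBud P τ ν * (P.w c / P.w ν) := fun c hc =>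
      red_bud_step H τ0 (by
        obtain ⟨-, ⟨e1, -, -⟩, k, -⟩ := h1 c hc
        rw [e1]
        omega)
    refine ⟨D ∪ {x | ∃ c ∈ ch, x ∈ DX c}, {Z | ∃ c ∈ ch, Z ∈ DY c}, ?_, ?_⟩
    · have := red_mass H ch DX DY k1
      have := ms_union_le (μ := muX V S) muX_nonneg D {x | ∃ c ∈ ch, x ∈ DX c}
      linarith
    refine Solv.alice _ _ _ _ ch (fun c => (PX ∩ G.XC c) \ DX c) (fun c => P.w c / P.w ν)
      (red_omega H h2) (fun c hc => ⟨div_pos (H.wpos c) (H.wpos ν), ?_⟩) (fun x hx => ?_)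
      fun c hc => ?_
    · linarith [bud c hc, red_bud_ge H τ0 (inv c hc)]
    · obtain k | ⟨c, hc, k⟩ := h4 x hx.1
      · exact absurd (Or.inl k) hx.2
      · exact Or.inl ⟨c, hc, ⟨hx.1.1, k⟩, fun j => hx.2 (Or.inr ⟨c, hc, j⟩)⟩
    · have b1 := bud c hc
      have b2 := red_bud_ge H τ0 (inv c hc)
      refine Solv.bob _ _ _ Unit {()} (fun _ => (QY ∩ G.YC c) \ DY c) (fun _ => 1 / 2)
        (by simp) (fun _ _ => ⟨by norm_num, by linarith⟩) (fun Z hZ => ?_)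
        fun _ _ => (k2 c hc).mono _ _ _ subset_rfl subset_rfl (by linarith)
      obtain ⟨-, ⟨e1, -, -⟩, -⟩ := h1 c hc
      by_cases k : Disjoint Z (G.ua c)
      · refine Or.inl ⟨(), mem_singleton_self _, ⟨hZ.1.1, ?_, k⟩, fun j => hZ.2 ⟨c, hc, j⟩⟩
        rw [e1]
        exact hZ.1.2.1
      · obtain ⟨a, a1, a2⟩ := not_disjoint_iff.1 k
        exact Or.inr ⟨a, a1, fun x hx => ua_subset_u hx.1.2.1 a2⟩

theorem reduce (H : Hyp G S P) (PX : Set (V → S)) (QY : Set (Finset (E × S × S))) (τ : ℝ)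
    (hτ : P.tm ≤ τ) (hτ1 : τ < 1)
    (hn : ∀ ν : Node V E S, ¬ State G P PX QY ν τ (1 / P.Q) (1 / P.R)) :
    ∃ (DX : Set (V → S)) (DY : Set (Finset (E × S × S))),
      ms (muX V S) DX + ms (pw P.p) DY ≤ 2 * τ ∧ Solv G.u (PX \ DX) (QY \ DY) (1 / τ ^ 10) := by
  have τ0 : 0 < τ := (Hyp.tm_pos P).trans_le hτ
  have hS : Nonempty S := by
    have := H.Qpos
    refine Fintype.card_pos_iff.1 (Nat.cast_pos (α := ℝ).1 ?_)
    rw [H.cardS]
    positivity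
  obtain ⟨x₀⟩ := hS
  obtain ⟨DX, DY, h1, h2⟩ := red_main H PX QY τ hτ hn _ ⟨0, ∅, fun _ => x₀, ∅⟩ rfl
    ⟨good_empty H.sparse (by have := Nat.two_pow_pos P.r1; unfold Par.r; omega),
      by simpa using hτ1, by simpa using mul_lt_one_of_nonneg_of_lt_one_left τ0.le hτ1 hτ1.le⟩
  refine ⟨DX, DY, by simpa [Par.w] using h1, h2.mono _ _ _ (fun x hx => ⟨⟨hx.1, ?_⟩, hx.2⟩)
    (fun Z hZ => ⟨⟨hZ.1, ?_⟩, hZ.2⟩) (by simp [redBud, Par.w])⟩
  · simp [Gr.XC]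
  · simp [Gr.YC, Gr.ua, Gr.ein]

end Pool.Agent.Lib.MP_8a52c3_lc.Mono25
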