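import Pool.Agent.Lib.MP_8a52c3_lc.Mono25.RA
import Pool.Agent.Lib.MP_8a52c3_lc.Mono25.RB

/-! Solved rectangles have no state. -/

namespace Pool.Agent.Lib.MP_8a52c3_lc.Mono25

open Finset

theorem Solv.mono {X C : Type} {u : X → Finset C} {PX : Set X} {QY : Set (Finset C)} {k : ℝ}
    (h : Solv u PX QY k) : ∀ (PX' : Set X) (QY' : Set (Finset C)) (k' : ℝ),
      PX' ⊆ PX → QY' ⊆ QY → k ≤ k' → Solv u PX' QY' k' := by
  induction h with
  | alice PX QY k ι s Ps ω h1 h2 h3 h4 ih =>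
    intro PX' QY' k' hP hQ hk
    have hm : ∀ i ∈ s, k * ω i ≤ k' * ω i := fun i hi =>
      mul_le_mul_of_nonneg_right hk (h2 i hi).1.le
    refine Solv.alice PX' QY' k' ι s Ps ω h1
      (fun i hi => ⟨(h2 i hi).1, (h2 i hi).2.trans (hm i hi)⟩) (fun x hx => ?_)
      fun i hi => ih i hi _ _ _ subset_rfl hQ (hm i hi)
    rcases h3 x (hP hx) with h | ⟨c, hc, hZ⟩
    · exact Or.inl h
    · exact Or.inr ⟨c, hc, fun Z hZ' => hZ Z (hQ hZ')⟩
  | bob PX QY k ι s Qs ω h1 h2 h3 h4 ih =>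
    intro PX' QY' k' hP hQ hk
    have hm : ∀ i ∈ s, k * ω i ≤ k' * ω i := fun i hi =>
      mul_le_mul_of_nonneg_right hk (h2 i hi).1.le
    refine Solv.bob PX' QY' k' ι s Qs ω h1
      (fun i hi => ⟨(h2 i hi).1, (h2 i hi).2.trans (hm i hi)⟩) (fun Z hZ => ?_)
      fun i hi => ih i hi _ _ _ hP subset_rfl (hm i hi)
    rcases h3 Z (hQ hZ) with h | ⟨c, hc, hx⟩
    · exact Or.inl h
    · exact Or.inr ⟨c, hc, fun x hx' => hx x (hP hx')⟩

/-- A rich set is not covered by a single element. -/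
theorem solv_not_single {Ω U : Type} [Fintype Ω] {μ : Ω → ℝ} {st : Ω → Finset U} {T : Set Ω}
    {t a : ℝ} (h : Rich μ st T t a) (ht : 0 ≤ t) (ha : a ≤ 1 / 2) (l : U)
    (hl : ∀ ω ∈ T, l ∈ st ω) : False := by
  have h1 := h {{l}} (by simpa [wt] using ha)
  obtain ⟨ω, hω, hn⟩ := nonempty_of_ms_pos (lt_of_le_of_lt ht h1)
  exact hn {l} (mem_singleton_self _) (singleton_subset_iff.2 (hl ω hω))

/-- The threshold inequalities of one round. -/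
theorem solv_thr {tm k w τ : ℝ} (htm : 0 < tm) (hw0 : 0 < w) (hw : w ≤ 1 / 2) (hkw : 1 ≤ k * w)
    (hτ : tm * k ^ 2 ≤ τ) : 2 * tm * (k * w) ^ 2 ≤ τ * w ∧ tm ≤ τ * w := by
  have h1 : 2 * tm * (k * w) ^ 2 ≤ τ * w := by
    have e : 2 * tm * (k * w) ^ 2 = tm * k ^ 2 * w * (2 * w) := by ring
    have h2 : 0 ≤ tm * k ^ 2 * w := by positivity
    have h3 : tm * k ^ 2 * w * (2 * w) ≤ tm * k ^ 2 * w * 1 :=
      mul_le_mul_of_nonneg_left (by linarith) h2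
    have h4 : tm * k ^ 2 * w ≤ τ * w := mul_le_mul_of_nonneg_right hτ hw0.le
    linarith
  refine ⟨h1, le_trans ?_ h1⟩
  have h5 : (1 : ℝ) ≤ (k * w) ^ 2 := one_le_pow₀ hkw
  nlinarith

variable {V E S : Type} [Fintype V] [Fintype E] [Fintype S] [DecidableEq V] [DecidableEq E]
  [DecidableEq S] {G : Gr V E} {P : Par}

theorem solv_excA (H : Hyp G S P) {QY : Set (Finset (E × S × S))} {ν : Node V E S} {τ a : ℝ}
    (h : RY G P QY ν τ a) (hτ : 0 ≤ τ) (ha : a ≤ 1 / 2) {x : V → S} (hx : x ∈ G.XC ν)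
    {c : E × S × S} (hc : c ∈ G.u x) (hZ : ∀ Z ∈ QY, c ∈ Z) : False := by
  refine solv_not_single h (mul_nonneg (H.wpos ν).le hτ) ha c fun Z hZ' => ?_
  exact mem_sdiff.2 ⟨hZ Z hZ'.1, disjoint_left.1 hx.2 hc⟩

theorem solv_excB (H : Hyp G S P) {PX : Set (V → S)} {ν : Node V E S} {τ a : ℝ}
    (h : RX G P PX ν τ a) (hτ : 0 ≤ τ) (ha : a ≤ 1 / 2) {Z : Finset (E × S × S)}
    (hZ : Z ∈ G.YC ν) {c : E × S × S} (hc : c ∈ Z) (hx : ∀ x ∈ PX, c ∈ G.u x) : False := by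
  have ht := mul_nonneg (H.wpos ν).le hτ
  obtain ⟨y, hy1, hy2⟩ := nonempty_of_ms_pos (lt_of_le_of_lt ht (Rich.lt_ms h))
  have hn : c ∉ G.ua ν := disjoint_left.1 hZ.2 hc
  by_cases h1 : G.src c.1 ∈ ν.I
  · by_cases h2 : G.dst c.1 ∈ ν.I
    · refine hn (mem_ua.2 ⟨?_, h1, h2⟩)
      have h3 := mem_u.1 (hx y hy1)
      rw [mem_u, ← hy2.1 _ h1, ← hy2.1 _ h2]
      exact h3
    · exact solv_not_single h ht ha (G.dst c.1, c.2.2) fun x hx' =>
        mem_sX.2 ⟨h2, (mem_u.1 (hx x hx'.1)).2⟩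
  · exact solv_not_single h ht ha (G.src c.1, c.2.1) fun x hx' =>
      mem_sX.2 ⟨h1, (mem_u.1 (hx x hx'.1)).1⟩

theorem no_state (H : Hyp G S P) {PX : Set (V → S)} {QY : Set (Finset (E × S × S))} {k : ℝ}
    (h : Solv G.u PX QY k) : 1 ≤ k → ∀ (ν : Node V E S) (τ : ℝ), 2 * P.tm * k ^ 2 ≤ τ →
      ¬ State G P PX QY ν τ P.aX (1 / P.R) ∧ ¬ State G P PX QY ν τ (1 / P.Q) P.aY := by
  have htm := Hyp.tm_pos P
  have hQ : 1 / P.Q ≤ 1 / 2 := H.hiX.trans H.aX_le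
  have hR : 1 / P.R ≤ 1 / 2 := H.hiY.trans H.aY_le
  induction h with
  | alice PX QY k ι s Ps ω h1 h2 h3 h4 ih =>
    intro hk ν τ hτ
    have hk2 : P.tm ≤ P.tm * k ^ 2 := le_mul_of_one_le_right htm.le (one_le_pow₀ hk)
    have hω : ∀ i ∈ s, ω i ≤ 1 / 2 := fun i hi =>
      (single_le_sum (f := ω) (fun j hj => (h2 j hj).1.le) hi).trans h1
    have A : ∀ (ν' : Node V E S) (τ' : ℝ), P.tm * k ^ 2 ≤ τ' →
        ¬ State G P PX QY ν' τ' P.aX (1 / P.R) := by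
      intro ν' τ' hτ' hst
      obtain ⟨i, hi, c, hc⟩ := restoreA H hst (hk2.trans hτ') s Ps ω
        (fun i hi => (solv_thr htm (h2 i hi).1 (hω i hi) (h2 i hi).2 hτ').2) h1 fun x hx =>
          (h3 x hx.1).resolve_right fun ⟨c, hc, hZ⟩ =>
            solv_excA H hst.2.2 (by linarith) hR hx.2 hc hZ
      exact (ih i hi (h2 i hi).2 c _ (solv_thr htm (h2 i hi).1 (hω i hi) (h2 i hi).2 hτ').1).2 hc
    refine ⟨A ν τ (by linarith), fun hst => ?_⟩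
    obtain ⟨i, -, c, hc⟩ := restoreB H hst (by linarith) ({()} : Finset Unit) (fun _ => QY)
      (fun _ => 1 / 2) (fun _ _ => by linarith) (by simp)
      fun Z hZ => ⟨(), mem_singleton_self _, hZ.1⟩
    exact A c _ (by linarith) hc
  | bob PX QY k ι s Qs ω h1 h2 h3 h4 ih =>
    intro hk ν τ hτ
    have hk2 : P.tm ≤ P.tm * k ^ 2 := le_mul_of_one_le_right htm.le (one_le_pow₀ hk)
    have hω : ∀ i ∈ s, ω i ≤ 1 / 2 := fun i hi =>
      (single_le_sum (f := ω) (fun j hj => (h2 j hj).1.le) hi).trans h1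
    have B : ∀ (ν' : Node V E S) (τ' : ℝ), P.tm * k ^ 2 ≤ τ' →
        ¬ State G P PX QY ν' τ' (1 / P.Q) P.aY := by
      intro ν' τ' hτ' hst
      obtain ⟨i, hi, c, hc⟩ := restoreB H hst (hk2.trans hτ') s Qs ω
        (fun i hi => (solv_thr htm (h2 i hi).1 (hω i hi) (h2 i hi).2 hτ').2) h1 fun Z hZ =>
          (h3 Z hZ.1).resolve_right fun ⟨c, hc, hx⟩ =>
            solv_excB H hst.2.1 (by linarith) hQ hZ.2 hc hx
      exact (ih i hi (h2 i hi).2 c _ (solv_thr htm (h2 i hi).1 (hω i hi) (h2 i hi).2 hτ').1).1 hc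
    refine ⟨fun hst => ?_, B ν τ (by linarith)⟩
    obtain ⟨i, -, c, hc⟩ := restoreA H hst (by linarith) ({()} : Finset Unit) (fun _ => PX)
      (fun _ => 1 / 2) (fun _ _ => by linarith) (by simp)
      fun x hx => ⟨(), mem_singleton_self _, hx.1⟩
    exact B c _ (by linarith) hc

end Pool.Agent.Lib.MP_8a52c3_lc.Mono25
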