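import Pool.Agent.Lib.MP_8a52c3_lc.Mono25.StepA

/-! One step of a cover tree, and the piece lemma. -/

namespace Pool.Agent.Lib.MP_8a52c3_lc.Mono25

open Finset

variable {V E S : Type} [Fintype V] [Fintype E] [Fintype S] [DecidableEq V] [DecidableEq E]
  [DecidableEq S] {G : Gr V E} {P : Par}

/-- The child of a node obtained by revealing more patterns. -/
def step_child (ν : Node V E S) (B : Finset (E × S × S)) : Node V E S :=
  ⟨ν.g, ν.I, ν.x, ν.A ∪ B⟩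

theorem step_child_w (H : Hyp G S P) (ν : Node V E S) {B : Finset (E × S × S)}
    (h : Disjoint ν.A B) : P.w (step_child ν B) = P.w ν * (1 / P.R) ^ B.card := by
  have hQ := H.Qpos
  have hR := H.Rpos
  unfold Par.w step_child
  dsimp only
  rw [card_union_of_disjoint h, pow_add, one_div, inv_pow]
  field_simp

theorem stepB (H : Hyp G S P) (ν : Node V E S) (τ : ℝ) (hτ : 0 < τ)
    (QY : Set (Finset (E × S × S))) (hn : ¬ RY G P QY ν τ (1 / P.R)) :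
    ∃ (ch : Finset (Node V E S)) (D : Set (Finset (E × S × S))),
      (∀ c ∈ ch, ExtB ν c ∧ ν.A.card < c.A.card ∧ P.w c * τ < P.p ^ c.A.card) ∧
      ∑ c ∈ ch, P.w c ≤ P.w ν / 2 ∧
      ms (pw P.p) D + 2 * τ * ∑ c ∈ ch, P.w c ≤ 2 * (P.w ν * τ) ∧
      ∀ Z ∈ QY ∩ G.YC ν, Z ∈ D ∨ ∃ c ∈ ch, Z ∈ G.YC c := by
  classical
  unfold RY Rich at hn
  push Not at hn
  obtain ⟨BB, hwt, hms⟩ := hn
  have hR : 0 < 1 / P.R := one_div_pos.2 H.Rpos
  have hw := H.wpos ν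
  set K : Finset (Finset (E × S × S)) := BB.filter fun B => Disjoint ν.A B with hK
  set live : Finset (E × S × S) → Prop :=
    fun B => P.w (step_child ν B) * τ < P.p ^ (ν.A ∪ B).card with hlive
  have hsum : ∑ B ∈ K.filter live, (1 / P.R) ^ B.card +
      ∑ B ∈ K.filter (fun B => ¬ live B), (1 / P.R) ^ B.card ≤ 1 / 2 := by
    rw [sum_filter_add_sum_filter_not]
    exact (wt_subset hR.le (filter_subset _ BB)).trans hwt
  have hL0 : 0 ≤ ∑ B ∈ K.filter live, (1 / P.R) ^ B.card :=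
    sum_nonneg fun _ _ => pow_nonneg hR.le _
  have hD0 : 0 ≤ ∑ B ∈ K.filter (fun B => ¬ live B), (1 / P.R) ^ B.card :=
    sum_nonneg fun _ _ => pow_nonneg hR.le _
  have hch : ∑ c ∈ (K.filter live).image (step_child ν), P.w c ≤
      P.w ν * ∑ B ∈ K.filter live, (1 / P.R) ^ B.card := by
    refine (sum_image_le' _ _ _ fun c => (H.wpos c).le).trans ?_
    rw [mul_sum]
    refine sum_le_sum fun B hB => ?_
    rw [step_child_w H ν (mem_filter.1 (mem_filter.1 hB).1).2]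
  have hdead : ms (pw P.p) {Z | ∃ B ∈ K.filter (fun B => ¬ live B), Z ∈ {W | ν.A ∪ B ⊆ W}} ≤
      P.w ν * τ * ∑ B ∈ K.filter (fun B => ¬ live B), (1 / P.R) ^ B.card := by
    refine (ms_biUnion_le H.muY _ fun B => {W | ν.A ∪ B ⊆ W}).trans ?_
    rw [mul_sum]
    refine sum_le_sum fun B hB => ?_
    rw [ms_supset]
    have h1 : P.p ^ (ν.A ∪ B).card ≤ P.w (step_child ν B) * τ := not_lt.1 (mem_filter.1 hB).2
    rw [step_child_w H ν (mem_filter.1 (mem_filter.1 hB).1).2] at h1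
    linarith
  refine ⟨(K.filter live).image (step_child ν),
    {Z | Z ∈ QY ∩ G.YC ν ∧ ∀ B ∈ BB, ¬ B ⊆ sY ν.A Z} ∪
      {Z | ∃ B ∈ K.filter (fun B => ¬ live B), Z ∈ {W | ν.A ∪ B ⊆ W}}, ?_, ?_, ?_, ?_⟩
  · intro c hc
    obtain ⟨B, hB, rfl⟩ := mem_image.1 hc
    obtain ⟨hB1, hB2⟩ := mem_filter.1 hB
    obtain ⟨hB3, hB4⟩ := mem_filter.1 hB1
    refine ⟨⟨rfl, rfl, rfl, subset_union_left⟩, ?_, hB2⟩
    have h1 : 0 < B.card := (nonempty_of_wt hR.le hwt hB3).card_pos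
    show ν.A.card < (ν.A ∪ B).card
    rw [card_union_of_disjoint hB4]
    omega
  · refine hch.trans ?_
    have h1 : ∑ B ∈ K.filter live, (1 / P.R) ^ B.card ≤ 1 / 2 := by linarith
    have h2 := mul_le_mul_of_nonneg_left h1 hw.le
    linarith
  · have h1 := ms_union_le H.muY {Z | Z ∈ QY ∩ G.YC ν ∧ ∀ B ∈ BB, ¬ B ⊆ sY ν.A Z}
      {Z | ∃ B ∈ K.filter (fun B => ¬ live B), Z ∈ {W | ν.A ∪ B ⊆ W}}
    have h2 := mul_le_mul_of_nonneg_left hch hτ.le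
    have h3 := mul_le_mul_of_nonneg_left hsum (mul_pos hw hτ).le
    have h4 := mul_nonneg (mul_pos hw hτ).le hD0
    nlinarith
  · intro Z hZ
    by_cases h : ∀ B ∈ BB, ¬ B ⊆ sY ν.A Z
    · exact Or.inl (Or.inl ⟨hZ, h⟩)
    · push Not at h
      obtain ⟨B, hB, hBZ⟩ := h
      have hdis : Disjoint ν.A B :=
        disjoint_left.2 fun a ha hb => (mem_sdiff.1 (hBZ hb)).2 ha
      have hsub : ν.A ∪ B ⊆ Z := union_subset hZ.2.1 (hBZ.trans sdiff_subset)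
      have hBK : B ∈ K := mem_filter.2 ⟨hB, hdis⟩
      by_cases hl : live B
      · exact Or.inr ⟨step_child ν B, mem_image_of_mem _ (mem_filter.2 ⟨hBK, hl⟩), hsub, hZ.2.2⟩
      · exact Or.inl (Or.inr ⟨B, mem_filter.2 ⟨hBK, hl⟩, hsub⟩)

theorem pieces {N Ω : Type} [Fintype Ω] (μ : Ω → ℝ) (hμ : ∀ ω, 0 ≤ μ ω) (w : N → ℝ)
    (hw : ∀ ν, 0 ≤ w ν) (cell : N → Set Ω) (rank : N → ℕ) (Inv Ri : N → Prop) (τ : ℝ)
    (hτ : 0 ≤ τ)
    (step : ∀ ν, Inv ν → ¬ Ri ν → ∃ (ch : Finset N) (D : Set Ω),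
      (∀ c ∈ ch, Inv c ∧ rank c < rank ν) ∧ ∑ c ∈ ch, w c ≤ w ν / 2 ∧
      ms μ D + 2 * τ * ∑ c ∈ ch, w c ≤ 2 * (w ν * τ) ∧
      ∀ x ∈ cell ν, x ∈ D ∨ ∃ c ∈ ch, x ∈ cell c) :
    ∀ ν, Inv ν → ∃ (ps : Finset N) (D : Set Ω), (∀ c ∈ ps, Inv c ∧ Ri c) ∧
      ∑ c ∈ ps, w c ≤ w ν ∧ ms μ D ≤ 2 * (w ν * τ) ∧
      ∀ x ∈ cell ν, x ∈ D ∨ ∃ c ∈ ps, x ∈ cell c := by
  classical
  have key : ∀ n : ℕ, ∀ ν, rank ν < n → Inv ν → ∃ (ps : Finset N) (D : Set Ω),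
      (∀ c ∈ ps, Inv c ∧ Ri c) ∧ ∑ c ∈ ps, w c ≤ w ν ∧ ms μ D ≤ 2 * (w ν * τ) ∧
      ∀ x ∈ cell ν, x ∈ D ∨ ∃ c ∈ ps, x ∈ cell c := by
    intro n
    induction n with
    | zero => intro ν h; omega
    | succ n ih =>
      intro ν hr hI
      by_cases hR : Ri ν
      · refine ⟨{ν}, ∅, ?_, ?_, ?_, ?_⟩
        · intro c hc
          rw [mem_singleton.1 hc]
          exact ⟨hI, hR⟩
        · rw [sum_singleton]
        · rw [ms_empty]
          have := mul_nonneg (hw ν) hτ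
          linarith
        · intro x hx
          exact Or.inr ⟨ν, mem_singleton_self ν, hx⟩
      · obtain ⟨ch, D0, h1, h2, h3, h4⟩ := step ν hI hR
        have hex : ∀ c : N, ∃ (ps : Finset N) (D : Set Ω), c ∈ ch →
            (∀ d ∈ ps, Inv d ∧ Ri d) ∧ ∑ d ∈ ps, w d ≤ w c ∧ ms μ D ≤ 2 * (w c * τ) ∧
            ∀ x ∈ cell c, x ∈ D ∨ ∃ d ∈ ps, x ∈ cell d := by
          intro c
          by_cases hc : c ∈ ch
          · obtain ⟨ps, D, h⟩ := ih c (by have := (h1 c hc).2; omega) (h1 c hc).1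
            exact ⟨ps, D, fun _ => h⟩
          · exact ⟨∅, ∅, fun h => absurd h hc⟩
        choose ps Ds hps using hex
        refine ⟨ch.biUnion ps, D0 ∪ {ω | ∃ c ∈ ch, ω ∈ Ds c}, ?_, ?_, ?_, ?_⟩
        · intro d hd
          obtain ⟨c, hc, hd⟩ := mem_biUnion.1 hd
          exact (hps c hc).1 d hd
        · refine (sum_biUnion_le' ch ps w hw).trans ?_
          have h5 : ∑ c ∈ ch, ∑ d ∈ ps c, w d ≤ ∑ c ∈ ch, w c :=
            sum_le_sum fun c hc => (hps c hc).2.1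
          linarith [hw ν]
        · refine (ms_union_le hμ _ _).trans ?_
          have h5 := ms_biUnion_le hμ ch Ds
          have h6 : ∑ c ∈ ch, ms μ (Ds c) ≤ ∑ c ∈ ch, 2 * (w c * τ) :=
            sum_le_sum fun c hc => (hps c hc).2.2.1
          have h7 : ∑ c ∈ ch, 2 * (w c * τ) = 2 * τ * ∑ c ∈ ch, w c := by
            rw [mul_sum]
            exact sum_congr rfl fun c _ => by ring
          linarith
        · intro x hx
          rcases h4 x hx with h | ⟨c, hc, h⟩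
          · exact Or.inl (Or.inl h)
          · rcases (hps c hc).2.2.2 x h with h' | ⟨d, hd, h'⟩
            · exact Or.inl (Or.inr ⟨c, hc, h'⟩)
            · exact Or.inr ⟨d, mem_biUnion.2 ⟨c, hc, hd⟩, h'⟩
  intro ν hI
  exact key (rank ν + 1) ν (Nat.lt_succ_self _) hI

/-- Pieces of the first player. -/
theorem piecesA (H : Hyp G S P) (ν : Node V E S) (hv : G.Good P.r ν.g ν.I) (τ : ℝ) (hτ : 0 < τ)
    (hb : ∀ g : ℕ, P.Q ^ g * τ < P.R ^ ν.A.card → 2 * g + 1 ≤ P.r) (PX : Set (V → S)) :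
    ∃ (ps : Finset (Node V E S)) (D : Set (V → S)),
      (∀ c ∈ ps, G.Good P.r c.g c.I ∧ ExtA ν c ∧ RX G P PX c τ (1 / P.Q)) ∧
      ∑ c ∈ ps, P.w c ≤ P.w ν ∧ ms (muX V S) D ≤ 2 * (P.w ν * τ) ∧
      ∀ x ∈ PX ∩ G.XC ν, x ∈ D ∨ ∃ c ∈ ps, x ∈ G.XC c := by
  obtain ⟨ps, D, h1, h2, h3, h4⟩ := pieces (muX V S) muX_nonneg P.w (fun c => (H.wpos c).le)
    (fun c => PX ∩ G.XC c) (fun c => Fintype.card V - c.I.card)
    (fun c => G.Good P.r c.g c.I ∧ ExtA ν c) (fun c => RX G P PX c τ (1 / P.Q)) τ hτ.le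
    (by
      intro c hc hR
      obtain ⟨hg, e1, e2, e3⟩ := hc
      obtain ⟨ch, D, k1, k2, k3, k4⟩ := stepA H c hg τ hτ (by rw [e1]; exact hb) PX hR
      refine ⟨ch, D, ?_, k2, k3, ?_⟩
      · intro d hd
        obtain ⟨l1, ⟨l2, l3, l4⟩, -, l5, -⟩ := k1 d hd
        refine ⟨⟨l1, l2.trans e1, e2.trans l3, fun v hv => (l4 v (e2 hv)).trans (e3 v hv)⟩, ?_⟩
        have := card_le_univ d.I
        show Fintype.card V - d.I.card < Fintype.card V - c.I.card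
        omega
      · intro x hx
        rcases k4 x hx with h | ⟨d, hd, h⟩
        · exact Or.inl h
        · exact Or.inr ⟨d, hd, hx.1, h⟩)
    ν ⟨hv, rfl, Subset.refl _, fun _ _ => rfl⟩
  refine ⟨ps, D, fun c hc => ⟨(h1 c hc).1.1, (h1 c hc).1.2, (h1 c hc).2⟩, h2, h3, ?_⟩
  intro x hx
  rcases h4 x hx with h | ⟨d, hd, h⟩
  · exact Or.inl h
  · exact Or.inr ⟨d, hd, h.2⟩

/-- Pieces of the second player. -/
theorem piecesB (H : Hyp G S P) (ν : Node V E S) (τ : ℝ) (hτ : 0 < τ)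
    (QY : Set (Finset (E × S × S))) :
    ∃ (ps : Finset (Node V E S)) (D : Set (Finset (E × S × S))),
      (∀ c ∈ ps, ExtB ν c ∧ RY G P QY c τ (1 / P.R)) ∧
      ∑ c ∈ ps, P.w c ≤ P.w ν ∧ ms (pw P.p) D ≤ 2 * (P.w ν * τ) ∧
      ∀ Z ∈ QY ∩ G.YC ν, Z ∈ D ∨ ∃ c ∈ ps, Z ∈ G.YC c := by
  obtain ⟨ps, D, h1, h2, h3, h4⟩ := pieces (pw P.p) H.muY P.w (fun c => (H.wpos c).le)
    (fun c => QY ∩ G.YC c) (fun c => Fintype.card (E × S × S) - c.A.card)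
    (fun c => ExtB ν c) (fun c => RY G P QY c τ (1 / P.R)) τ hτ.le
    (by
      intro c hc hR
      obtain ⟨e1, e2, e3, e4⟩ := hc
      obtain ⟨ch, D, k1, k2, k3, k4⟩ := stepB H c τ hτ QY hR
      refine ⟨ch, D, ?_, k2, k3, ?_⟩
      · intro d hd
        obtain ⟨⟨l1, l2, l3, l4⟩, l5, -⟩ := k1 d hd
        refine ⟨⟨l1.trans e1, l2.trans e2, l3.trans e3, e4.trans l4⟩, ?_⟩
        have := card_le_univ d.A
        show Fintype.card (E × S × S) - d.A.card < Fintype.card (E × S × S) - c.A.card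
        omega
      · intro x hx
        rcases k4 x hx with h | ⟨d, hd, h⟩
        · exact Or.inl h
        · exact Or.inr ⟨d, hd, hx.1, h⟩)
    ν ⟨rfl, rfl, rfl, Subset.refl _⟩
  refine ⟨ps, D, h1, h2, h3, ?_⟩
  intro x hx
  rcases h4 x hx with h | ⟨d, hd, h⟩
  · exact Or.inl h
  · exact Or.inr ⟨d, hd, h.2⟩

end Pool.Agent.Lib.MP_8a52c3_lc.Mono25
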