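import Pool.Agent.Lib.MP_8a52c3_lc.Mono25.Basic

/-! One step of a cover tree of the first player. -/

namespace Pool.Agent.Lib.MP_8a52c3_lc.Mono25

open Finset

/-- Disjoint subsets of a set have total mass at most its mass. -/
theorem stepA_ms_disj {Ω : Type} [Fintype Ω] {μ : Ω → ℝ} (hμ : ∀ ω, 0 ≤ μ ω) {ι : Type}
    (s : Finset ι) (C : ι → Set Ω) (T : Set Ω) (h1 : ∀ i ∈ s, C i ⊆ T)
    (h2 : ∀ i ∈ s, ∀ j ∈ s, ∀ ω, ω ∈ C i → ω ∈ C j → i = j) :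
    ∑ i ∈ s, ms μ (C i) ≤ ms μ T := by
  unfold ms
  rw [sum_comm]
  refine sum_le_sum fun ω _ => ?_
  rw [← mul_sum]
  refine mul_le_mul_of_nonneg_left ?_ (hμ ω)
  by_cases h : ∃ i ∈ s, ω ∈ C i
  · obtain ⟨i, hi, hω⟩ := h
    rw [sum_eq_single i, ind_true hω, ind_true (h1 i hi hω)]
    · intro j hj hji
      exact ind_false fun a => hji (h2 j hj i hi ω a hω)
    · intro a
      exact absurd hi a
  · rw [sum_eq_zero fun i hi => ind_false fun a => h ⟨i, hi, a⟩]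
    exact ind_nonneg _

variable {V E S : Type} [Fintype V] [Fintype E] [Fintype S] [DecidableEq V] [DecidableEq E]
  [DecidableEq S] {G : Gr V E} {P : Par}

theorem stepA_one (H : Hyp G S P) (ν : Node V E S) (hv : G.Good P.r ν.g ν.I) (τ : ℝ) (hτ : 0 < τ)
    (hb : ∀ g : ℕ, P.Q ^ g * τ < P.R ^ ν.A.card → 2 * g + 1 ≤ P.r) (B : Finset (V × S))
    (hB : B.Nonempty) :
    ∃ (ch : Finset (Node V E S)) (D : Set (V → S)),
      (∀ c ∈ ch, G.Good P.r c.g c.I ∧ ExtA ν c ∧ ν.g < c.g ∧ ν.I.card < c.I.card ∧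
        P.Q ^ c.g * τ < P.R ^ ν.A.card) ∧
      ∑ c ∈ ch, P.w c ≤ P.w ν * (1 / P.Q) ^ B.card ∧
      ms (muX V S) D + 2 * τ * ∑ c ∈ ch, P.w c ≤ 2 * (P.w ν * τ) * (1 / P.Q) ^ B.card ∧
      ∀ x ∈ G.XC ν, B ⊆ sX ν.I x → x ∈ D ∨ ∃ c ∈ ch, x ∈ G.XC c := by
  classical
  have hQ := H.Qpos
  have hR := H.Rpos
  have hw := H.wpos ν
  have hq : 0 < (1 / P.Q) ^ B.card := by positivity
  by_cases hne : ∃ x0 : V → S, (∀ v ∈ ν.I, x0 v = ν.x v) ∧ B ⊆ sX ν.I x0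
  swap
  · refine ⟨∅, ∅, by simp, ?_, ?_, ?_⟩
    · rw [sum_empty]; positivity
    · rw [sum_empty, ms_empty, mul_zero, add_zero]; positivity
    · intro x hx hxB
      exact absurd ⟨x, hx.1, hxB⟩ hne
  obtain ⟨x0, hx0, hB0⟩ := hne
  set J : Finset V := B.image Prod.fst with hJ
  have hJc : J.card = B.card := by
    refine card_image_of_injOn fun l hl l' hl' h => ?_
    have h1 := (mem_sX.1 (hB0 (mem_coe.1 hl))).2
    have h2 := (mem_sX.1 (hB0 (mem_coe.1 hl'))).2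
    exact Prod.ext h (by rw [h1, h2, h])
  have hdis : Disjoint ν.I J := by
    refine disjoint_right.2 fun v hvJ => ?_
    obtain ⟨l, hl, rfl⟩ := mem_image.1 hvJ
    exact (mem_sX.1 (hB0 hl)).1
  have hIJ : (ν.I ∪ J).card = ν.I.card + B.card := by rw [card_union_of_disjoint hdis, hJc]
  set T : Set (V → S) := {x | ∀ v ∈ ν.I ∪ J, x v = x0 v} with hT
  have hmT : ms (muX V S) T = 1 / P.Q ^ (2 * (ν.I.card + B.card)) := by
    rw [hT, ms_cyl H, hIJ]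
  have hcyl : ∀ x ∈ G.XC ν, B ⊆ sX ν.I x → x ∈ T := by
    intro x hx hxB v hv
    rcases mem_union.1 hv with hv | hv
    · rw [hx.1 v hv, hx0 v hv]
    · obtain ⟨l, hl, rfl⟩ := mem_image.1 hv
      rw [← (mem_sX.1 (hxB hl)).2, ← (mem_sX.1 (hB0 hl)).2]
  by_cases hd : P.Q ^ (ν.g + B.card) * τ < P.R ^ ν.A.card
  swap
  · have hd' := not_lt.1 hd
    refine ⟨∅, T, by simp, ?_, ?_, ?_⟩
    · rw [sum_empty]; positivity
    · rw [sum_empty, mul_zero, add_zero, hmT]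
      have e : P.w ν * τ * (1 / P.Q) ^ B.card =
          (P.Q ^ (ν.g + B.card) * τ / P.R ^ ν.A.card) * (1 / P.Q ^ (2 * (ν.I.card + B.card))) := by
        unfold Par.w
        rw [one_div_pow]
        field_simp
        ring
      have h1 : 1 ≤ P.Q ^ (ν.g + B.card) * τ / P.R ^ ν.A.card :=
        (one_le_div (by positivity)).2 hd'
      have h2 : 0 < 1 / P.Q ^ (2 * (ν.I.card + B.card)) := by positivity
      have h3 : 1 / P.Q ^ (2 * (ν.I.card + B.card)) ≤ P.w ν * τ * (1 / P.Q) ^ B.card := by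
        rw [e]
        exact le_mul_of_one_le_left h2.le h1
      have h4 : 0 < P.w ν * τ * (1 / P.Q) ^ B.card := by positivity
      linarith
    · intro x hx hxB
      exact Or.inl (hcyl x hx hxB)
  obtain ⟨I', hI', hg'⟩ := closure H.sparse hv J (g' := ν.g + B.card) (by rw [hJc]) (hb _ hd)
  let nd : (V → S) → Node V E S := fun x =>
    ⟨ν.g + B.card, I', fun v => if v ∈ I' then x v else ν.x v, ν.A⟩
  set ch : Finset (Node V E S) := (univ.filter fun x => x ∈ T).image nd with hch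
  have hmem : ∀ c ∈ ch, ∃ x ∈ T, c = nd x := by
    intro c hc
    obtain ⟨x, hx, rfl⟩ := mem_image.1 hc
    exact ⟨x, (mem_filter.1 hx).2, rfl⟩
  have hBpos : 0 < B.card := card_pos.2 hB
  have hsum : ∑ c ∈ ch, P.w c ≤ P.w ν * (1 / P.Q) ^ B.card := by
    have h1 := stepA_ms_disj (μ := muX V S) muX_nonneg ch
      (fun c => {x | ∀ v ∈ I', x v = c.x v}) T ?_ ?_
    · have h2 : ∀ c ∈ ch, P.w c = (P.Q ^ (ν.g + B.card) / P.R ^ ν.A.card) *
          ms (muX V S) {x | ∀ v ∈ I', x v = c.x v} := by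
        intro c hc
        obtain ⟨x, _, rfl⟩ := hmem c hc
        rw [ms_cyl H]
        show P.Q ^ (ν.g + B.card) / (P.Q ^ (2 * I'.card) * P.R ^ ν.A.card) = _
        field_simp
      rw [sum_congr rfl h2, ← mul_sum]
      have e : P.w ν * (1 / P.Q) ^ B.card =
          (P.Q ^ (ν.g + B.card) / P.R ^ ν.A.card) * (1 / P.Q ^ (2 * (ν.I.card + B.card))) := by
        unfold Par.w
        rw [one_div_pow]
        field_simp
        ring
      rw [e, ← hmT]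
      exact mul_le_mul_of_nonneg_left h1 (by positivity)
    · intro c hc y hy v hv
      obtain ⟨x, hx, rfl⟩ := hmem c hc
      have h3 := hy v (hI' hv)
      have h4 : (nd x).x v = x v := if_pos (hI' hv)
      rw [h3, h4]
      exact hx v hv
    · intro c hc c' hc' y hy hy'
      obtain ⟨x, _, rfl⟩ := hmem c hc
      obtain ⟨x', _, rfl⟩ := hmem c' hc'
      have e : (fun v => if v ∈ I' then x v else ν.x v) =
          fun v => if v ∈ I' then x' v else ν.x v := by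
        funext v
        by_cases h : v ∈ I'
        · have h3 := hy v h
          have h4 := hy' v h
          have h5 : (nd x).x v = x v := if_pos h
          have h6 : (nd x').x v = x' v := if_pos h
          rw [if_pos h, if_pos h, ← h5, ← h6, ← h3, ← h4]
        · rw [if_neg h, if_neg h]
      show (⟨ν.g + B.card, I', _, ν.A⟩ : Node V E S) = ⟨ν.g + B.card, I', _, ν.A⟩
      rw [e]
  refine ⟨ch, ∅, ?_, hsum, ?_, ?_⟩
  · intro c hc
    obtain ⟨x, hx, rfl⟩ := hmem c hc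
    refine ⟨hg', ⟨rfl, subset_union_left.trans hI', fun v hv => ?_⟩, ?_, ?_, hd⟩
    · have h4 : (nd x).x v = x v := if_pos (hI' (mem_union_left _ hv))
      rw [h4, hx v (mem_union_left _ hv), hx0 v hv]
    · show ν.g < ν.g + B.card
      omega
    · show ν.I.card < I'.card
      have := card_le_card hI'
      omega
  · rw [ms_empty, zero_add]
    have := mul_le_mul_of_nonneg_left hsum (show 0 ≤ 2 * τ by positivity)
    linarith
  · intro x hx hxB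
    refine Or.inr ⟨nd x, mem_image.2 ⟨x, mem_filter.2 ⟨mem_univ _, hcyl x hx hxB⟩, rfl⟩, ?_, hx.2⟩
    intro v hv
    exact (if_pos hv).symm

theorem stepA (H : Hyp G S P) (ν : Node V E S) (hv : G.Good P.r ν.g ν.I) (τ : ℝ) (hτ : 0 < τ)
    (hb : ∀ g : ℕ, P.Q ^ g * τ < P.R ^ ν.A.card → 2 * g + 1 ≤ P.r) (PX : Set (V → S))
    (hn : ¬ RX G P PX ν τ (1 / P.Q)) :
    ∃ (ch : Finset (Node V E S)) (D : Set (V → S)),
      (∀ c ∈ ch, G.Good P.r c.g c.I ∧ ExtA ν c ∧ ν.g < c.g ∧ ν.I.card < c.I.card ∧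
        P.Q ^ c.g * τ < P.R ^ ν.A.card) ∧
      ∑ c ∈ ch, P.w c ≤ P.w ν / 2 ∧
      ms (muX V S) D + 2 * τ * ∑ c ∈ ch, P.w c ≤ 2 * (P.w ν * τ) ∧
      ∀ x ∈ PX ∩ G.XC ν, x ∈ D ∨ ∃ c ∈ ch, x ∈ G.XC c := by
  classical
  have hQ := H.Qpos
  have hw := H.wpos ν
  unfold RX Rich at hn
  obtain ⟨𝓑, h𝓑⟩ := not_forall.1 hn
  obtain ⟨hwt, hms⟩ := Classical.not_imp.1 h𝓑
  have hms' := not_lt.1 hms
  have hone : ∀ B : Finset (V × S), ∃ (ch : Finset (Node V E S)) (D : Set (V → S)), B ∈ 𝓑 →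
      (∀ c ∈ ch, G.Good P.r c.g c.I ∧ ExtA ν c ∧ ν.g < c.g ∧ ν.I.card < c.I.card ∧
        P.Q ^ c.g * τ < P.R ^ ν.A.card) ∧
      ∑ c ∈ ch, P.w c ≤ P.w ν * (1 / P.Q) ^ B.card ∧
      ms (muX V S) D + 2 * τ * ∑ c ∈ ch, P.w c ≤ 2 * (P.w ν * τ) * (1 / P.Q) ^ B.card ∧
      ∀ x ∈ G.XC ν, B ⊆ sX ν.I x → x ∈ D ∨ ∃ c ∈ ch, x ∈ G.XC c := by
    intro B
    by_cases hB : B ∈ 𝓑
    · obtain ⟨ch, D, h⟩ := stepA_one H ν hv τ hτ hb B
        (nonempty_of_wt (one_div_pos.2 hQ).le hwt hB)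
      exact ⟨ch, D, fun _ => h⟩
    · exact ⟨∅, ∅, fun a => absurd a hB⟩
  choose chB DB hB using hone
  have hs : ∑ c ∈ 𝓑.biUnion chB, P.w c ≤ ∑ B ∈ 𝓑, ∑ c ∈ chB B, P.w c :=
    sum_biUnion_le' 𝓑 chB _ fun c => (H.wpos c).le
  have hwt' : ∑ B ∈ 𝓑, (1 / P.Q) ^ B.card ≤ 1 / 2 := hwt
  refine ⟨𝓑.biUnion chB,
    {x | x ∈ PX ∩ G.XC ν ∧ ∀ B ∈ 𝓑, ¬ B ⊆ sX ν.I x} ∪ {x | ∃ B ∈ 𝓑, x ∈ DB B}, ?_, ?_, ?_, ?_⟩
  · intro c hc
    obtain ⟨B, hB1, hc⟩ := mem_biUnion.1 hc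
    exact (hB B hB1).1 c hc
  · have h1 : ∑ B ∈ 𝓑, ∑ c ∈ chB B, P.w c ≤ ∑ B ∈ 𝓑, P.w ν * (1 / P.Q) ^ B.card :=
      sum_le_sum fun B hB1 => (hB B hB1).2.1
    rw [← mul_sum] at h1
    have h2 := mul_le_mul_of_nonneg_left hwt' hw.le
    linarith
  · have h1 : ∑ B ∈ 𝓑, (ms (muX V S) (DB B) + 2 * τ * ∑ c ∈ chB B, P.w c) ≤
        ∑ B ∈ 𝓑, 2 * (P.w ν * τ) * (1 / P.Q) ^ B.card :=
      sum_le_sum fun B hB1 => (hB B hB1).2.2.1
    rw [sum_add_distrib, ← mul_sum, ← mul_sum] at h1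
    have h2 := mul_le_mul_of_nonneg_left hwt' (show 0 ≤ 2 * (P.w ν * τ) by positivity)
    have h3 := ms_union_le (μ := muX V S) muX_nonneg
      {x | x ∈ PX ∩ G.XC ν ∧ ∀ B ∈ 𝓑, ¬ B ⊆ sX ν.I x} {x | ∃ B ∈ 𝓑, x ∈ DB B}
    have h4 := ms_biUnion_le (μ := muX V S) muX_nonneg 𝓑 DB
    have h5 := mul_le_mul_of_nonneg_left hs (show 0 ≤ 2 * τ by positivity)
    linarith
  · intro x hx
    by_cases hc : ∃ B ∈ 𝓑, B ⊆ sX ν.I x
    · obtain ⟨B, hB1, hB2⟩ := hc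
      rcases (hB B hB1).2.2.2 x hx.2 hB2 with h | ⟨c, hc1, hc2⟩
      · exact Or.inl (Or.inr ⟨B, hB1, h⟩)
      · exact Or.inr ⟨c, mem_biUnion.2 ⟨B, hB1, hc1⟩, hc2⟩
    · exact Or.inl (Or.inl ⟨hx, fun B hB1 hB2 => hc ⟨B, hB1, hB2⟩⟩)

end Pool.Agent.Lib.MP_8a52c3_lc.Mono25
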